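import Pool.Agent.W2helper3.BQ.Lc

set_option autoImplicit false

open MeasureTheory Set Filter Topology
open scoped SchwartzMap ENNReal ContDiff BigOperators

namespace Pool.Agent.W2helper3.BQ

open Pool.Agent.Y282.RB (Tn Cn)

/-! ### algebra of the operators -/

lemma DD_apply (ζ : 𝓢(ℝ, ℂ)) (u : ℝ) : DD ζ u = deriv ζ u := rfl

lemma pol_add (P Q : Polynomial ℝ) (ζ : 𝓢(ℝ, ℂ)) : pol (P + Q) ζ = pol P ζ + pol Q ζ := by
  unfold pol
  rw [map_add]
  rfl

lemma pol_sum {ι : Type*} (s : Finset ι) (P : ι → Polynomial ℝ) (ζ : 𝓢(ℝ, ℂ)) :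
    pol (∑ i ∈ s, P i) ζ = ∑ i ∈ s, pol (P i) ζ := by
  unfold pol
  rw [map_sum, LinearMap.sum_apply]

lemma pol_C_mul (a : ℝ) (P : Polynomial ℝ) (ζ : 𝓢(ℝ, ℂ)) :
    pol (Polynomial.C a * P) ζ = a • pol P ζ := by
  unfold pol
  rw [map_mul, Polynomial.aeval_C]
  rfl

lemma pol_X_mul (P : Polynomial ℝ) (ζ : 𝓢(ℝ, ℂ)) :
    pol (Polynomial.X * P) ζ = DD (pol P ζ) := by
  unfold pol
  rw [map_mul, Polynomial.aeval_X]
  rfl

lemma pol_fac (a : ℝ) (P : Polynomial ℝ) (ζ : 𝓢(ℝ, ℂ)) :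
    pol ((Polynomial.X - Polynomial.C a) * P) ζ = DD (pol P ζ) - a • pol P ζ := by
  have e : (Polynomial.X - Polynomial.C a) * P = Polynomial.X * P + Polynomial.C (-a) * P := by
    rw [Polynomial.C_neg]
    ring
  rw [e, pol_add, pol_X_mul, pol_C_mul, neg_smul, sub_eq_add_neg]

lemma pol_one (ζ : 𝓢(ℝ, ℂ)) : pol 1 ζ = ζ := by
  unfold pol
  rw [map_one]
  rfl

lemma cs_DD {ζ : 𝓢(ℝ, ℂ)} (h : HasCompactSupport ζ) : HasCompactSupport (DD ζ) :=
  h.deriv

lemma cs_smul {ζ : 𝓢(ℝ, ℂ)} (a : ℝ) (h : HasCompactSupport ζ) :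
    HasCompactSupport (a • ζ : 𝓢(ℝ, ℂ)) := by
  have h2 : HasCompactSupport ((fun _ : ℝ => a) • (ζ : ℝ → ℂ)) := h.smul_left
  exact h2

lemma cs_add {ζ η : 𝓢(ℝ, ℂ)} (h : HasCompactSupport ζ) (h' : HasCompactSupport η) :
    HasCompactSupport (ζ + η : 𝓢(ℝ, ℂ)) := by
  have h2 : HasCompactSupport ((ζ : ℝ → ℂ) + (η : ℝ → ℂ)) := h.add h'
  exact h2

lemma cs_pol (P : Polynomial ℝ) {ζ : 𝓢(ℝ, ℂ)} (h : HasCompactSupport ζ) :
    HasCompactSupport (pol P ζ) := by
  induction P using Polynomial.induction_on with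
  | C a =>
    have e : Polynomial.C a = Polynomial.C a * 1 := (mul_one _).symm
    rw [e, pol_C_mul, pol_one]
    exact cs_smul a h
  | add P Q hP hQ =>
    rw [pol_add]
    exact cs_add hP hQ
  | monomial k a hk =>
    have e : Polynomial.C a * Polynomial.X ^ (k + 1) =
        Polynomial.X * (Polynomial.C a * Polynomial.X ^ k) := by ring
    rw [e, pol_X_mul]
    exact cs_DD hk

lemma PA_eq (p : ℝ) (n : ℕ) (k : ℤ) (i : ℕ) (hi : i < n) :
    PA p n k = (Polynomial.X - Polynomial.C (al p n k i)) * PE p n k i := by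
  unfold PA PE
  rw [Finset.mul_prod_erase (Finset.range n)
    (fun i => Polynomial.X - Polynomial.C (al p n k i)) (Finset.mem_range.2 hi)]

/-! ### the constant -/

lemma Cn_ge {p : ℝ} (hp : 4 ≤ p) {n : ℕ} (hn : 1 ≤ n) : p / 2 ≤ Cn p n := by
  have hp0 : 0 < p := by linarith
  have h1 : (1 : ℝ) / p ≤ 1 / 4 := one_div_le_one_div_of_le (by norm_num) hp
  have h0 : (0 : ℝ) < 1 / p := by positivity
  induction n, hn using Nat.le_induction with
  | base =>
    unfold Cn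
    simp only [Finset.prod_range_one, Nat.cast_zero, zero_add]
    have e : (1 - 1 / p) / (1 / p) = p - 1 := by
      field_simp
    rw [e]
    linarith
  | succ n hn ih =>
    have e : Cn p (n + 1) = Cn p n * (((n : ℝ) + 1 - 1 / p) / ((n : ℝ) + 1 / p)) := by
      unfold Cn
      rw [Finset.prod_range_succ]
    rw [e]
    have hn0 : (0 : ℝ) ≤ n := Nat.cast_nonneg n
    have h2 : 1 ≤ ((n : ℝ) + 1 - 1 / p) / ((n : ℝ) + 1 / p) := by
      rw [le_div_iff₀ (by linarith)]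
      linarith
    have h3 : 0 ≤ Cn p n := le_trans (by positivity) ih
    nlinarith

/-! ### orthogonality -/

lemma avc_exp (m : ℤ) : avc (fun t => Complex.exp ((m : ℂ) * t * Complex.I)) =
    if m = 0 then 1 else 0 := by
  split_ifs with h
  · subst h
    simp only [Int.cast_zero, zero_mul, Complex.exp_zero]
    exact avc_const 1
  · unfold avc
    have hc : (m : ℂ) * Complex.I ≠ 0 :=
      mul_ne_zero (Int.cast_ne_zero.2 h) Complex.I_ne_zero
    have e : ∀ t : ℝ, Complex.exp ((m : ℂ) * t * Complex.I) =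
        Complex.exp (((m : ℂ) * Complex.I) * t) := fun t => by
      congr 1
      ring
    simp only [e]
    rw [integral_exp_mul_complex hc]
    have e2 : (m : ℂ) * Complex.I * ((2 * Real.pi : ℝ) : ℂ) = m * (2 * Real.pi * Complex.I) := by
      push_cast
      ring
    rw [e2, Complex.exp_int_mul_two_pi_mul_I]
    simp

lemma exp_cont (c : ℂ) : Continuous (fun t : ℝ => Complex.exp (c * t * Complex.I)) := by
  fun_prop

lemma norm_exp_I (a t : ℝ) : ‖Complex.exp ((a : ℂ) * t * Complex.I)‖ = 1 := by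
  have : (a : ℂ) * t * Complex.I = ((a * t : ℝ) : ℂ) * Complex.I := by push_cast; ring
  rw [this, Complex.norm_exp_ofReal_mul_I]

/-- the modes of a trigonometric polynomial -/
lemma avc_mode (S : Finset ℤ) (M : ℤ) (φ : ℤ → ℂ) (j : ℤ) (hj : j ∈ S) :
    avc (fun t => Complex.exp (-((j : ℂ) - M) * t * Complex.I) *
      ∑ k ∈ S, Complex.exp (((k : ℂ) - M) * t * Complex.I) * φ k) = φ j := by
  have e : ∀ t : ℝ, Complex.exp (-((j : ℂ) - M) * t * Complex.I) *
      ∑ k ∈ S, Complex.exp (((k : ℂ) - M) * t * Complex.I) * φ k =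
      ∑ k ∈ S, φ k * Complex.exp ((((k - j : ℤ)) : ℂ) * t * Complex.I) := by
    intro t
    rw [Finset.mul_sum]
    refine Finset.sum_congr rfl fun k _ => ?_
    rw [← mul_assoc, ← Complex.exp_add, mul_comm]
    congr 2
    push_cast
    ring
  simp only [e]
  have hc : ∀ k ∈ S, Continuous
      (fun t : ℝ => φ k * Complex.exp ((((k - j : ℤ)) : ℂ) * t * Complex.I)) :=
    fun k _ => continuous_const.mul (exp_cont _)
  rw [avc_sum _ (fun k (t : ℝ) => φ k * Complex.exp ((((k - j : ℤ)) : ℂ) * t * Complex.I)) hc]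
  simp only [avc_mul_left, avc_exp]
  rw [Finset.sum_eq_single j]
  · simp
  · intro k _ hk
    rw [if_neg (sub_ne_zero.2 hk), mul_zero]
  · intro h
    exact absurd hj h

end Pool.Agent.W2helper3.BQ
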