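import Pool.Agent.W2helper3.BQ.Stm

set_option autoImplicit false

open MeasureTheory Set Filter Topology
open scoped SchwartzMap ENNReal ContDiff BigOperators

namespace Pool.Agent.W2helper3.BQ

/-! ### averages -/

lemma av_add {f g : ℝ → ℝ} (hf : Continuous f) (hg : Continuous g) :
    av (fun t => f t + g t) = av f + av g := by
  unfold av
  rw [intervalIntegral.integral_add (hf.intervalIntegrable _ _) (hg.intervalIntegrable _ _)]
  ring

lemma av_sub {f g : ℝ → ℝ} (hf : Continuous f) (hg : Continuous g) :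
    av (fun t => f t - g t) = av f - av g := by
  unfold av
  rw [intervalIntegral.integral_sub (hf.intervalIntegrable _ _) (hg.intervalIntegrable _ _)]
  ring

lemma av_const (c : ℝ) : av (fun _ => c) = c := by
  unfold av
  rw [intervalIntegral.integral_const]
  simp only [sub_zero, smul_eq_mul]
  field_simp

lemma av_mul_left (c : ℝ) (f : ℝ → ℝ) : av (fun t => c * f t) = c * av f := by
  unfold av
  rw [intervalIntegral.integral_const_mul]
  ring

lemma av_mono {f g : ℝ → ℝ} (hf : Continuous f) (hg : Continuous g) (h : ∀ t, f t ≤ g t) :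
    av f ≤ av g := by
  unfold av
  refine mul_le_mul_of_nonneg_left ?_ (by positivity)
  exact intervalIntegral.integral_mono (by positivity) (hf.intervalIntegrable _ _)
    (hg.intervalIntegrable _ _) h

lemma av_nonneg {f : ℝ → ℝ} (h : ∀ t, 0 ≤ f t) : 0 ≤ av f := by
  unfold av
  refine mul_nonneg (by positivity) ?_
  exact intervalIntegral.integral_nonneg (by positivity) (fun t _ => h t)

lemma avc_const (c : ℂ) : avc (fun _ => c) = c := by
  unfold avc
  rw [intervalIntegral.integral_const]
  have h : (Real.pi : ℂ) ≠ 0 := Complex.ofReal_ne_zero.2 Real.pi_ne_zero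
  simp only [sub_zero, Complex.real_smul]
  push_cast
  field_simp

lemma avc_add {f g : ℝ → ℂ} (hf : Continuous f) (hg : Continuous g) :
    avc (fun t => f t + g t) = avc f + avc g := by
  unfold avc
  rw [intervalIntegral.integral_add (hf.intervalIntegrable _ _) (hg.intervalIntegrable _ _)]
  ring

lemma avc_sub {f g : ℝ → ℂ} (hf : Continuous f) (hg : Continuous g) :
    avc (fun t => f t - g t) = avc f - avc g := by
  unfold avc
  rw [intervalIntegral.integral_sub (hf.intervalIntegrable _ _) (hg.intervalIntegrable _ _)]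
  ring

lemma avc_mul_left (c : ℂ) (f : ℝ → ℂ) : avc (fun t => c * f t) = c * avc f := by
  unfold avc
  rw [intervalIntegral.integral_const_mul]
  ring

lemma avc_sum {ι : Type*} (s : Finset ι) (f : ι → ℝ → ℂ) (hf : ∀ i ∈ s, Continuous (f i)) :
    avc (fun t => ∑ i ∈ s, f i t) = ∑ i ∈ s, avc (f i) := by
  unfold avc
  rw [intervalIntegral.integral_finsetSum (fun i hi => (hf i hi).intervalIntegrable _ _),
    Finset.mul_sum]

lemma av_re (f : ℝ → ℂ) (hf : Continuous f) : av (fun t => (f t).re) = (avc f).re := by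
  unfold av avc
  rw [Complex.re_ofReal_mul]
  congr 1
  have h := Complex.reCLM.intervalIntegral_comp_comm (hf.intervalIntegrable (μ := volume) 0 (2 * Real.pi))
  exact h

lemma norm_avc_le (f : ℝ → ℂ) : ‖avc f‖ ≤ av (fun t => ‖f t‖) := by
  unfold av avc
  rw [norm_mul, Complex.norm_real, Real.norm_of_nonneg (by positivity)]
  refine mul_le_mul_of_nonneg_left ?_ (by positivity)
  exact intervalIntegral.norm_integral_le_integral_norm (by positivity)

lemma av_cont {g : ℝ → ℝ → ℝ} (hg : Continuous (Function.uncurry g)) :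
    Continuous (fun u => av (g u)) := by
  unfold av
  exact continuous_const.mul
    (intervalIntegral.continuous_parametric_intervalIntegral_of_continuous' hg _ _)

lemma avc_cont {g : ℝ → ℝ → ℂ} (hg : Continuous (Function.uncurry g)) :
    Continuous (fun u => avc (g u)) := by
  unfold avc
  exact continuous_const.mul
    (intervalIntegral.continuous_parametric_intervalIntegral_of_continuous' hg _ _)

/-! ### the Bregman divergence -/

lemma br_cont {α : Type*} [TopologicalSpace α] {p : ℝ} (hp : 2 ≤ p) {a b : α → ℂ}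
    (ha : Continuous a) (hb : Continuous b) : Continuous (fun t => br p (a t) (b t)) := by
  unfold br
  refine Continuous.sub (Continuous.sub ?_ ?_) (Continuous.mul (Continuous.mul continuous_const ?_) ?_)
  · exact ha.norm.rpow_const (fun _ => Or.inr (by linarith))
  · exact hb.norm.rpow_const (fun _ => Or.inr (by linarith))
  · exact hb.norm.rpow_const (fun _ => Or.inr (by linarith))
  · exact Complex.continuous_re.comp ((Complex.continuous_conj.comp hb).mul (ha.sub hb))

lemma br_zero {p : ℝ} (hp : 0 < p) : br p 0 0 = 0 := by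
  unfold br
  simp [Real.zero_rpow hp.ne']

lemma av_br {p : ℝ} (hp : 2 ≤ p) {f : ℝ → ℂ} (hf : Continuous f) (b : ℂ) :
    av (fun t => br p (f t) b) = av (fun t => ‖f t‖ ^ p) - ‖b‖ ^ p -
      p * (‖b‖ ^ (p - 2) * ((starRingEnd ℂ) b * (avc f - b)).re) := by
  have h1 : Continuous (fun t => ‖f t‖ ^ p) := hf.norm.rpow_const (fun _ => Or.inr (by linarith))
  have h2 : Continuous (fun t => (starRingEnd ℂ) b * (f t - b)) :=
    continuous_const.mul (hf.sub continuous_const)
  have h3 : Continuous (fun t => p * ‖b‖ ^ (p - 2) * ((starRingEnd ℂ) b * (f t - b)).re) :=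
    continuous_const.mul (Complex.continuous_re.comp h2)
  have h4 : Continuous (fun t => ‖f t‖ ^ p - ‖b‖ ^ p) := h1.sub continuous_const
  unfold br
  rw [av_sub h4 h3, av_sub h1 continuous_const, av_const, av_mul_left,
    av_re _ h2, avc_mul_left, avc_sub hf continuous_const, avc_const]
  ring

/-- the derivative of `‖x‖ ^ p` integrates to zero -/
lemma int_deriv_zero {p : ℝ} (hp : 2 ≤ p) {x : ℝ → ℂ} (hx : ContDiff ℝ 1 x)
    (hc : HasCompactSupport x) :
    ∫ u, ‖x u‖ ^ (p - 2) * ((starRingEnd ℂ) (x u) * deriv x u).re = 0 := by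
  have hd : ∀ u, HasDerivAt (fun u => ‖x u‖ ^ p)
      (p * (‖x u‖ ^ (p - 2) * ((starRingEnd ℂ) (x u) * deriv x u).re)) u := by
    intro u
    have h1 : HasDerivAt x (deriv x u) u := (hx.differentiable (by norm_num) u).hasDerivAt
    have h2 := (hasFDerivAt_norm_rpow (x u) (p := p) (by linarith)).comp_hasDerivAt u h1
    refine h2.congr_deriv ?_
    simp only [ContinuousLinearMap.smul_apply, innerSL_apply_apply, smul_eq_mul]
    rw [Complex.inner, mul_assoc]
    congr 2
    rw [mul_comm]
  have hdc : Continuous (fun u => ‖x u‖ ^ (p - 2) * ((starRingEnd ℂ) (x u) * deriv x u).re) := by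
    refine Continuous.mul ?_ ?_
    · exact hx.continuous.norm.rpow_const (fun _ => Or.inr (by linarith))
    · exact Complex.continuous_re.comp ((Complex.continuous_conj.comp hx.continuous).mul
        (hx.continuous_deriv (by norm_num)))
  have hdcs : HasCompactSupport
      (fun u => ‖x u‖ ^ (p - 2) * ((starRingEnd ℂ) (x u) * deriv x u).re) := by
    refine hc.mono' ?_
    intro u hu
    apply subset_tsupport
    rw [Function.mem_support] at hu ⊢
    intro h0
    apply hu
    rw [h0]
    simp
  have hi := hdc.integrable_of_hasCompactSupport hdcs (μ := volume)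
  have hpc : Continuous (fun u => ‖x u‖ ^ p) :=
    hx.continuous.norm.rpow_const (fun _ => Or.inr (by linarith))
  have hpcs : HasCompactSupport (fun u => ‖x u‖ ^ p) := by
    refine hc.mono' ?_
    intro u hu
    apply subset_tsupport
    rw [Function.mem_support] at hu ⊢
    intro h0
    apply hu
    rw [h0, norm_zero, Real.zero_rpow (by linarith)]
  have h3 := integral_eq_zero_of_hasDerivAt_of_integrable hd (hi.const_mul p)
    (hpc.integrable_of_hasCompactSupport hpcs)
  rw [integral_const_mul] at h3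
  rcases mul_eq_zero.1 h3 with h | h
  · exfalso
    linarith
  · exact h

theorem p_LC (hBR : P_BR) (hBRA : P_BRA) (hGR : P_GR) (hPT : P_PT) (hJE : P_JE) (hLC1 : P_LC1) :
    P_LC := by
  intro C hC
  obtain ⟨C₂, p₀, hC₂, hp₀, H⟩ := hLC1 hPT hJE C hC
  refine ⟨max p₀ (C + C₂), le_max_of_le_left hp₀, fun p hp F Y x R hF hY hx hsupp hav hW hfo => ?_⟩
  have hpp₀ : p₀ ≤ p := (le_max_left _ _).trans hp
  have hpC : C + C₂ ≤ p := (le_max_right _ _).trans hp
  have hp4 : 4 ≤ p := hp₀.trans hpp₀
  have hp0 : 0 < p := by linarith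
  have hp2 : 2 ≤ p := by linarith
  have hxc : Continuous x := hx.continuous
  -- continuity in the angle
  have hFt : ∀ u, Continuous (F u) := fun u => hF.comp (Continuous.prodMk_right u)
  have hYt : ∀ u, Continuous (Y u) := fun u => hY.comp (Continuous.prodMk_right u)
  have cs : ∀ f : ℝ → ℝ, (∀ u, R ≤ |u| → f u = 0) → HasCompactSupport f := by
    intro f hf
    refine HasCompactSupport.intro (isCompact_Icc (a := -R) (b := R)) fun u hu => ?_
    refine hf u ?_
    by_contra h
    rw [not_le, abs_lt] at h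
    exact hu ⟨h.1.le, h.2.le⟩
  have csx : HasCompactSupport x := by
    refine HasCompactSupport.intro (isCompact_Icc (a := -R) (b := R)) fun u hu => ?_
    refine (hsupp u ?_).1
    by_contra h
    rw [not_le, abs_lt] at h
    exact hu ⟨h.1.le, h.2.le⟩
  -- the functions
  obtain ⟨A, hA⟩ : ∃ A : ℝ → ℝ, A = fun u => av fun t => ‖F u t - x u‖ := ⟨_, rfl⟩
  obtain ⟨Db, hDb⟩ : ∃ Db : ℝ → ℝ, Db = fun u => av fun t => br p (F u t) (x u) := ⟨_, rfl⟩
  have hAc : Continuous A := by
    rw [hA]
    refine av_cont ?_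
    exact (hF.sub (hxc.comp continuous_fst)).norm
  have hDbc : Continuous Db := by
    rw [hDb]
    refine av_cont ?_
    exact br_cont hp2 hF (hxc.comp continuous_fst)
  have hXc : Continuous (fun u => ‖x u‖) := hxc.norm
  have hA0 : ∀ u, 0 ≤ A u := fun u => by
    rw [hA]; exact av_nonneg fun t => norm_nonneg _
  have hbr0 : ∀ a b : ℂ, 0 ≤ br p a b := fun a b => le_trans (by positivity) (hBR p hp4 a b).1
  have hDb0 : ∀ u, 0 ≤ Db u := fun u => by
    rw [hDb]; exact av_nonneg fun t => hbr0 _ _
  have hAs : HasCompactSupport A := by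
    refine cs A fun u hu => ?_
    rw [hA]
    simp only [(hsupp u hu).1, ((hsupp u hu).2 _).1, sub_zero, norm_zero]
    exact av_const 0
  have hDbs : HasCompactSupport Db := by
    refine cs Db fun u hu => ?_
    rw [hDb]
    simp only [(hsupp u hu).1, ((hsupp u hu).2 _).1, br_zero hp0]
    exact av_const 0
  have hXs : HasCompactSupport (fun u => ‖x u‖) := by
    refine cs _ fun u hu => ?_
    rw [(hsupp u hu).1, norm_zero]
  have h1 : ∀ u, p / 2 * ‖x u‖ ^ (p - 2) * A u ^ 2 ≤ Db u := fun u => by
    rw [hA, hDb]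
    exact (hBRA hBR p hp4 (F u) (x u) (hFt u)).1
  have h2 : ∀ u, 8 * ‖x u‖ ≤ A u → (1 / 4) ^ p * A u ^ p ≤ Db u := fun u => by
    rw [hA, hDb]
    exact (hBRA hBR p hp4 (F u) (x u) (hFt u)).2
  have h3 : ∀ u v, ‖x (u + v)‖ ^ p ≤
      Real.exp (|v| / 8) * (‖x u‖ ^ p + 4 / p * |∫ t in u..(u + v), Db t|) := by
    refine hGR p hp4 x Db hx hDbc fun u => ?_
    refine le_trans ?_ (h1 u)
    have h4 : p * ‖deriv x u‖ ≤ A u := by
      have e : ((p : ℝ) : ℂ) * deriv x u = -(avc (fun t => F u t - x u)) := by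
        rw [avc_sub (hFt u) continuous_const, avc_const]
        change _ = -(avc (F u) - x u)
        rw [hav u]
        ring
      have e2 : p * ‖deriv x u‖ = ‖((p : ℝ) : ℂ) * deriv x u‖ := by
        rw [norm_mul, Complex.norm_real, Real.norm_of_nonneg hp0.le]
      rw [e2, e, norm_neg, hA]
      exact norm_avc_le _
    have h5 : (p * ‖deriv x u‖) ^ 2 ≤ A u ^ 2 :=
      pow_le_pow_left₀ (by positivity) h4 2
    exact mul_le_mul_of_nonneg_left h5 (by positivity)
  obtain ⟨hint, hle⟩ := H p hpp₀ A Db (fun u => ‖x u‖) hAc hDbc hXc hAs hDbs hXs hA0 hDb0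
    (fun u => norm_nonneg _) h1 h2 h3
  -- integrability
  have hxp : Continuous (fun u => ‖x u‖ ^ p) := hxc.norm.rpow_const (fun _ => Or.inr hp0.le)
  have hxps : HasCompactSupport (fun u => ‖x u‖ ^ p) := cs _ fun u hu => by
    rw [(hsupp u hu).1, norm_zero, Real.zero_rpow hp0.ne']
  have Ix : Integrable (fun u => ‖x u‖ ^ p) := hxp.integrable_of_hasCompactSupport hxps
  have hGp : ∀ G : ℝ → ℝ → ℂ, Continuous (Function.uncurry G) → (∀ u, R ≤ |u| → ∀ t, G u t = 0) →
      Integrable (fun u => av fun t => ‖G u t‖ ^ p) ∧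
      Integrable (fun u => ‖x u‖ ^ (p - 2) * ((starRingEnd ℂ) (x u) * (avc (G u) - x u)).re) ∧
      Integrable (fun u => av fun t => br p (G u t) (x u)) := by
    intro G hG hG0
    refine ⟨?_, ?_, ?_⟩
    · refine Continuous.integrable_of_hasCompactSupport (av_cont ?_) (cs _ fun u hu => ?_)
      · exact hG.norm.rpow_const (fun _ => Or.inr hp0.le)
      · simp only [hG0 u hu, norm_zero, Real.zero_rpow hp0.ne']
        exact av_const 0
    · refine Continuous.integrable_of_hasCompactSupport (Continuous.mul ?_ ?_) (cs _ fun u hu => ?_)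
      · exact hxc.norm.rpow_const (fun _ => Or.inr (by linarith))
      · exact Complex.continuous_re.comp ((Complex.continuous_conj.comp hxc).mul
          ((avc_cont hG).sub hxc))
      · rw [(hsupp u hu).1]
        simp
    · refine Continuous.integrable_of_hasCompactSupport (av_cont ?_) (cs _ fun u hu => ?_)
      · exact br_cont hp2 hG (hxc.comp continuous_fst)
      · simp only [hG0 u hu, (hsupp u hu).1, br_zero hp0]
        exact av_const 0
  have key : ∀ G : ℝ → ℝ → ℂ, Continuous (Function.uncurry G) → (∀ u, R ≤ |u| → ∀ t, G u t = 0) →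
      ∫ u, (av fun t => ‖G u t‖ ^ p) = (∫ u, ‖x u‖ ^ p) +
        p * (∫ u, ‖x u‖ ^ (p - 2) * ((starRingEnd ℂ) (x u) * (avc (G u) - x u)).re) +
        ∫ u, av fun t => br p (G u t) (x u) := by
    intro G hG hG0
    obtain ⟨i1, i2, i3⟩ := hGp G hG hG0
    have i4 : Integrable (fun u => ‖x u‖ ^ p + p * (‖x u‖ ^ (p - 2) *
        ((starRingEnd ℂ) (x u) * (avc (G u) - x u)).re)) := Ix.add (i2.const_mul p)
    rw [← integral_const_mul, ← integral_add Ix (i2.const_mul p), ← integral_add i4 i3]
    refine integral_congr_ae (Eventually.of_forall fun u => ?_)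
    have hGt : Continuous (G u) := hG.comp (Continuous.prodMk_right u)
    show (av fun t => ‖G u t‖ ^ p) = ‖x u‖ ^ p + p * (‖x u‖ ^ (p - 2) *
      ((starRingEnd ℂ) (x u) * (avc (G u) - x u)).re) + av fun t => br p (G u t) (x u)
    rw [av_br hp2 hGt]
    ring
  have kF := key F hF (fun u hu t => ((hsupp u hu).2 t).1)
  have kY := key Y hY (fun u hu t => ((hsupp u hu).2 t).2)
  have zF : ∫ u, ‖x u‖ ^ (p - 2) * ((starRingEnd ℂ) (x u) * (avc (F u) - x u)).re = 0 := by
    have e : ∀ u, ‖x u‖ ^ (p - 2) * ((starRingEnd ℂ) (x u) * (avc (F u) - x u)).re =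
        (-p) * (‖x u‖ ^ (p - 2) * ((starRingEnd ℂ) (x u) * deriv x u).re) := by
      intro u
      have e1 : (starRingEnd ℂ) (x u) * (avc (F u) - x u) =
          ((-p : ℝ) : ℂ) * ((starRingEnd ℂ) (x u) * deriv x u) := by
        rw [hav u]
        push_cast
        ring
      rw [e1, Complex.re_ofReal_mul]
      ring
    simp only [e]
    rw [integral_const_mul, int_deriv_zero hp2 hx csx, mul_zero]
  rw [zF, mul_zero, add_zero] at kF
  -- the bound of the divergence of Y
  have bY : ∫ u, (av fun t => br p (Y u t) (x u)) ≤ C₂ / p * ∫ u, Db u := by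
    refine le_trans (integral_mono (hGp Y hY (fun u hu t => ((hsupp u hu).2 t).2)).2.2 hint
      fun u => ?_) hle
    show (av fun t => br p (Y u t) (x u)) ≤
      p ^ 2 / 2 * WW C p A u ^ 2 * (‖x u‖ + WW C p A u) ^ (p - 2)
    have h6 : (av fun t => br p (Y u t) (x u)) ≤
        av fun _ => p ^ 2 / 2 * WW C p A u ^ 2 * (‖x u‖ + WW C p A u) ^ (p - 2) := by
      refine av_mono (br_cont hp2 (hYt u) continuous_const) continuous_const fun t => ?_
      have h7 : ‖Y u t - x u‖ ≤ WW C p A u := by
        have := hW u t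
        rw [← hA] at this
        exact this
      refine (hBR p hp4 (Y u t) (x u)).2.1.trans ?_
      gcongr
    rwa [av_const] at h6
  have hDbe : ∫ u, Db u = (∫ u, av fun t => ‖F u t‖ ^ p) - ∫ u, ‖x u‖ ^ p := by
    rw [kF, hDb]
    ring
  have hD0 : 0 ≤ ∫ u, Db u := integral_nonneg hDb0
  rw [← hDbe] at hfo
  rw [kY]
  have h8 : (C / p + C₂ / p) * ∫ u, Db u ≤ ∫ u, Db u := by
    have h9 : C / p + C₂ / p ≤ 1 := by
      rw [← add_div, div_le_one hp0]
      exact hpC
    calc (C / p + C₂ / p) * ∫ u, Db u ≤ 1 * ∫ u, Db u := mul_le_mul_of_nonneg_right h9 hD0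
      _ = _ := one_mul _
  have h10 : (∫ u, av fun t => ‖F u t‖ ^ p) = (∫ u, Db u) + ∫ u, ‖x u‖ ^ p := by
    rw [hDbe]
    ring
  rw [h10]
  nlinarith [hfo, bY, h8]

end Pool.Agent.W2helper3.BQ
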