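import Pool.Agent.W2helper3.BQ.Stm2

/-!
# Project BQ3 (helper3, MP_dd244f_an): `T^n` on functions of angular degree at most `p ^ c`

Goal: for all `n ≥ 1` there is `c > 0` such that for all `p ≥ 2`, all `N` and all finite sets `S` of
frequencies with `(1 + #(S \ [-N, N])) log (N + 2) ≤ c log p` the exact inequality of the question
holds for all Schwartz functions with angular frequencies in `S`.  (So: all functions of angular degree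
`N` if `p ≥ (N + 2) ^ (1 / c)`.)
-/

set_option autoImplicit false

open MeasureTheory Set Filter Topology
open scoped SchwartzMap ENNReal ContDiff BigOperators

namespace Pool.Agent.W2helper3.BQ

open Pool.Agent.Y282.RB (Tn Cn)

/-- angular average of the `r`-th power -/
noncomputable def hr (r : ℝ) (H : ℝ → ℝ → ℂ) (u : ℝ) : ℝ := av fun s => ‖H u s‖ ^ r

/-! ### the convexity part -/

/-- PT3: pointwise lemma.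
Proof. (P3) `(1/8)^p a^p ≤ B/p`: if `4 X₀ ≤ a` it is `≤ (1/4)^p B`; else
`(1/8)^p a^p ≤ (1/8)^p (4 X₀)^(p-2) a^2 ≤ (1/2)^p X₀^(p-2) a^2 / 16`.
(P1) `X'^(p-2) a^2 ≤ 2 lam B/p + 64 G + 64 B/p`: if `a > 8 X'` it is `≤ (a/8)^(p-2) a^2 = 64 (1/8)^p a^p`;
if `a ≤ 8 X'`, `X' ≤ X₀`: `≤ X₀^(p-2) a^2 ≤ 2B/p`; if `a ≤ 8 X'`, `X₀ < X'`:
`X'^(p-2) a^2 = X'^p (a/X')^2 ≤ (lam X₀^p + G) (a/X')^2 ≤ lam X₀^(p-2) a^2 + 64 G`.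
(P2) if `a ≤ 8 X'`: `X'^(p-q) a^q ≤ 8^(q-2) X'^(p-2) a^2` and (P1); if `a > 8 X'`:
`X'^(p-q) a^q ≤ 8^q (1/8)^p a^p`. -/
def P_PT3 : Prop := ∀ p q : ℝ, 4 ≤ p → 2 ≤ q → q ≤ p → ∀ a X₀ X' G B lam : ℝ,
  0 ≤ a → 0 ≤ X₀ → 0 ≤ X' → 0 ≤ G → 0 ≤ B → 1 ≤ lam →
  p / 2 * X₀ ^ (p - 2) * a ^ 2 ≤ B → (4 * X₀ ≤ a → (1 / 2) ^ p * a ^ p ≤ B) →
  X' ^ p ≤ lam * X₀ ^ p + G →
  X' ^ (p - 2) * a ^ 2 + X' ^ (p - q) * a ^ q + (1 / 8) ^ p * a ^ p ≤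
    100 * 8 ^ q * (lam / p * B + G)

/-- BB3: pointwise lemma.
Proof. Case I, `p w ≤ q X`: `(X + w)^(p-2) ≤ X^(p-2) (1 + q/p)^(p-2) ≤ e^q X^(p-2)` and
`(p w)^2 / 2 ≤ C₁^2 W^2 / 2`.  Case II, `q X < p w`: with `y = b^(1/q)`, `X < C y`, `0 < y`.
IIa, `y ≤ 16 X` (so `0 < X`): `w ≤ C q y / p ≤ 16 C q X / p`, `(X+w)^(p-2) ≤ e^(16 C q) X^(p-2)`,
`y^2 = y^q y^(2-q) ≤ y^q (X/C)^(2-q)`, so the lhs is `≤ (C^2 q^2/2) e^(16 C q) C^(q-2) b X^(p-q)` and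
`C^q ≤ e^(C q)`, `q^2 ≤ 2 e^q`.  IIb, `16 X < y`: `X + w ≤ y/16 + C q y / p ≤ y/8`, lhs
`≤ (C^2 q^2/2) y^2 (y/8)^(p-2) = 32 C^2 q^2 (1/8)^p y^p`, `y^p = b^(p/q)`, `C q ≤ e^(C q)`. -/
def P_BB3 : Prop := ∀ C C₁ p q : ℝ, 1 ≤ C → 1 ≤ C₁ → 2 ≤ q → 32 * C * q ≤ p →
  ∀ X w W b : ℝ, 0 ≤ X → 0 ≤ w → 0 ≤ W → 0 ≤ b →
  p * w ≤ C₁ * W → p * w ≤ C * q * b ^ (1 / q) →
  p ^ 2 / 2 * w ^ 2 * (X + w) ^ (p - 2) ≤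
    32 * C₁ ^ 2 * Real.exp (20 * C * q) *
      (X ^ (p - 2) * W ^ 2 + X ^ (p - q) * b + (1 / 8) ^ p * b ^ (p / q))

/-- LC3: the integrated bound (compare `Pool/Agent/W2helper85/BQ/LC2.lean`).
Proof. `H u s = F u s - x u`, `Db u = av_s br p (F u s) (x u)`.  For all `u t`, by `P_BR` (upper bound)
and `P_BB3` with `X = ‖x u‖`, `w = ‖Y u t - x u‖`, `W = (∫ hr 2 H (u+v) dμ)^(1/2)`,
`b = ∫ hr q H (u+v) dμ`; Jensen (twice) `b^(p/q) ≤ ∫ hr p H (u+v) dμ`.  So `br p (Y u t) (x u)` is at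
most `32 C₁^2 e^(20 C q) ∫ av_s [X^(p-2) a^2 + X^(p-q) a^q + (1/8)^p a^p] dμ(v)`, `a = ‖H (u+v) s‖`, and
`P_PT3` with `X₀ = ‖x (u+v)‖`, `X' = ‖x u‖`, `B = br p (F (u+v) s) (x (u+v))`, `lam = e^(|v|/8)`,
`G = e^(|v|/8) (4/p) |∫_(u+v)^u Db|` (the growth hypothesis at `u+v`, `-v`).  Integrate in `u`:
`∫ du |∫_(u+v)^u Db| = |v| ∫ Db`, total `32 C₁^2 e^(20 C q) 100 8^q (4 E / p) ∫ Db`. -/
def P_LC3 : Prop := P_BR → P_PT3 → P_BB3 → ∀ C C₁ E p q : ℝ, 1 ≤ C → 1 ≤ C₁ → 1 ≤ E → 2 ≤ q →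
  32 * C * q ≤ p → ∀ μ : Measure ℝ, IsProbabilityMeasure μ → Mom μ ≤ ENNReal.ofReal E →
  ∀ (F Y : ℝ → ℝ → ℂ) (x : ℝ → ℂ) (R : ℝ), Continuous (Function.uncurry F) →
  Continuous (Function.uncurry Y) → Continuous x →
  (∀ u, R ≤ |u| → x u = 0 ∧ ∀ t, F u t = 0 ∧ Y u t = 0) →
  (∀ u v, ‖x (u + v)‖ ^ p ≤ Real.exp (|v| / 8) * (‖x u‖ ^ p + 4 / p *
    |∫ t in u..(u + v), av fun s => br p (F t s) (x t)|)) →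
  (∀ u t, p * ‖Y u t - x u‖ ≤
    C₁ * (∫ v, hr 2 (fun u s => F u s - x u) (u + v) ∂μ) ^ (1 / 2 : ℝ)) →
  (∀ u t, p * ‖Y u t - x u‖ ≤
    C * q * (∫ v, hr q (fun u s => F u s - x u) (u + v) ∂μ) ^ (1 / q)) →
  ∫ u, (av fun t => br p (Y u t) (x u)) ≤
    12800 * E * C₁ ^ 2 * Real.exp (23 * C * q) / p * ∫ u, av fun s => br p (F u s) (x u)

/-- LCX3: the main estimate (helper3) -/
def P_LCX3 : Prop := ∀ C C₁ E p q : ℝ, 1 ≤ C → 1 ≤ C₁ → 1 ≤ E → 2 ≤ q →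
  C + 12800 * E * C₁ ^ 2 * Real.exp (32 * C * q) ≤ p →
  ∀ μ : Measure ℝ, IsProbabilityMeasure μ → Mom μ ≤ ENNReal.ofReal E →
  ∀ (F Y : ℝ → ℝ → ℂ) (x : ℝ → ℂ) (R : ℝ), Continuous (Function.uncurry F) →
  Continuous (Function.uncurry Y) → ContDiff ℝ 1 x →
  (∀ u, R ≤ |u| → x u = 0 ∧ ∀ t, F u t = 0 ∧ Y u t = 0) →
  (∀ u, avc (F u) = x u - p * deriv x u) →
  (∀ u t, p * ‖Y u t - x u‖ ≤
    C₁ * (∫ v, hr 2 (fun u s => F u s - x u) (u + v) ∂μ) ^ (1 / 2 : ℝ)) →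
  (∀ u t, p * ‖Y u t - x u‖ ≤
    C * q * (∫ v, hr q (fun u s => F u s - x u) (u + v) ∂μ) ^ (1 / q)) →
  (p * ∫ u, ‖x u‖ ^ (p - 2) * ((starRingEnd ℂ) (x u) * (avc (Y u) - x u)).re ≤
    C / p * ((∫ u, av fun t => ‖F u t‖ ^ p) - ∫ u, ‖x u‖ ^ p)) →
  ∫ u, (av fun t => ‖Y u t‖ ^ p) ≤ ∫ u, av fun t => ‖F u t‖ ^ p

/-! ### the sup norm of a trigonometric polynomial -/

/-- NIK: crude Nikolskii inequality.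
Proof. `M = 0` wlog (`‖exp (-M s I)‖ = 1`).  Let `m₀ = max ‖P‖ = ‖P t₀‖` (continuous, periodic); the
coefficients are `≤ m₀` (they are averages), so `‖P'‖ ≤ N (2N+1) m₀` and `‖P t‖ ≥ m₀/2` for
`|t - t₀| ≤ δ = 1/(2 (N+1) (2N+1))`, so `av ‖P‖^q ≥ (δ/π) (m₀/2)^q`, i.e.
`m₀ ≤ 2 (π/δ)^(1/q) ‖P‖_q ≤ 2 (4 π)^(1/2) e^2 ‖P‖_q ≤ 100 ‖P‖_q`.
(Or: `P^j` has degree `j N`, Cauchy-Schwarz and orthogonality give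
`‖P t‖^(2j) ≤ (2 j N + 1) av ‖P‖^(2j)`.) -/
def P_NIK : Prop := ∀ (N : ℕ) (q : ℝ), 2 ≤ q → Real.log (N + 1) ≤ q → ∀ (M : ℤ) (a : ℤ → ℂ) (t : ℝ),
  ‖∑ k ∈ Finset.Icc (-(N : ℤ)) N, Complex.exp (((k : ℂ) - M) * t * Complex.I) * a k‖ ≤
    100 * (av fun s => ‖∑ k ∈ Finset.Icc (-(N : ℤ)) N,
      Complex.exp (((k : ℂ) - M) * s * Complex.I) * a k‖ ^ q) ^ (1 / q)

/-! ### the kernel -/

/-- the modes of the kernel `(1 - conj z)^(n-1) / (1 - z)^(n+1)`, `z = e^(-v/2 + i τ)` -/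
noncomputable def kap (n l : ℕ) (v : ℝ) : ℝ :=
  ∑ i ∈ Finset.range n, (-1) ^ i * ((n - 1).choose i : ℝ) * ((l + n + i).choose n : ℝ) *
    Real.exp (-(((l : ℝ) / 2 + i) * v))

/-- the majorant of the kernel -/
noncomputable def mk (v τ : ℝ) : ℝ :=
  Real.exp (-(v / 2)) / ‖1 - Complex.exp (-(v / 2 : ℝ) + τ * Complex.I)‖ ^ 2

/-- KAP: crude bound of the modes. Proof. `choose (l+n+i) n ≤ (l+2n)^n ≤ (2n)^n (l+1)^n`. -/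
def P_KAP : Prop := ∀ n : ℕ, 1 ≤ n → ∃ C : ℝ, 1 ≤ C ∧ ∀ (l : ℕ) (v : ℝ), 0 ≤ v →
  |kap n l v| ≤ C * ((l : ℝ) + 1) ^ n * Real.exp (-((l : ℝ) / 2 * v))

/-- KB: the kernel.
Proof. `z = exp(-v/2 + τ I)`, `‖z‖ < 1`; the sum is
`∑_i (-1)^i C(n-1,i) (conj z)^i ∑_{m ≥ i+1} C(m+n,n) z^m` (`m = l+1+i`), and
`∑_m C(m+n,n) z^m = (1-z)^(-n-1)` (`tsum_choose_mul_geometric_of_norm_lt_one`), so it equals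
`(1 - conj z)^(n-1) (1-z)^(-n-1) - ∑_i (-1)^i C(n-1,i) (conj z)^i ∑_{m ≤ i} C(m+n,n) z^m`, of norm
`≤ ‖1-z‖^(-2) + C_n` with `‖1-z‖ ≤ 2`: this gives the bound for `v ≤ 2`.  For `v ≥ 2` use `P_KAP`:
`∑ C (l+2)^n e^(-(l+1) v/2) ≤ e^(-v/2) C ∑ (l+2)^n e^(-l)`. -/
def P_KB : Prop := P_KAP → ∀ n : ℕ, 1 ≤ n → ∃ C : ℝ, 1 ≤ C ∧ ∀ v τ : ℝ, 0 < v →
  ‖∑' l : ℕ, ((kap n (l + 1) v : ℝ) : ℂ) * Complex.exp (((l + 1 : ℕ) : ℂ) * τ * Complex.I)‖ ≤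
    C * mk v τ

/-- MASS: the mass of the majorant.
Proof. The average is the Poisson kernel: `av_s 1/‖1 - r e^(i(t-s))‖^2 = 1/(1-r^2)`, `r = e^(-v/2)`
(periodicity, and e.g. `∑ r^|m| e^(imτ)`); then `1/(1-e^(-v)) ≤ 1 + 1/v` and
`∫_ε^∞ e^(-v/2) (1 + 1/v) ≤ 4 + log (1/ε)`. -/
def P_MASS : Prop := ∀ ε t : ℝ, 0 < ε → ε ≤ 1 →
  IntegrableOn (fun v => av fun s => mk v (t - s)) (Ioi ε) ∧
  ∫ v in Ioi ε, (av fun s => mk v (t - s)) ≤ 4 + Real.log (1 / ε)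

/-- KC1: for fixed `v > 0`.
Proof. `∑_{l ≤ L} e^(ilt) kap_l(v) g_l = avc_s (𝒦(v, t-s) g(s))` with the function `𝒦` of `P_KB`
(interchange of the absolutely convergent sum, by `P_KAP`, with the integral; `g_l = 0` for `l > L`). -/
def P_KC1 : Prop := P_KAP → P_KB → ∀ n : ℕ, 1 ≤ n → ∃ C : ℝ, 1 ≤ C ∧ ∀ (v : ℝ) (L : ℕ) (g : ℝ → ℂ),
  0 < v → Continuous g →
  (∀ l : ℕ, L < l → avc (fun s => Complex.exp (-((l : ℂ) * s * Complex.I)) * g s) = 0) →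
  ∀ t : ℝ, ‖∑ l ∈ Finset.Icc 1 L, Complex.exp ((l : ℂ) * t * Complex.I) * (((kap n l v : ℝ) : ℂ) *
    avc (fun s => Complex.exp (-((l : ℂ) * s * Complex.I)) * g s))‖ ≤
    C * av fun s => mk v (t - s) * ‖g s‖

/-- KC: the operator bound, linear in `q`.
Proof. `ε = (L+1)^(-(n+1))`.  Part `v ≤ ε`: by `P_KAP` at most
`C (L+1)^(n+1) ∫_0^ε av ‖g v‖ dv ≤ C (L+1)^(n+1) ε^(1-1/q) (∫_0^ε av ‖g v‖^q)^(1/q)` and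
`(L+1)^((n+1)/q) ≤ e^(n+1)`, `e^(-v/4) ≥ e^(-1/4)`.  Part `v > ε`: by `P_KC1` at most
`C ∫_ε^∞ av_s (mk v (t-s) ‖g v s‖) dv ≤ C (∫∫ mk)^(1-1/q) (∫∫ mk ‖g‖^q)^(1/q)` (Hölder), with
`∫∫ mk ≤ 4 + (n+1) q` (`P_MASS`), `mk ≤ 16 ε^(-2) e^(-v/2)` for `v ≥ ε`
(`1 - e^(-v/2) ≥ 1 - e^(-ε/2) ≥ ε/4`) and `(16 ε^(-2))^(1/q) ≤ 4 e^(2(n+1))`. -/
def P_KC : Prop := P_KAP → P_KC1 → P_KB → P_MASS → ∀ n : ℕ, 1 ≤ n → ∃ C : ℝ, 1 ≤ C ∧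
  ∀ (q : ℝ) (L : ℕ), 2 ≤ q → Real.log (L + 1) ≤ q →
  ∀ (w : ℝ → ℝ) (g : ℝ → ℝ → ℂ) (R : ℝ), Continuous w → (∀ v, 0 < v → |w v| ≤ 1) →
  Continuous (Function.uncurry g) → (∀ v, R ≤ |v| → ∀ s, g v s = 0) →
  (∀ (v : ℝ) (l : ℕ), L < l →
    avc (fun s => Complex.exp (-((l : ℂ) * s * Complex.I)) * g v s) = 0) →
  ∀ t : ℝ, ‖∑ l ∈ Finset.Icc 1 L, Complex.exp ((l : ℂ) * t * Complex.I) *
    ∫ v in Ioi (0 : ℝ), ((w v * kap n l v : ℝ) : ℂ) *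
      avc (fun s => Complex.exp (-((l : ℂ) * s * Complex.I)) * g v s)‖ ≤
    C * q * (∫ v in Ioi (0 : ℝ), Real.exp (-(v / 4)) * av fun s => ‖g v s‖ ^ q) ^ (1 / q)

/-- KX: the integral operators of the modes (explicit partial fractions).
Proof. `PB = PA + ∑_{i<n} c_i PE_i`, `c_i = ∏_{j<n} (k-n+i-j) / ∏_{j≠i} (i-j)` (Lagrange; see
`Pool/Agent/W2helper97/BQ/PF.lean`), `ξ_i = pol (PE p n k i) ζ` satisfies `ξ_i' - al_i ξ_i = pol PA ζ`, so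
`ξ_i(u) = -∫_0^∞ e^(-al_i v) φ(u+v) dv` if `al_i > 0`, `ξ_i(u) = ∫_0^∞ e^(al_i v) φ(u-v) dv` if
`al_i < 0`.  `k = 2n+l`: `al_i = 1/p + l/2 + i`, `c_i = n (-1)^(n-1-i) C(n-1,i) C(l+n+i,n)`.
`k = -l`, `j = n-1-i`: `al_i = 1/p - l/2 - 1 - j`, `c_i = (-1)^n n (-1)^j C(n-1,j) C(l+n+j,n)`. -/
def P_KX : Prop := ∀ n : ℕ, 1 ≤ n → ∀ p : ℝ, 4 ≤ p → ∀ l : ℕ, 1 ≤ l → ∀ ζ : 𝓢(ℝ, ℂ),
  HasCompactSupport ζ → ∀ u : ℝ,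
  pol (PB p n (2 * n + l)) ζ u = pol (PA p n (2 * n + l)) ζ u +
    (-1) ^ n * n * ∫ v in Ioi (0 : ℝ), ((Real.exp (-(v / p)) * kap n l v : ℝ) : ℂ) *
      pol (PA p n (2 * n + l)) ζ (u + v) ∧
  pol (PB p n (-(l : ℤ))) ζ u = pol (PA p n (-(l : ℤ))) ζ u +
    (-1) ^ n * n * ∫ v in Ioi (0 : ℝ), ((Real.exp (-((1 - 1 / p) * v)) * kap n l v : ℝ) : ℂ) *
      pol (PA p n (-(l : ℤ))) ζ (u - v)

/-- RR: the modes `k > 2 n` and `k < 0` together.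
Proof. `k = 2n + l`: `P_KX` and `P_KC` with `L = N - 2n`, `w v = e^(-v/p)`, `g v s = H (u+v) s`
(`g_l(v) = pol (PA p n k) (ζ k) (u+v)`).  `k = -l`: `P_KC` with `L = N`, `w v = e^(-(1-1/p) v)`,
`g v s = exp (-2 n s I) H (u-v) (-s)`, at `-t` (`avc` is invariant under `s ↦ -s` for periodic
functions; `exp (-(l s I)) g v s = exp (-((l+2n) s I)) H (u-v) (-s)`). -/
def P_RR : Prop := P_KX → P_KAP → P_KC1 → P_KB → P_MASS → P_KC → ∀ n : ℕ, 1 ≤ n →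
  ∃ C : ℝ, 1 ≤ C ∧ ∀ (p q : ℝ) (N : ℕ), 4 ≤ p → 2 ≤ q → Real.log (N + 1) ≤ q →
  ∀ ζ : ℤ → 𝓢(ℝ, ℂ), (∀ k, HasCompactSupport (ζ k)) → ∀ (H : ℝ → ℝ → ℂ) (R : ℝ),
  Continuous (Function.uncurry H) → (∀ u, R ≤ |u| → ∀ s, H u s = 0) →
  (∀ u s, H u (s + 2 * Real.pi) = H u s) →
  (∀ (m : ℤ) (u : ℝ), (N : ℤ) < |m + 2 * n| →
    avc (fun s => Complex.exp (-((m : ℂ) * s * Complex.I)) * H u s) = 0) →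
  (∀ (k : ℤ) (u : ℝ), |k| ≤ N → (2 * (n : ℤ) < k ∨ k < 0) →
    avc (fun s => Complex.exp (-(((k - 2 * n : ℤ) : ℂ) * s * Complex.I)) * H u s) =
      pol (PA p n k) (ζ k) u) →
  ∀ u t : ℝ, ‖∑ k ∈ (Finset.Icc (-(N : ℤ)) N).filter (fun k => 2 * (n : ℤ) < k ∨ k < 0),
    Complex.exp (((k - 2 * n : ℤ) : ℂ) * t * Complex.I) *
      (pol (PB p n k) (ζ k) u - pol (PA p n k) (ζ k) u)‖ ≤
    C * q * (∫ v, Real.exp (-(|v| / 4)) * hr q H (u + v)) ^ (1 / q)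

/-! ### assembly (helper3) -/

/-- MO3: from LCX3, NIK, RR, KER, LAP, MIX, FO, ... -/
def P_MO3 : Prop := ∀ n : ℕ, 1 ≤ n → ∃ c : ℝ, 0 < c ∧ ∀ (p : ℝ) (N : ℕ) (S : Finset ℤ), 4 ≤ p →
  (1 + ((S \ Finset.Icc (-(N : ℤ)) N).card : ℝ)) * Real.log (N + 2) ≤ c * Real.log p →
  ∀ ζ : ℤ → 𝓢(ℝ, ℂ), (∀ k, HasCompactSupport (ζ k)) →
  ∫ u, (av fun t => ‖∑ k ∈ S,
      Complex.exp (((k : ℝ) - 2 * n) * t * Complex.I) * pol (PB p n k) (ζ k) u‖ ^ p) ≤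
    (Cn p n) ^ p * ∫ u, (av fun t => ‖∑ k ∈ S,
      Complex.exp (((k : ℝ) - 2 * n) * t * Complex.I) * pol (PA p n k) (ζ k) u‖ ^ p)

/-- the final statement -/
def P_FIN3 : Prop := ∀ n : ℕ, 1 ≤ n → ∃ c : ℝ, 0 < c ∧ ∀ (p : ℝ) (N : ℕ) (S : Finset ℤ), 2 ≤ p →
  (1 + ((S \ Finset.Icc (-(N : ℤ)) N).card : ℝ)) * Real.log (N + 2) ≤ c * Real.log p →
  ∀ g : ℤ → 𝓢(ℂ, ℂ), (∀ k ∈ S, ∀ z a : ℂ, ‖a‖ = 1 → g k (a * z) = a ^ k * g k z) →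
  eLpNorm (Tn n (∑ k ∈ S, g k : 𝓢(ℂ, ℂ))) (ENNReal.ofReal p) (volume : Measure ℂ) ≤
    ENNReal.ofReal (Cn p n) * eLpNorm (∑ k ∈ S, g k : 𝓢(ℂ, ℂ))
      (ENNReal.ofReal p) (volume : Measure ℂ)

end Pool.Agent.W2helper3.BQ
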