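import Pool.Agent.Y282.RB.A2

/-!
# Project BQ (helper3, MP_dd244f_an): powers of the Beurling transform on finitely many angular modes

Goal: for all `n ≥ 1`, `N` there is `p₀` such that for all `p ≥ p₀` and all Schwartz functions of
angular degree at most `N`, `‖T^n f‖_p ≤ (1 - 1/p)_n / (1/p)_n ‖f‖_p`.
Definitions and the statements of the pieces.
-/

set_option autoImplicit false

open MeasureTheory Set Filter Topology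
open scoped SchwartzMap ENNReal ContDiff BigOperators

namespace Pool.Agent.W2helper3.BQ

open Pool.Agent.Y282.RB (Tn Cn)
open Pool.Agent.Y282.RB.A2 (db dd)

/-- angular average -/
noncomputable def av (g : ℝ → ℝ) : ℝ := (1 / (2 * Real.pi)) * ∫ t in (0 : ℝ)..(2 * Real.pi), g t

/-- angular average of a complex-valued function -/
noncomputable def avc (g : ℝ → ℂ) : ℂ :=
  ((1 / (2 * Real.pi) : ℝ) : ℂ) * ∫ t in (0 : ℝ)..(2 * Real.pi), g t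

/-- the Bregman divergence of `‖·‖ ^ p` -/
noncomputable def br (p : ℝ) (a b : ℂ) : ℝ :=
  ‖a‖ ^ p - ‖b‖ ^ p - p * ‖b‖ ^ (p - 2) * ((starRingEnd ℂ) b * (a - b)).re

/-! ### elementary inequalities -/

/-- BR: bounds of the Bregman divergence.
Proof. `Re (conj b (a - b)) = (|a|^2 - |b|^2 - |a - b|^2) / 2`, so
`br = (|a|^p - |b|^p - (p/2) |b|^(p-2) (|a|^2 - |b|^2)) + (p/2) |b|^(p-2) |a-b|^2` and the bracket is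
`≥ 0` (tangent line of the convex function `t ↦ t^(p/2)`), and it is
`≤ (1/2) (p/2) (p/2-1) M^(p-4) (|a|^2-|b|^2)^2` with `M = |b|+|a-b|` (Taylor), where
`(|a|^2-|b|^2)^2 ≤ 4 M^2 |a-b|^2`.  The last statement: `|a| ≥ (3/4) |a-b|`, `|b| ≤ |a-b|/4`,
`(3/4)^p - (1/4)^p - p (1/4)^(p-1) ≥ (1/2)^p` for `p ≥ 4`. -/
def P_BR : Prop := ∀ p : ℝ, 4 ≤ p → ∀ a b : ℂ,
  p / 2 * ‖b‖ ^ (p - 2) * ‖a - b‖ ^ 2 ≤ br p a b ∧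
  br p a b ≤ p ^ 2 / 2 * ‖a - b‖ ^ 2 * (‖b‖ + ‖a - b‖) ^ (p - 2) ∧
  (4 * ‖b‖ ≤ ‖a - b‖ → (1 / 2) ^ p * ‖a - b‖ ^ p ≤ br p a b)

/-- BRA: the averaged bounds (from `P_BR`).
Proof. The first: Cauchy-Schwarz `(av g)^2 ≤ av g^2`.  The second: by `P_BR`
`br ≥ (1/2)^p (|f-b|^p - (4|b|)^p)` always, so `av br ≥ (1/2)^p (A^p - (A/2)^p) ≥ (1/4)^p A^p`
(Jensen `(av g)^p ≤ av g^p`; `1 - 2^(-p) ≥ 2^(-p)`). -/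
def P_BRA : Prop := P_BR → ∀ p : ℝ, 4 ≤ p → ∀ (f : ℝ → ℂ) (b : ℂ), Continuous f →
  p / 2 * ‖b‖ ^ (p - 2) * (av fun t => ‖f t - b‖) ^ 2 ≤ (av fun t => br p (f t) b) ∧
  (8 * ‖b‖ ≤ (av fun t => ‖f t - b‖) →
    (1 / 4) ^ p * (av fun t => ‖f t - b‖) ^ p ≤ (av fun t => br p (f t) b))

/-- PT: the pointwise lemma.
Proof. `C₁ = 128 C^2 e^(16 C)`, `p₀ = max 4 (16 C)`.  Case 1, `8 X₀ ≤ a`, `X' ≤ a/16`:
`X' + C a/p ≤ a/8`, lhs `≤ 32 C^2 8^(-p) a^p = 32 C^2 2^(-p) 4^(-p) a^p ≤ (32 C^2/p) B`.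
Case 2, `8 X₀ ≤ a`, `X' > a/16`: `X' + C a/p ≤ X' (1 + 16 C/p)`, `a^2 ≤ 256 X'^2`,
lhs `≤ 128 C^2 e^(16C) X'^p ≤ 128 C^2 e^(16 C) (lam X₀^p + G)` and
`X₀^p ≤ X₀^(p-2) a^2/64 ≤ B/(32 p)`.
Case 3, `a < 8 X₀ ≤ 8 X'`: lhs `≤ (C^2/2) e^(8C) a^2 X'^(p-2)` and
`X'^(p-2) ≤ (lam X₀^p + G)/X'^2 ≤ lam X₀^(p-2) + 64 G / a^2`.
Case 4, `a < 8 X₀`, `X' < X₀`: lhs `≤ (C^2/2) e^(8C) a^2 X₀^(p-2)`. -/
def P_PT : Prop := ∀ C : ℝ, 0 < C → ∃ C₁ p₀ : ℝ, 0 < C₁ ∧ 4 ≤ p₀ ∧ ∀ p : ℝ, p₀ ≤ p →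
  ∀ a X₀ X' G B lam : ℝ, 0 ≤ a → 0 ≤ X₀ → 0 ≤ X' → 0 ≤ G → 0 ≤ B → 1 ≤ lam →
  p / 2 * X₀ ^ (p - 2) * a ^ 2 ≤ B → (8 * X₀ ≤ a → (1 / 4) ^ p * a ^ p ≤ B) →
  X' ^ p ≤ lam * X₀ ^ p + G →
  p ^ 2 / 2 * (C * a / p) ^ 2 * (X' + C * a / p) ^ (p - 2) ≤ C₁ / p * lam * B + C₁ * G

/-! ### one-dimensional analysis (variable `u ∈ ℝ`) -/

/-- GR: growth.
Proof. `f = ‖x‖^p` has `|f'| ≤ p ‖x‖^(p-1) ‖x'‖ ≤ f/8 + 2 ‖x‖^(p-2) (p‖x'‖)^2 ≤ f/8 + (4/p) E`,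
then Gronwall (differentiate `e^(-v/8) f(u+v) - (4/p) ∫_u^(u+v) E`, `v ≥ 0`, and the mirror). -/
def P_GR : Prop := ∀ (p : ℝ), 4 ≤ p → ∀ (x : ℝ → ℂ) (E : ℝ → ℝ), ContDiff ℝ 1 x → Continuous E →
  (∀ u, p / 2 * ‖x u‖ ^ (p - 2) * (p * ‖deriv x u‖) ^ 2 ≤ E u) →
  ∀ u v : ℝ, ‖x (u + v)‖ ^ p ≤ Real.exp (|v| / 8) * (‖x u‖ ^ p + 4 / p * |∫ t in u..(u + v), E t|)

/-- the majorant of `‖Y - x‖` -/
noncomputable def WW (C p : ℝ) (A : ℝ → ℝ) (u : ℝ) : ℝ :=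
  C / p * (A u + ∫ v, Real.exp (-|v| / 4) * A (u + v))

/-- JE: Jensen.
Proof. `Φ(w) = w^2 (X + w)^(p-2)` is convex and increasing on `[0, ∞)`; `Φ(w₁+w₂) ≤ (Φ(2w₁) + Φ(2w₂))/2`
with `w₁ = C A(u)/p`, `w₂ = (C/p) ∫ e^(-|v|/4) A(u+v)`, and `(1/8) e^(-|v|/4) dv` is a probability
measure (`∫ e^(-|v|/4) = 8`), `2 w₂ = ∫ (1/8) e^(-|v|/4) (16 C A(u+v)/p)`. The constants are
relaxed to `16 C` in both terms. -/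
def P_JE : Prop := ∀ (C p : ℝ), 0 < C → 4 ≤ p → ∀ (A : ℝ → ℝ) (X : ℝ), Continuous A →
  HasCompactSupport A → (∀ u, 0 ≤ A u) → 0 ≤ X → ∀ u : ℝ,
  p ^ 2 / 2 * (WW C p A u) ^ 2 * (X + WW C p A u) ^ (p - 2) ≤
    p ^ 2 / 2 * (16 * C * A u / p) ^ 2 * (X + 16 * C * A u / p) ^ (p - 2) +
    ∫ v, Real.exp (-|v| / 4) * (p ^ 2 / 2 * (16 * C * A (u + v) / p) ^ 2 *
      (X + 16 * C * A (u + v) / p) ^ (p - 2))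

/-- LC1: the integrated bound (from `P_PT` and `P_JE`).
Proof. `P_JE` with `X = X u`, then `P_PT` (with `16 C` for `C`, `a = A (u+v)`, `X₀ = X (u+v)`,
`X' = X u`, `B = Db (u+v)`, `lam = e^(|v|/8)`, `G = e^(|v|/8) (4/p) |∫_(u+v)^u Db|`) and integrate in
`u` (Fubini): `∫ du |∫_(u+v)^u Db| = |v| ∫ Db`; `∫ e^(-|v|/8) = 16`, `∫ |v| e^(-|v|/8) = 128`. -/
def P_LC1 : Prop := P_PT → P_JE → ∀ C : ℝ, 0 < C → ∃ C₂ p₀ : ℝ, 0 < C₂ ∧ 4 ≤ p₀ ∧ ∀ p : ℝ, p₀ ≤ p →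
  ∀ (A Db X : ℝ → ℝ), Continuous A → Continuous Db → Continuous X → HasCompactSupport A →
  HasCompactSupport Db → HasCompactSupport X → (∀ u, 0 ≤ A u) → (∀ u, 0 ≤ Db u) → (∀ u, 0 ≤ X u) →
  (∀ u, p / 2 * X u ^ (p - 2) * A u ^ 2 ≤ Db u) →
  (∀ u, 8 * X u ≤ A u → (1 / 4) ^ p * A u ^ p ≤ Db u) →
  (∀ u v, X (u + v) ^ p ≤ Real.exp (|v| / 8) * (X u ^ p + 4 / p * |∫ t in u..(u + v), Db t|)) →
  Integrable (fun u => p ^ 2 / 2 * (WW C p A u) ^ 2 * (X u + WW C p A u) ^ (p - 2)) ∧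
  ∫ u, p ^ 2 / 2 * (WW C p A u) ^ 2 * (X u + WW C p A u) ^ (p - 2) ≤ C₂ / p * ∫ u, Db u

/-- DV: the first variation.
Proof. `J(v) = Re ∫ |x|^(p-2) conj x(u) x(u+v) du`, `P = ∫ |x|^p = J(0)`, `d = p (P - J)`.
`Re(|b|^(p-2) conj b a) ≤ (1/p)|a|^p + (1-1/p)|b|^p` gives `J ≤ P`; with `φ = x - p x'`,
`d'(v) = -p J'(v) = -J(v) + Re ∫ |x|^(p-2) conj x(u) φ(u+v) du ≤ -J(v) + (1/p) ∫ |φ|^p + (1-1/p) P
 ≤ -J(v) + P + Δ/p = (d(v) + Δ)/p`, so `d(v) + Δ ≤ e^(v/p) Δ`. -/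
def P_DV : Prop := ∀ (p : ℝ), 4 ≤ p → ∀ (x : ℝ → ℂ) (D : ℝ), ContDiff ℝ 1 x → HasCompactSupport x →
  ∫ u, ‖x u - p * deriv x u‖ ^ p ≤ (∫ u, ‖x u‖ ^ p) + D → ∀ v : ℝ, 0 ≤ v →
  0 ≤ p * ∫ u, ‖x u‖ ^ (p - 2) * ((starRingEnd ℂ) (x u) * (x u - x (u + v))).re ∧
  p * ∫ u, ‖x u‖ ^ (p - 2) * ((starRingEnd ℂ) (x u) * (x u - x (u + v))).re
    ≤ (Real.exp (v / p) - 1) * D

/-- FO: the first-order term (from `P_DV`).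
Proof. `α = 1/p + i`.  `ξ(u) = -∫_0^∞ e^(-α v) φ(u+v) dv` with `φ = x - p x'`, integration by parts:
`ξ + x/α = p i ∫_0^∞ e^(-α v) (x(u+v) - x(u)) dv`.  So the left side is
`p i |∫_0^∞ e^(-α v) d(v) dv|` with `0 ≤ d(v) ≤ (e^(v/p) - 1) D`, and
`p i ∫_0^∞ (e^(-i v) - e^(-α v)) dv = p i (1/i - 1/α) = 1/α`. -/
def P_FO : Prop := P_DV → ∀ (p : ℝ), 4 ≤ p → ∀ (x ξ : ℝ → ℂ) (D i : ℝ), 0 < i → ContDiff ℝ 1 x →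
  HasCompactSupport x → ContDiff ℝ 1 ξ → HasCompactSupport ξ →
  (∀ u, deriv ξ u - (1 / p + i : ℝ) * ξ u = x u - p * deriv x u) →
  ∫ u, ‖x u - p * deriv x u‖ ^ p ≤ (∫ u, ‖x u‖ ^ p) + D →
  |p * ∫ u, ‖x u‖ ^ (p - 2) * ((starRingEnd ℂ) (x u) * (ξ u + (1 / (1 / p + i) : ℝ) * x u)).re|
    ≤ D / (1 / p + i)

/-- IN: inverse of a first-order operator.
Proof. `α > 0`: `η(u) = -∫_0^∞ e^(-α v) g(u+v) dv`; `α < 0`: `η(u) = ∫_0^∞ e^(α v) g(u-v) dv`. -/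
def P_IN : Prop := ∀ (α : ℝ), 1 / 4 ≤ |α| → ∀ (η g : ℝ → ℂ), ContDiff ℝ 1 η → HasCompactSupport η →
  Continuous g → (∀ u, deriv η u - α * η u = g u) →
  ∀ u, ‖η u‖ ≤ ∫ v, Real.exp (-|v| / 4) * ‖g (u + v)‖

/-- LC: the main estimate (to be assembled by helper3 from BR, BRA, GR, LC1) -/
def P_LC : Prop := ∀ C : ℝ, 0 < C → ∃ p₀ : ℝ, 4 ≤ p₀ ∧ ∀ p : ℝ, p₀ ≤ p →
  ∀ (F Y : ℝ → ℝ → ℂ) (x : ℝ → ℂ) (R : ℝ), Continuous (Function.uncurry F) →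
  Continuous (Function.uncurry Y) → ContDiff ℝ 1 x →
  (∀ u, R ≤ |u| → x u = 0 ∧ ∀ t, F u t = 0 ∧ Y u t = 0) →
  (∀ u, avc (F u) = x u - p * deriv x u) →
  (∀ u t, ‖Y u t - x u‖ ≤ WW C p (fun u => av fun t => ‖F u t - x u‖) u) →
  (p * ∫ u, ‖x u‖ ^ (p - 2) * ((starRingEnd ℂ) (x u) * (avc (Y u) - x u)).re ≤
    C / p * ((∫ u, av fun t => ‖F u t‖ ^ p) - ∫ u, ‖x u‖ ^ p)) →
  ∫ u, (av fun t => ‖Y u t‖ ^ p) ≤ ∫ u, av fun t => ‖F u t‖ ^ p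

/-! ### the algebra of the operators -/

/-- the derivative as a linear endomorphism of the Schwartz space -/
noncomputable def DD : Module.End ℝ 𝓢(ℝ, ℂ) := (SchwartzMap.derivCLM ℝ ℂ).toLinearMap

/-- the constant-coefficient operator `P(d/du)` -/
noncomputable def pol (P : Polynomial ℝ) (ζ : 𝓢(ℝ, ℂ)) : 𝓢(ℝ, ℂ) := Polynomial.aeval DD P ζ

noncomputable def al (p : ℝ) (n : ℕ) (k : ℤ) (i : ℕ) : ℝ := 1 / p + (k : ℝ) / 2 - n + i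

noncomputable def be (p : ℝ) (n : ℕ) (k : ℤ) (i : ℕ) : ℝ := 1 / p - (k : ℝ) / 2 + i

noncomputable def PA (p : ℝ) (n : ℕ) (k : ℤ) : Polynomial ℝ :=
  ∏ i ∈ Finset.range n, (Polynomial.X - Polynomial.C (al p n k i))

noncomputable def PB (p : ℝ) (n : ℕ) (k : ℤ) : Polynomial ℝ :=
  ∏ i ∈ Finset.range n, (Polynomial.X - Polynomial.C (be p n k i))

/-- `PA` without the factor `i` -/
noncomputable def PE (p : ℝ) (n : ℕ) (k : ℤ) (i : ℕ) : Polynomial ℝ :=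
  ∏ l ∈ (Finset.range n).erase i, (Polynomial.X - Polynomial.C (al p n k l))

/-- PF: partial fractions.
Proof. `c_i = ∏_{l < n} (k - n + i - l) / ∏_{l < n, l ≠ i} (i - l)` (Lagrange interpolation at the
distinct nodes `al p n k i` of the polynomial `PB - PA` of degree `< n`;
`al i - be l = k - n + i - l`, `al i - al l = i - l`).  `c_i = 0` if `k/2 - n + i = 0`, `i ≥ 1`
(the factor `l = n - i` vanishes).  The constant: evaluate at `0` for `k = 2n`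
(`al p n (2n) i = 1/p + i`, `be p n (2n) i = 1/p - n + i`). -/
def P_PF : Prop := ∀ (n : ℕ), 1 ≤ n → ∀ (k : ℤ), ∃ c : ℕ → ℝ,
  (∀ p : ℝ, 0 < p → PB p n k = PA p n k + ∑ i ∈ Finset.range n, Polynomial.C (c i) * PE p n k i) ∧
  (∀ i : ℕ, i < n → (k : ℝ) / 2 - n + i = 0 → k ≠ 2 * n → c i = 0) ∧
  (k = 2 * n → ∀ p : ℝ, 1 < p →
    (-1) ^ n * Cn p n = 1 - ∑ i ∈ Finset.range n, c i / al p n k i)

/-- MO: the inequality for finitely many modes (to be assembled by helper3 from LC, FO, IN, PF) -/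
def P_MO : Prop := ∀ n N : ℕ, 1 ≤ n → 2 * n ≤ N → ∃ p₀ : ℝ, 4 ≤ p₀ ∧ ∀ p : ℝ, p₀ ≤ p →
  ∀ ζ : ℤ → 𝓢(ℝ, ℂ), (∀ k, HasCompactSupport (ζ k)) →
  ∫ u, (av fun t => ‖∑ k ∈ Finset.Icc (-(N : ℤ)) N,
      Complex.exp (((k : ℝ) - 2 * n) * t * Complex.I) * pol (PB p n k) (ζ k) u‖ ^ p) ≤
    (Cn p n) ^ p * ∫ u, (av fun t => ‖∑ k ∈ Finset.Icc (-(N : ℤ)) N,
      Complex.exp (((k : ℝ) - 2 * n) * t * Complex.I) * pol (PA p n k) (ζ k) u‖ ^ p)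

/-! ### the plane -/

/-- logarithmic polar coordinates -/
noncomputable def ex (u t : ℝ) : ℂ := Complex.exp ((u / 2 : ℝ) + t * Complex.I)

/-- POL: polar coordinates, `|z|^2 = e^u` -/
def P_POL : Prop := ∀ (p : ℝ), 0 < p → ∀ f : ℂ → ℂ, Continuous f →
  ∫⁻ z : ℂ, ‖f z‖ₑ ^ p =
    ENNReal.ofReal Real.pi * ∫⁻ u : ℝ, ENNReal.ofReal (av fun t => ‖Real.exp (u / p) * f (ex u t)‖ ^ p)

/-- GEO: the Wirtinger derivatives in logarithmic polar coordinates.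
Proof. `∂_zbar h (e^w) = e^(-conj w) (∂_u + (i/2) ∂_t) (h ∘ ex)`,
`∂_z h (e^w) = e^(-w) (∂_u - (i/2) ∂_t) (h ∘ ex)`, `w = u/2 + i t`; so a mode `e^(i m t) g(u)` becomes
`e^(i(m+1)t) e^(-u/2) (g' - (m/2) g)`, resp. `e^(i(m-1)t) e^(-u/2) (g' + (m/2) g)`; induction. -/
def P_GEO : Prop := ∀ (n N : ℕ) (p : ℝ), 0 < p → ∀ (h : 𝓢(ℂ, ℂ)) (ζ : ℤ → 𝓢(ℝ, ℂ)),
  (∀ u t : ℝ, h (ex u t) = Real.exp (u * (n / 2 - 1 / p)) * ∑ k ∈ Finset.Icc (-(N : ℤ)) N,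
    Complex.exp (((k : ℝ) - n) * t * Complex.I) * ζ k u) →
  ∀ u t : ℝ,
    Real.exp (u / p) * (db^[n] h) (ex u t) = Complex.exp (2 * n * t * Complex.I) *
      ∑ k ∈ Finset.Icc (-(N : ℤ)) N,
        Complex.exp (((k : ℝ) - 2 * n) * t * Complex.I) * pol (PA p n k) (ζ k) u ∧
    Real.exp (u / p) * (dd^[n] h) (ex u t) =
      ∑ k ∈ Finset.Icc (-(N : ℤ)) N,
        Complex.exp (((k : ℝ) - 2 * n) * t * Complex.I) * pol (PB p n k) (ζ k) u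

/-- EXI: functions of one angular mode, supported in an annulus -/
def P_EXI : Prop := ∀ (m : ℤ) (g : ℝ → ℂ), ContDiff ℝ ∞ g → HasCompactSupport g →
  ∃ h : 𝓢(ℂ, ℂ), HasCompactSupport h ∧ ∀ u t : ℝ, h (ex u t) = Complex.exp (m * t * Complex.I) * g u

/-- SUR: `D - α` is onto on the Schwartz space, `α ≠ 0` real.
Proof. For `α > 0`, `ζ(u) = -∫_0^∞ e^(-α v) φ(u+v) dv`, for `α < 0`,
`ζ(u) = ∫_0^∞ e^(α v) φ(u-v) dv`, is a Schwartz function (derivatives fall on `φ`; decay: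
`|u|^k ≤ 2^k (|u+v|^k + v^k)`); or use the Fourier multiplier `1/(2 π i ξ - α)`
(`SchwartzMap.smulLeftCLM`, `Function.HasTemperateGrowth`). -/
def P_SUR : Prop := ∀ (α : ℝ), α ≠ 0 → ∀ φ : 𝓢(ℝ, ℂ), ∃ ζ : 𝓢(ℝ, ℂ), DD ζ - α • ζ = φ

/-- CUT: compactly supported functions are dense in the Schwartz space.
Proof. `ζ_j(u) = χ(u/(j+1)) ζ(u)`. -/
def P_CUT : Prop := ∀ (ζ : 𝓢(ℝ, ℂ)), ∃ z : ℕ → 𝓢(ℝ, ℂ), (∀ j, HasCompactSupport (z j)) ∧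
  Tendsto z atTop (𝓝 ζ)

/-- DEN: density in one dimension (from `P_SUR`, `P_CUT`).
Proof. Induction: `pol (∏ (X - C α_i)) ζ₀ = φ` for some `ζ₀ ∈ 𝓢`; cut off `ζ₀`;
`pol P` is continuous on `𝓢`, and `𝓢 → L^p` is continuous (`SchwartzMap.toLpCLM`). -/
def P_DEN : Prop := P_SUR → P_CUT →
  ∀ (n : ℕ) (α : ℕ → ℝ), (∀ i, i < n → α i ≠ 0) → ∀ (φ : 𝓢(ℝ, ℂ)) (p ε : ℝ),
  1 ≤ p → 0 < ε → ∃ ζ : 𝓢(ℝ, ℂ), HasCompactSupport ζ ∧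
    eLpNorm (fun u => pol (∏ i ∈ Finset.range n, (Polynomial.X - Polynomial.C (α i))) ζ u - φ u)
      (ENNReal.ofReal p) volume ≤ ENNReal.ofReal ε

/-- TR: truncation of a mode -/
def P_TR : Prop := ∀ (k : ℤ) (f : 𝓢(ℂ, ℂ)), (∀ z a : ℂ, ‖a‖ = 1 → f (a * z) = a ^ k * f z) →
  ∀ (p ε : ℝ), 2 ≤ p → 0 < ε → ∃ (φ : 𝓢(ℝ, ℂ)) (f₁ : 𝓢(ℂ, ℂ)), HasCompactSupport φ ∧
    (∀ u t : ℝ, Real.exp (u / p) * f₁ (ex u t) = Complex.exp (k * t * Complex.I) * φ u) ∧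
    eLpNorm (f - f₁ : 𝓢(ℂ, ℂ)) (ENNReal.ofReal p) volume ≤ ENNReal.ofReal ε

/-- the final statement -/
def P_FIN : Prop := ∀ n N : ℕ, 1 ≤ n → ∃ p₀ : ℝ, 2 ≤ p₀ ∧ ∀ p : ℝ, p₀ ≤ p → ∀ g : ℤ → 𝓢(ℂ, ℂ),
  (∀ (k : ℤ) (z a : ℂ), ‖a‖ = 1 → g k (a * z) = a ^ k * g k z) →
  eLpNorm (Tn n (∑ k ∈ Finset.Icc (-(N : ℤ)) N, g k : 𝓢(ℂ, ℂ))) (ENNReal.ofReal p) (volume : Measure ℂ) ≤
    ENNReal.ofReal (Cn p n) * eLpNorm (∑ k ∈ Finset.Icc (-(N : ℤ)) N, g k : 𝓢(ℂ, ℂ))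
      (ENNReal.ofReal p) (volume : Measure ℂ)

/-- FINA: the final assembly.
Proof. It suffices to take `2 n ≤ N` (enlarge `N`, replace `g k` by `0` for the new `k`).  Given
`ε > 0`: `P_TR` for each `g k` gives `φ_k`, `f₁ = Σ f₁,k` with `‖f - f₁‖_p ≤ ε`; `P_DEN` with
`α = al p n k` (`≠ 0` for `p ≥ 4`: `1/p + (k/2 - n + i)`, half-integer plus `0 < 1/p < 1/2`) gives
`ζ_k` with `‖pol (PA p n k) ζ_k - φ_k‖_p ≤ ε`; `P_EXI` gives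
`h` with `h (ex u t) = e^(u (n/2 - 1/p)) Σ e^(i(k-n)t) ζ_k(u)`; by `P_GEO` and `P_POL`
`‖f₁ - db^[n] h‖_p ≤ C ε`, and `‖dd^[n] h‖_p ≤ Cn ‖db^[n] h‖_p` by `P_MO`; `Tn_db` (in
`Pool.Agent.Y282.RB.A2`), `Tn_add` (`Pool.Agent.Y282.RB.K`) and the boundedness of `Tn` on `L^p`
(`Pool.Agent.TH55.PowA.main`, see the proof of `Pool.Agent.Y282.RB.K.main`) finish the proof. -/
def P_FINA : Prop := P_MO → P_POL → P_GEO → P_EXI → P_SUR → P_CUT → P_DEN → P_TR → P_FIN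

end Pool.Agent.W2helper3.BQ
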