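import Pool.Agent.W2helper3.BQ.Mo
import Pool.Agent.W2helper93.BQ.BR
import Pool.Agent.W2helper93.BQ.PT
import Pool.Agent.W2helper75.BQ.BRA
import Pool.Agent.W2helper33.BQ.GR
import Pool.Agent.W2helper33.BQ.JE
import Pool.Agent.W2helper44.BQ.DV
import Pool.Agent.W2helper44.BQ.FO
import Pool.Agent.W2helper44.BQ.LC1
import Pool.Agent.W2helper46.BQ.IN
import Pool.Agent.W2helper97.BQ.PF

set_option autoImplicit false

namespace Pool.Agent.W2helper3.BQ

/-- the inequality for finitely many modes, `p` large -/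
theorem mo : P_MO :=
  p_MO Pool.Agent.W2helper93.BQ.t_BR
    (p_LC Pool.Agent.W2helper93.BQ.t_BR Pool.Agent.W2helper75.BQ.p_BRA
      Pool.Agent.W2helper33.BQ.p_GR Pool.Agent.W2helper93.BQ.t_PT Pool.Agent.W2helper33.BQ.p_JE
      p_LC1)
    p_DV p_FO Pool.Agent.W2helper46.BQ.p_in Pool.Agent.W2helper97.BQ.p_PF

end Pool.Agent.W2helper3.BQ
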