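import Pool.Agent.W2helper3.BQ.Stm

/-!
# Project BQ2 (helper3, MP_dd244f_an): `T^n` on functions with at most `c_n log p` angular modes

Goal: for all `n ≥ 1` there is `c > 0` such that for all `p ≥ 2`, all finite sets `S` of frequencies with
at most `c log p` elements (no restriction on the frequencies) and all Schwartz functions
`f = ∑_{k ∈ S} f_k`, `f_k (a z) = a^k f_k z`, one has `‖T^n f‖_p ≤ (1 - 1/p)_n / (1/p)_n ‖f‖_p`.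
-/

set_option autoImplicit false

open MeasureTheory Set Filter Topology
open scoped SchwartzMap ENNReal ContDiff BigOperators

namespace Pool.Agent.W2helper3.BQ

open Pool.Agent.Y282.RB (Tn Cn)
open Pool.Agent.Y282.RB.A2 (db dd)

/-- the majorant -/
noncomputable def W2 (C p : ℝ) (μ : Measure ℝ) (A : ℝ → ℝ) (u : ℝ) : ℝ :=
  C / p * ∫ v, A (u + v) ∂μ

/-- exponential moment -/
noncomputable def Mom (μ : Measure ℝ) : ℝ≥0∞ :=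
  ∫⁻ v, ENNReal.ofReal ((1 + |v|) * Real.exp (|v| / 8)) ∂μ

/-- PT2: `P_PT` with explicit constants -/
def P_PT2 : Prop := ∀ C p : ℝ, 0 < C → 4 ≤ p → 16 * C ≤ p →
  ∀ a X₀ X' G B lam : ℝ, 0 ≤ a → 0 ≤ X₀ → 0 ≤ X' → 0 ≤ G → 0 ≤ B → 1 ≤ lam →
  p / 2 * X₀ ^ (p - 2) * a ^ 2 ≤ B → (8 * X₀ ≤ a → (1 / 4) ^ p * a ^ p ≤ B) →
  X' ^ p ≤ lam * X₀ ^ p + G →
  p ^ 2 / 2 * (C * a / p) ^ 2 * (X' + C * a / p) ^ (p - 2) ≤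
    128 * C ^ 2 * Real.exp (16 * C) / p * lam * B + 128 * C ^ 2 * Real.exp (16 * C) * G

/-- JE2: Jensen for a probability measure.
Proof. `Φ(w) = w^2 (X + w)^(p-2)` is convex on `[0, ∞)` (`ConvexOn.map_integral_le`). -/
def P_JE2 : Prop := ∀ (C p : ℝ), 0 < C → 4 ≤ p → ∀ μ : Measure ℝ, IsProbabilityMeasure μ →
  ∀ (A : ℝ → ℝ) (X : ℝ), Continuous A → HasCompactSupport A → (∀ u, 0 ≤ A u) → 0 ≤ X → ∀ u : ℝ,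
  p ^ 2 / 2 * (W2 C p μ A u) ^ 2 * (X + W2 C p μ A u) ^ (p - 2) ≤
    ∫ v, p ^ 2 / 2 * (C * A (u + v) / p) ^ 2 * (X + C * A (u + v) / p) ^ (p - 2) ∂μ

/-- LC2: the integrated bound (as `P_LC1`, proved in `Pool/Agent/W2helper44/BQ/LC1.lean`, for a general
probability measure and with explicit constants).
Proof. `P_JE2` with `X = X u`, then `P_PT2` (`a = A (u+v)`, `X₀ = X (u+v)`, `X' = X u`, `B = Db (u+v)`,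
`lam = e^(|v|/8)`, `G = e^(|v|/8) (4/p) |∫_(u+v)^u Db|`) and integrate in `u` (Fubini for `volume × μ`):
`∫ du |∫_(u+v)^u Db| = |v| ∫ Db`; total factor
`128 C² e^(16C)/p * (∫ e^(|v|/8) dμ + 4 ∫ |v| e^(|v|/8) dμ) ≤ 512 E C² e^(16C)/p`. -/
def P_LC2 : Prop := P_PT2 → P_JE2 → ∀ C E p : ℝ, 0 < C → 1 ≤ E → 4 ≤ p → 16 * C ≤ p →
  ∀ μ : Measure ℝ, IsProbabilityMeasure μ → Mom μ ≤ ENNReal.ofReal E →
  ∀ (A Db X : ℝ → ℝ), Continuous A → Continuous Db → Continuous X → HasCompactSupport A →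
  HasCompactSupport Db → HasCompactSupport X → (∀ u, 0 ≤ A u) → (∀ u, 0 ≤ Db u) → (∀ u, 0 ≤ X u) →
  (∀ u, p / 2 * X u ^ (p - 2) * A u ^ 2 ≤ Db u) →
  (∀ u, 8 * X u ≤ A u → (1 / 4) ^ p * A u ^ p ≤ Db u) →
  (∀ u v, X (u + v) ^ p ≤ Real.exp (|v| / 8) * (X u ^ p + 4 / p * |∫ t in u..(u + v), Db t|)) →
  Integrable (fun u => p ^ 2 / 2 * (W2 C p μ A u) ^ 2 * (X u + W2 C p μ A u) ^ (p - 2)) ∧
  ∫ u, p ^ 2 / 2 * (W2 C p μ A u) ^ 2 * (X u + W2 C p μ A u) ^ (p - 2) ≤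
    640 * E * C ^ 2 * Real.exp (16 * C) / p * ∫ u, Db u

/-- LCX: the main estimate (helper3) -/
def P_LCX : Prop := ∀ E : ℝ, 1 ≤ E → ∃ B : ℝ, 1 ≤ B ∧ ∀ C : ℝ, 1 ≤ C → ∀ p : ℝ, Real.exp (B * C) ≤ p →
  ∀ μ : Measure ℝ, IsProbabilityMeasure μ → Mom μ ≤ ENNReal.ofReal E →
  ∀ (F Y : ℝ → ℝ → ℂ) (x : ℝ → ℂ) (R : ℝ), Continuous (Function.uncurry F) →
  Continuous (Function.uncurry Y) → ContDiff ℝ 1 x →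
  (∀ u, R ≤ |u| → x u = 0 ∧ ∀ t, F u t = 0 ∧ Y u t = 0) →
  (∀ u, avc (F u) = x u - p * deriv x u) →
  (∀ u t, ‖Y u t - x u‖ ≤ W2 C p μ (fun u => av fun t => ‖F u t - x u‖) u) →
  (p * ∫ u, ‖x u‖ ^ (p - 2) * ((starRingEnd ℂ) (x u) * (avc (Y u) - x u)).re ≤
    C / p * ((∫ u, av fun t => ‖F u t‖ ^ p) - ∫ u, ‖x u‖ ^ p)) →
  ∫ u, (av fun t => ‖Y u t‖ ^ p) ≤ ∫ u, av fun t => ‖F u t‖ ^ p

/-- IN2: inverse of a first-order operator, exact rate.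
Proof. As `P_IN` (`Pool/Agent/W2helper46/BQ/IN.lean`) without replacing the rate `|α|` by `1/4`. -/
def P_IN2 : Prop := ∀ (α : ℝ), α ≠ 0 → ∀ (η g : ℝ → ℂ), ContDiff ℝ 1 η → HasCompactSupport η →
  Continuous g → (∀ u, deriv η u - α * η u = g u) →
  ∀ u, ‖η u‖ ≤ ∫ v, Real.exp (-(|α| * |v|)) * ‖g (u + v)‖

/-- LAP: the Laplace distribution.
Proof. `ν` = density `(a/2) e^(-a|v|)`; `Mom ν = a/(a-1/8) + a/(a-1/8)^2 ≤ 18` for `a ≥ 1/4`. -/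
def P_LAP : Prop := ∀ a : ℝ, 1 / 4 ≤ a → ∃ ν : Measure ℝ, IsProbabilityMeasure ν ∧
  Mom ν ≤ ENNReal.ofReal 18 ∧ ∀ f : ℝ → ℝ, Continuous f → HasCompactSupport f → ∀ u : ℝ,
    ∫ v, Real.exp (-(a * |v|)) * f (u + v) = 2 / a * ∫ v, f (u + v) ∂ν

/-- CONV: composition of two majorants.
Proof. `ρ = (μ + r (μ * ν)) / (1 + r)` (`Measure.conv`), and
`(1 + |a+b|) e^(|a+b|/8) ≤ (1+|a|) e^(|a|/8) (1+|b|) e^(|b|/8)`. -/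
def P_CONV : Prop := ∀ (μ ν : Measure ℝ) (r E₁ E₂ : ℝ), IsProbabilityMeasure μ →
  IsProbabilityMeasure ν → 0 ≤ r → 1 ≤ E₁ → 1 ≤ E₂ → Mom μ ≤ ENNReal.ofReal E₁ →
  Mom ν ≤ ENNReal.ofReal E₂ → ∃ ρ : Measure ℝ, IsProbabilityMeasure ρ ∧
    Mom ρ ≤ ENNReal.ofReal (E₁ * E₂) ∧ ∀ f : ℝ → ℝ, Continuous f → HasCompactSupport f → ∀ u : ℝ,
      (∫ v, f (u + v) ∂μ) + r * ∫ w, (∫ v, f (u + w + v) ∂μ) ∂ν = (1 + r) * ∫ v, f (u + v) ∂ρ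

/-- MIX: mixtures.
Proof. `ρ = (card J)⁻¹ • ∑ j ∈ J, μ j`. -/
def P_MIX : Prop := ∀ (J : Finset ℤ) (μ : ℤ → Measure ℝ) (E : ℝ), J.Nonempty → 1 ≤ E →
  (∀ j ∈ J, IsProbabilityMeasure (μ j) ∧ Mom (μ j) ≤ ENNReal.ofReal E) →
  ∃ ρ : Measure ℝ, IsProbabilityMeasure ρ ∧ Mom ρ ≤ ENNReal.ofReal E ∧
    ∀ f : ℝ → ℝ, Continuous f → HasCompactSupport f → ∀ u : ℝ,
      ∑ j ∈ J, (∫ v, f (u + v) ∂(μ j)) = (J.card : ℝ) * ∫ v, f (u + v) ∂ρ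

/-- KER: all modes except `2 n` are harmless, uniformly in the mode (from IN2, LAP, CONV, PF).
Proof. (a) If `k/2 - n + i ≠ 0` for all `i < n`: let `P_j = ∏_{i<j} (X - be i) ∏_{i≥j} (X - al i)`,
`Q_j = ∏_{i<j} (X - be i) ∏_{i>j} (X - al i)`, so `P_0 = PA`, `P_n = PB`, `P_j = (X - al j) Q_j`,
`P_{j+1} ζ = P_j ζ + (al j - be j) Q_j ζ`, `al j - be j = k - n`.  `P_IN2` for `η = Q_j ζ`,
`g = P_j ζ`, `α = al j`, and `P_LAP` (`|al j| ≥ 1/4`; `al_big` in `Pool.Agent.W2helper3.BQ.Mo`) give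
`‖P_{j+1} ζ (u)‖ ≤ ‖P_j ζ (u)‖ + (2 |k-n| / |al j|) ∫ ‖P_j ζ (u+v)‖ dν(v)`,
`2 |k - n| / |al j| ≤ 8 + 8 n =: r` (`k - n = 2 (k/2-n+j) + n - 2j`, `|al j| ≥ |k/2-n+j|/2`,
`|al j| ≥ 1/4`); by induction on `j` and `P_CONV`,
`‖P_j ζ (u)‖ ≤ (1+r)^j ∫ ‖PA ζ (u+v)‖ dμ_j(v)`, `Mom μ_j ≤ 18^j`.
(b) Otherwise `k` is one of the `n - 1` numbers `2, 4, …, 2n-2`: use `P_PF` (`c k i = 0` for the bad `i`)
and `P_IN2` for `η = pol (PE p n k i) ζ`, `g = pol (PA p n k) ζ`, rate `|al i| ≥ 1/4` (monotone in the rate)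
for the others: `‖PB ζ(u)‖ ≤ ‖PA ζ(u)‖ + (∑ |c_i|) ∫ e^(-|v|/4) ‖PA ζ(u+v)‖ dv`, `P_LAP` with `a = 1/4`
and `P_CONV` with `μ = δ_0`. -/
def P_KER : Prop := P_IN2 → P_LAP → P_CONV → P_PF → ∀ n : ℕ, 1 ≤ n →
  ∃ C E : ℝ, 1 ≤ C ∧ 1 ≤ E ∧ ∀ p : ℝ, 4 ≤ p → ∀ k : ℤ, k ≠ 2 * n →
    ∃ μ : Measure ℝ, IsProbabilityMeasure μ ∧ Mom μ ≤ ENNReal.ofReal E ∧
      ∀ ζ : 𝓢(ℝ, ℂ), HasCompactSupport ζ → ∀ u : ℝ,
        ‖pol (PB p n k) ζ u‖ ≤ C * ∫ v, ‖pol (PA p n k) ζ (u + v)‖ ∂μ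

/-- MO2: the inequality for `c log p` modes (helper3, from LCX, DV, FO, IN, PF, KER, MIX, ...) -/
def P_MO2 : Prop := ∀ n : ℕ, 1 ≤ n → ∃ c : ℝ, 0 < c ∧ ∀ p : ℝ, 4 ≤ p →
  ∀ S : Finset ℤ, (S.card : ℝ) ≤ c * Real.log p →
  ∀ ζ : ℤ → 𝓢(ℝ, ℂ), (∀ k, HasCompactSupport (ζ k)) →
  ∫ u, (av fun t => ‖∑ k ∈ S,
      Complex.exp (((k : ℝ) - 2 * n) * t * Complex.I) * pol (PB p n k) (ζ k) u‖ ^ p) ≤
    (Cn p n) ^ p * ∫ u, (av fun t => ‖∑ k ∈ S,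
      Complex.exp (((k : ℝ) - 2 * n) * t * Complex.I) * pol (PA p n k) (ζ k) u‖ ^ p)

/-- the final statement -/
def P_FIN2 : Prop := ∀ n : ℕ, 1 ≤ n → ∃ c : ℝ, 0 < c ∧ ∀ p : ℝ, 2 ≤ p →
  ∀ S : Finset ℤ, (S.card : ℝ) ≤ c * Real.log p → ∀ g : ℤ → 𝓢(ℂ, ℂ),
  (∀ k ∈ S, ∀ z a : ℂ, ‖a‖ = 1 → g k (a * z) = a ^ k * g k z) →
  eLpNorm (Tn n (∑ k ∈ S, g k : 𝓢(ℂ, ℂ))) (ENNReal.ofReal p) (volume : Measure ℂ) ≤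
    ENNReal.ofReal (Cn p n) * eLpNorm (∑ k ∈ S, g k : 𝓢(ℂ, ℂ))
      (ENNReal.ofReal p) (volume : Measure ℂ)

/-- FINA2: the final assembly (as `P_FINA`, `Pool/Agent/W2helper74/BQ/FINA.lean`; sums over an
arbitrary finite set `S`; `P_GEO` is used with `N` such that `S ⊆ Icc (-N) N` and `ζ k = 0` off `S`;
take `c ≤` the constant of `P_MO2` and so small that `c log p ≥ 1` implies `p ≥ 4`; `S = ∅` is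
trivial). -/
def P_FINA2 : Prop := P_MO2 → P_POL → P_GEO → P_EXI → P_SUR → P_CUT → P_DEN → P_TR → P_FIN2

end Pool.Agent.W2helper3.BQ
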