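import Pool.Agent.W2helper3.BQ.Lc
import Pool.Agent.W2helper3.BQ.Stm2

set_option autoImplicit false

open MeasureTheory Set Filter Topology
open scoped SchwartzMap ENNReal ContDiff BigOperators

namespace Pool.Agent.W2helper3.BQ

lemma num_lcx {E C p : ℝ} (hE : 1 ≤ E) (hC : 1 ≤ C) (hp : Real.exp ((18 + 641 * E) * C) ≤ p) :
    4 ≤ p ∧ 16 * C ≤ p ∧ C + 640 * E * C ^ 2 * Real.exp (16 * C) ≤ p := by
  have h1 : Real.exp ((18 + 641 * E) * C) =
      Real.exp (16 * C) * (Real.exp C * Real.exp C) * Real.exp (641 * E * C) := by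
    rw [← Real.exp_add, ← Real.exp_add, ← Real.exp_add]
    congr 1
    ring
  have h2 : C ≤ Real.exp C := by linarith [Real.add_one_le_exp C]
  have h3 : 641 * E ≤ Real.exp (641 * E * C) := by
    have := Real.add_one_le_exp (641 * E * C)
    nlinarith
  have h4 : 16 * C ≤ Real.exp (16 * C) := by linarith [Real.add_one_le_exp (16 * C)]
  have hC0 : 0 < C := by linarith
  have h5 : C * C ≤ Real.exp C * Real.exp C := mul_le_mul h2 h2 hC0.le (by positivity)
  have h6 : Real.exp (16 * C) * (C * C) ≤ Real.exp (16 * C) * (Real.exp C * Real.exp C) :=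
    mul_le_mul_of_nonneg_left h5 (by positivity)
  have h7 : Real.exp (16 * C) * (C * C) * (641 * E) ≤ p := by
    refine le_trans ?_ hp
    rw [h1]
    exact mul_le_mul h6 h3 (by positivity) (by positivity)
  have h8 : C ≤ E * (C ^ 2 * Real.exp (16 * C)) := by
    have a1 : C ≤ C ^ 2 := by nlinarith
    have a2 : 1 ≤ Real.exp (16 * C) := by linarith
    have a3 : C ^ 2 * 1 ≤ C ^ 2 * Real.exp (16 * C) := mul_le_mul_of_nonneg_left a2 (by positivity)
    have a4 : 1 * (C ^ 2 * Real.exp (16 * C)) ≤ E * (C ^ 2 * Real.exp (16 * C)) :=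
      mul_le_mul_of_nonneg_right hE (by positivity)
    linarith
  have h9 : C + 640 * E * C ^ 2 * Real.exp (16 * C) ≤ p := by
    refine le_trans ?_ h7
    have : Real.exp (16 * C) * (C * C) * (641 * E) =
      E * (C ^ 2 * Real.exp (16 * C)) + 640 * E * C ^ 2 * Real.exp (16 * C) := by ring
    rw [this]
    linarith
  have h10 : Real.exp (16 * C) ≤ 640 * E * C ^ 2 * Real.exp (16 * C) := by
    have : 1 ≤ 640 * E * C ^ 2 := by nlinarith
    nlinarith [Real.exp_pos (16 * C)]
  refine ⟨by linarith, by linarith, h9⟩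

theorem p_LCX (hBR : P_BR) (hBRA : P_BRA) (hGR : P_GR) (hPT2 : P_PT2) (hJE2 : P_JE2)
    (hLC2 : P_LC2) : P_LCX := by
  intro E hE
  refine ⟨18 + 641 * E, by linarith, fun C hC p hp μ hμ hMom F Y x R hF hY hx hsupp hav hW hfo => ?_⟩
  obtain ⟨hp4, hp16, hpC⟩ := num_lcx hE hC hp
  obtain ⟨C₂, hC₂⟩ : ∃ C₂ : ℝ, C₂ = 640 * E * C ^ 2 * Real.exp (16 * C) := ⟨_, rfl⟩
  rw [← hC₂] at hpC
  have hp0 : 0 < p := by linarith
  have hp2 : 2 ≤ p := by linarith
  have hxc : Continuous x := hx.continuous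
  -- continuity in the angle
  have hFt : ∀ u, Continuous (F u) := fun u => hF.comp (Continuous.prodMk_right u)
  have hYt : ∀ u, Continuous (Y u) := fun u => hY.comp (Continuous.prodMk_right u)
  have cs : ∀ f : ℝ → ℝ, (∀ u, R ≤ |u| → f u = 0) → HasCompactSupport f := by
    intro f hf
    refine HasCompactSupport.intro (isCompact_Icc (a := -R) (b := R)) fun u hu => ?_
    refine hf u ?_
    by_contra h
    rw [not_le, abs_lt] at h
    exact hu ⟨h.1.le, h.2.le⟩
  have csx : HasCompactSupport x := by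
    refine HasCompactSupport.intro (isCompact_Icc (a := -R) (b := R)) fun u hu => ?_
    refine (hsupp u ?_).1
    by_contra h
    rw [not_le, abs_lt] at h
    exact hu ⟨h.1.le, h.2.le⟩
  -- the functions
  obtain ⟨A, hA⟩ : ∃ A : ℝ → ℝ, A = fun u => av fun t => ‖F u t - x u‖ := ⟨_, rfl⟩
  obtain ⟨Db, hDb⟩ : ∃ Db : ℝ → ℝ, Db = fun u => av fun t => br p (F u t) (x u) := ⟨_, rfl⟩
  have hAc : Continuous A := by
    rw [hA]
    refine av_cont ?_
    exact (hF.sub (hxc.comp continuous_fst)).norm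
  have hDbc : Continuous Db := by
    rw [hDb]
    refine av_cont ?_
    exact br_cont hp2 hF (hxc.comp continuous_fst)
  have hXc : Continuous (fun u => ‖x u‖) := hxc.norm
  have hA0 : ∀ u, 0 ≤ A u := fun u => by
    rw [hA]; exact av_nonneg fun t => norm_nonneg _
  have hbr0 : ∀ a b : ℂ, 0 ≤ br p a b := fun a b => le_trans (by positivity) (hBR p hp4 a b).1
  have hDb0 : ∀ u, 0 ≤ Db u := fun u => by
    rw [hDb]; exact av_nonneg fun t => hbr0 _ _
  have hAs : HasCompactSupport A := by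
    refine cs A fun u hu => ?_
    rw [hA]
    simp only [(hsupp u hu).1, ((hsupp u hu).2 _).1, sub_zero, norm_zero]
    exact av_const 0
  have hDbs : HasCompactSupport Db := by
    refine cs Db fun u hu => ?_
    rw [hDb]
    simp only [(hsupp u hu).1, ((hsupp u hu).2 _).1, br_zero hp0]
    exact av_const 0
  have hXs : HasCompactSupport (fun u => ‖x u‖) := by
    refine cs _ fun u hu => ?_
    rw [(hsupp u hu).1, norm_zero]
  have h1 : ∀ u, p / 2 * ‖x u‖ ^ (p - 2) * A u ^ 2 ≤ Db u := fun u => by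
    rw [hA, hDb]
    exact (hBRA hBR p hp4 (F u) (x u) (hFt u)).1
  have h2 : ∀ u, 8 * ‖x u‖ ≤ A u → (1 / 4) ^ p * A u ^ p ≤ Db u := fun u => by
    rw [hA, hDb]
    exact (hBRA hBR p hp4 (F u) (x u) (hFt u)).2
  have h3 : ∀ u v, ‖x (u + v)‖ ^ p ≤
      Real.exp (|v| / 8) * (‖x u‖ ^ p + 4 / p * |∫ t in u..(u + v), Db t|) := by
    refine hGR p hp4 x Db hx hDbc fun u => ?_
    refine le_trans ?_ (h1 u)
    have h4 : p * ‖deriv x u‖ ≤ A u := by
      have e : ((p : ℝ) : ℂ) * deriv x u = -(avc (fun t => F u t - x u)) := by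
        rw [avc_sub (hFt u) continuous_const, avc_const]
        change _ = -(avc (F u) - x u)
        rw [hav u]
        ring
      have e2 : p * ‖deriv x u‖ = ‖((p : ℝ) : ℂ) * deriv x u‖ := by
        rw [norm_mul, Complex.norm_real, Real.norm_of_nonneg hp0.le]
      rw [e2, e, norm_neg, hA]
      exact norm_avc_le _
    have h5 : (p * ‖deriv x u‖) ^ 2 ≤ A u ^ 2 :=
      pow_le_pow_left₀ (by positivity) h4 2
    exact mul_le_mul_of_nonneg_left h5 (by positivity)
  obtain ⟨hint, hle⟩ := hLC2 hPT2 hJE2 C E p (by linarith) hE hp4 hp16 μ hμ hMom A Db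
    (fun u => ‖x u‖) hAc hDbc hXc hAs hDbs hXs hA0 hDb0 (fun u => norm_nonneg _) h1 h2 h3
  rw [← hC₂] at hle
  -- integrability
  have hxp : Continuous (fun u => ‖x u‖ ^ p) := hxc.norm.rpow_const (fun _ => Or.inr hp0.le)
  have hxps : HasCompactSupport (fun u => ‖x u‖ ^ p) := cs _ fun u hu => by
    rw [(hsupp u hu).1, norm_zero, Real.zero_rpow hp0.ne']
  have Ix : Integrable (fun u => ‖x u‖ ^ p) := hxp.integrable_of_hasCompactSupport hxps
  have hGp : ∀ G : ℝ → ℝ → ℂ, Continuous (Function.uncurry G) → (∀ u, R ≤ |u| → ∀ t, G u t = 0) →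
      Integrable (fun u => av fun t => ‖G u t‖ ^ p) ∧
      Integrable (fun u => ‖x u‖ ^ (p - 2) * ((starRingEnd ℂ) (x u) * (avc (G u) - x u)).re) ∧
      Integrable (fun u => av fun t => br p (G u t) (x u)) := by
    intro G hG hG0
    refine ⟨?_, ?_, ?_⟩
    · refine Continuous.integrable_of_hasCompactSupport (av_cont ?_) (cs _ fun u hu => ?_)
      · exact hG.norm.rpow_const (fun _ => Or.inr hp0.le)
      · simp only [hG0 u hu, norm_zero, Real.zero_rpow hp0.ne']
        exact av_const 0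
    · refine Continuous.integrable_of_hasCompactSupport (Continuous.mul ?_ ?_) (cs _ fun u hu => ?_)
      · exact hxc.norm.rpow_const (fun _ => Or.inr (by linarith))
      · exact Complex.continuous_re.comp ((Complex.continuous_conj.comp hxc).mul
          ((avc_cont hG).sub hxc))
      · rw [(hsupp u hu).1]
        simp
    · refine Continuous.integrable_of_hasCompactSupport (av_cont ?_) (cs _ fun u hu => ?_)
      · exact br_cont hp2 hG (hxc.comp continuous_fst)
      · simp only [hG0 u hu, (hsupp u hu).1, br_zero hp0]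
        exact av_const 0
  have key : ∀ G : ℝ → ℝ → ℂ, Continuous (Function.uncurry G) → (∀ u, R ≤ |u| → ∀ t, G u t = 0) →
      ∫ u, (av fun t => ‖G u t‖ ^ p) = (∫ u, ‖x u‖ ^ p) +
        p * (∫ u, ‖x u‖ ^ (p - 2) * ((starRingEnd ℂ) (x u) * (avc (G u) - x u)).re) +
        ∫ u, av fun t => br p (G u t) (x u) := by
    intro G hG hG0
    obtain ⟨i1, i2, i3⟩ := hGp G hG hG0
    have i4 : Integrable (fun u => ‖x u‖ ^ p + p * (‖x u‖ ^ (p - 2) *
        ((starRingEnd ℂ) (x u) * (avc (G u) - x u)).re)) := Ix.add (i2.const_mul p)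
    rw [← integral_const_mul, ← integral_add Ix (i2.const_mul p), ← integral_add i4 i3]
    refine integral_congr_ae (Eventually.of_forall fun u => ?_)
    have hGt : Continuous (G u) := hG.comp (Continuous.prodMk_right u)
    show (av fun t => ‖G u t‖ ^ p) = ‖x u‖ ^ p + p * (‖x u‖ ^ (p - 2) *
      ((starRingEnd ℂ) (x u) * (avc (G u) - x u)).re) + av fun t => br p (G u t) (x u)
    rw [av_br hp2 hGt]
    ring
  have kF := key F hF (fun u hu t => ((hsupp u hu).2 t).1)
  have kY := key Y hY (fun u hu t => ((hsupp u hu).2 t).2)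
  have zF : ∫ u, ‖x u‖ ^ (p - 2) * ((starRingEnd ℂ) (x u) * (avc (F u) - x u)).re = 0 := by
    have e : ∀ u, ‖x u‖ ^ (p - 2) * ((starRingEnd ℂ) (x u) * (avc (F u) - x u)).re =
        (-p) * (‖x u‖ ^ (p - 2) * ((starRingEnd ℂ) (x u) * deriv x u).re) := by
      intro u
      have e1 : (starRingEnd ℂ) (x u) * (avc (F u) - x u) =
          ((-p : ℝ) : ℂ) * ((starRingEnd ℂ) (x u) * deriv x u) := by
        rw [hav u]
        push_cast
        ring
      rw [e1, Complex.re_ofReal_mul]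
      ring
    simp only [e]
    rw [integral_const_mul, int_deriv_zero hp2 hx csx, mul_zero]
  rw [zF, mul_zero, add_zero] at kF
  -- the bound of the divergence of Y
  have bY : ∫ u, (av fun t => br p (Y u t) (x u)) ≤ C₂ / p * ∫ u, Db u := by
    refine le_trans (integral_mono (hGp Y hY (fun u hu t => ((hsupp u hu).2 t).2)).2.2 hint
      fun u => ?_) hle
    show (av fun t => br p (Y u t) (x u)) ≤
      p ^ 2 / 2 * W2 C p μ A u ^ 2 * (‖x u‖ + W2 C p μ A u) ^ (p - 2)
    have h6 : (av fun t => br p (Y u t) (x u)) ≤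
        av fun _ => p ^ 2 / 2 * W2 C p μ A u ^ 2 * (‖x u‖ + W2 C p μ A u) ^ (p - 2) := by
      refine av_mono (br_cont hp2 (hYt u) continuous_const) continuous_const fun t => ?_
      have h7 : ‖Y u t - x u‖ ≤ W2 C p μ A u := by
        have := hW u t
        rw [← hA] at this
        exact this
      refine (hBR p hp4 (Y u t) (x u)).2.1.trans ?_
      gcongr
    rwa [av_const] at h6
  have hDbe : ∫ u, Db u = (∫ u, av fun t => ‖F u t‖ ^ p) - ∫ u, ‖x u‖ ^ p := by
    rw [kF, hDb]
    ring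
  have hD0 : 0 ≤ ∫ u, Db u := integral_nonneg hDb0
  rw [← hDbe] at hfo
  rw [kY]
  have h8 : (C / p + C₂ / p) * ∫ u, Db u ≤ ∫ u, Db u := by
    have h9 : C / p + C₂ / p ≤ 1 := by
      rw [← add_div, div_le_one hp0]
      exact hpC
    calc (C / p + C₂ / p) * ∫ u, Db u ≤ 1 * ∫ u, Db u := mul_le_mul_of_nonneg_right h9 hD0
      _ = _ := one_mul _
  have h10 : (∫ u, av fun t => ‖F u t‖ ^ p) = (∫ u, Db u) + ∫ u, ‖x u‖ ^ p := by
    rw [hDbe]
    ring
  rw [h10]
  nlinarith [hfo, bY, h8]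

end Pool.Agent.W2helper3.BQ
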