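import Pool.Agent.W2helper3.BQ.Stm2

set_option autoImplicit false

/-! # Piece PT2 of project BQ2 (the proof of helper93 for PT, explicit constants) -/

namespace Pool.Agent.W2helper3.BQ.PT2

open Pool.Agent.W2helper3.BQ

theorem rpow_sub_two {x p : ℝ} (hx : 0 ≤ x) (hp : 2 < p) : x ^ (p - 2) * x ^ 2 = x ^ p := by
  rcases hx.eq_or_lt with h | h
  · rw [← h, Real.zero_rpow (by linarith), Real.zero_rpow (by linarith)]
    ring
  · rw [← Real.rpow_natCast x 2, ← Real.rpow_add h]
    congr 1
    push_cast
    ring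

/-- `(X (1 + K / p)) ^ (p - 2) ≤ e ^ K X ^ (p - 2)` -/
theorem pow_exp_le {X K p : ℝ} (hX : 0 ≤ X) (hK : 0 ≤ K) (hp : 2 < p) :
    (X * (1 + K / p)) ^ (p - 2) ≤ Real.exp K * X ^ (p - 2) := by
  have hp0 : 0 < p := by linarith
  have h0 : 0 ≤ K / p := by positivity
  rw [Real.mul_rpow hX (by positivity), mul_comm]
  refine mul_le_mul_of_nonneg_right ?_ (by positivity)
  calc (1 + K / p) ^ (p - 2) ≤ (1 + K / p) ^ p :=
        Real.rpow_le_rpow_of_exponent_le (by linarith) (by linarith)
    _ ≤ (Real.exp (K / p)) ^ p := by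
        refine Real.rpow_le_rpow (by positivity) ?_ hp0.le
        rw [add_comm]
        exact Real.add_one_le_exp _
    _ = Real.exp K := by
        rw [← Real.exp_mul]
        congr 1
        field_simp

theorem two_rpow_ge (p : ℝ) (hp : 1 ≤ p) : p ≤ 2 ^ p := by
  have h := one_add_mul_self_le_rpow_one_add (s := (1 : ℝ)) (by norm_num) hp
  have h2 : (1 : ℝ) + 1 = 2 := by norm_num
  rw [h2] at h
  linarith

theorem p_PT2 : P_PT2 := by
  intro C p hC hp4 hp16 a X₀ X' G B lam ha hX₀ hX' hG hB hlam h1 h2 h3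
  have hp0 : 0 < p := by linarith
  set E := Real.exp (16 * C) with hE
  have hE1 : 1 ≤ E := Real.one_le_exp (by positivity)
  have hE8 : Real.exp (8 * C) ≤ E := Real.exp_le_exp.2 (by linarith)
  have hC2 : 0 < C ^ 2 := by positivity
  have hlhs : p ^ 2 / 2 * (C * a / p) ^ 2 * (X' + C * a / p) ^ (p - 2) =
      C ^ 2 / 2 * (a ^ 2 * (X' + C * a / p) ^ (p - 2)) := by
    field_simp
  rw [hlhs]
  have hCa : C * a / p ≤ a / 16 := by
    rw [div_le_div_iff₀ hp0 (by norm_num)]
    nlinarith
  have hCa0 : 0 ≤ C * a / p := by positivity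
  have hBp : 0 ≤ B / p := by positivity
  have hlB : B / p ≤ lam * (B / p) := by nlinarith
  have hX2 : X₀ ^ (p - 2) * a ^ 2 ≤ 2 * (B / p) := by
    have : p / 2 * X₀ ^ (p - 2) * a ^ 2 = p / 2 * (X₀ ^ (p - 2) * a ^ 2) := by ring
    rw [this] at h1
    have h4 : X₀ ^ (p - 2) * a ^ 2 ≤ B / (p / 2) := by
      rw [le_div_iff₀ (by positivity)]
      linarith
    have h5 : B / (p / 2) = 2 * (B / p) := by
      field_simp
    rw [h5] at h4
    exact h4
  have hgoal : 128 * C ^ 2 * E / p * lam * B + 128 * C ^ 2 * E * G =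
      C ^ 2 * E * (128 * (lam * (B / p)) + 128 * G) := by
    field_simp
  rw [hgoal]
  have hCE : 0 < C ^ 2 * E := by positivity
  have hlB0 : 0 ≤ lam * (B / p) := by positivity
  rcases le_or_gt (8 * X₀) a with hcase | hcase
  · rcases le_or_gt X' (a / 16) with hX | hX
    · -- case 1
      have h4 : X' + C * a / p ≤ a / 8 := by linarith
      have h5 : (X' + C * a / p) ^ (p - 2) ≤ (a / 8) ^ (p - 2) :=
        Real.rpow_le_rpow (by positivity) h4 (by linarith)
      have h6 : a ^ 2 * (a / 8) ^ (p - 2) = 64 * (a / 8) ^ p := by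
        rw [← rpow_sub_two (by positivity : 0 ≤ a / 8) (by linarith : 2 < p)]
        ring
      have h7 : (a / 8) ^ p = (1 / 2) ^ p * ((1 / 4) ^ p * a ^ p) := by
        rw [← Real.mul_rpow (by norm_num) ha, ← Real.mul_rpow (by norm_num) (by positivity)]
        congr 1
        ring
      have h8 := h2 hcase
      have h9 : (1 / 2 : ℝ) ^ p ≤ 1 / p := by
        rw [one_div, Real.inv_rpow (by norm_num), one_div]
        exact inv_anti₀ hp0 (two_rpow_ge p (by linarith))
      have h10 : (a / 8) ^ p ≤ B / p := by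
        rw [h7]
        calc (1 / 2 : ℝ) ^ p * ((1 / 4) ^ p * a ^ p) ≤ 1 / p * B := by
              refine mul_le_mul h9 h8 (by positivity) (by positivity)
          _ = B / p := by ring
      have h11 : a ^ 2 * (X' + C * a / p) ^ (p - 2) ≤ 64 * (B / p) := by
        calc a ^ 2 * (X' + C * a / p) ^ (p - 2) ≤ a ^ 2 * (a / 8) ^ (p - 2) :=
              mul_le_mul_of_nonneg_left h5 (by positivity)
          _ ≤ 64 * (B / p) := by rw [h6]; linarith
      calc C ^ 2 / 2 * (a ^ 2 * (X' + C * a / p) ^ (p - 2)) ≤ C ^ 2 / 2 * (64 * (B / p)) :=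
            mul_le_mul_of_nonneg_left h11 (by positivity)
        _ = C ^ 2 * 1 * (32 * (B / p)) := by ring
        _ ≤ C ^ 2 * E * (128 * (lam * (B / p)) + 128 * G) := by
            refine mul_le_mul ?_ ?_ (by positivity) hCE.le
            · exact mul_le_mul_of_nonneg_left hE1 hC2.le
            · linarith
    · -- case 2
      have h4 : X' + C * a / p ≤ X' * (1 + 16 * C / p) := by
        have : C * a / p ≤ X' * (16 * C / p) := by
          have h5 : X' * (16 * C / p) = C * (16 * X') / p := by ring
          rw [h5]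
          gcongr
          linarith
        linarith
      have h5 : (X' + C * a / p) ^ (p - 2) ≤ E * X' ^ (p - 2) :=
        (Real.rpow_le_rpow (by positivity) h4 (by linarith)).trans
          (pow_exp_le hX' (by positivity) (by linarith))
      have h6 : a ^ 2 ≤ 256 * X' ^ 2 := by nlinarith
      have h7 : X₀ ^ p ≤ B / p := by
        rw [← rpow_sub_two hX₀ (by linarith : 2 < p)]
        have h8 : X₀ ^ 2 ≤ a ^ 2 / 64 := by nlinarith
        have h9 : X₀ ^ (p - 2) * X₀ ^ 2 ≤ X₀ ^ (p - 2) * (a ^ 2 / 64) :=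
          mul_le_mul_of_nonneg_left h8 (by positivity)
        linarith
      have h8 : X' ^ p ≤ lam * (B / p) + G :=
        h3.trans (add_le_add (mul_le_mul_of_nonneg_left h7 (by linarith)) le_rfl)
      calc C ^ 2 / 2 * (a ^ 2 * (X' + C * a / p) ^ (p - 2))
          ≤ C ^ 2 / 2 * ((256 * X' ^ 2) * (E * X' ^ (p - 2))) := by
            refine mul_le_mul_of_nonneg_left (mul_le_mul h6 h5 (by positivity) (by positivity))
              (by positivity)
        _ = C ^ 2 * E * (128 * X' ^ p) := by
            rw [← rpow_sub_two hX' (by linarith : 2 < p)]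
            ring
        _ ≤ C ^ 2 * E * (128 * (lam * (B / p)) + 128 * G) := by
            refine mul_le_mul_of_nonneg_left ?_ hCE.le
            linarith
  · have hX₀pos : 0 < X₀ := by linarith
    rcases le_or_gt X₀ X' with hX | hX
    · -- case 3
      have hX'pos : 0 < X' := by linarith
      have h4 : X' + C * a / p ≤ X' * (1 + 8 * C / p) := by
        have : C * a / p ≤ X' * (8 * C / p) := by
          have h5 : X' * (8 * C / p) = C * (8 * X') / p := by ring
          rw [h5]
          gcongr
          linarith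
        linarith
      have h5 : (X' + C * a / p) ^ (p - 2) ≤ E * X' ^ (p - 2) := by
        refine (Real.rpow_le_rpow (by positivity) h4 (by linarith)).trans
          ((pow_exp_le hX' (by positivity) (by linarith)).trans ?_)
        exact mul_le_mul_of_nonneg_right hE8 (by positivity)
      have h6 : a ^ 2 ≤ 64 * X' ^ 2 := by nlinarith
      have h7 : a ^ 2 * X' ^ (p - 2) ≤ lam * (2 * (B / p)) + 64 * G := by
        have h8 : X' ^ (p - 2) * X' ^ 2 ≤ (lam * X₀ ^ (p - 2) + G / X' ^ 2) * X' ^ 2 := by
          rw [rpow_sub_two hX' (by linarith : 2 < p), add_mul,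
            div_mul_cancel₀ _ (by positivity : X' ^ 2 ≠ 0)]
          refine h3.trans (add_le_add ?_ le_rfl)
          rw [mul_assoc, ← rpow_sub_two hX₀ (by linarith : 2 < p)]
          refine mul_le_mul_of_nonneg_left ?_ (by linarith)
          refine mul_le_mul_of_nonneg_left ?_ (by positivity)
          gcongr
        have h9 : X' ^ (p - 2) ≤ lam * X₀ ^ (p - 2) + G / X' ^ 2 :=
          le_of_mul_le_mul_right h8 (by positivity)
        calc a ^ 2 * X' ^ (p - 2) ≤ a ^ 2 * (lam * X₀ ^ (p - 2) + G / X' ^ 2) :=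
              mul_le_mul_of_nonneg_left h9 (by positivity)
          _ = lam * (X₀ ^ (p - 2) * a ^ 2) + a ^ 2 * (G / X' ^ 2) := by ring
          _ ≤ lam * (2 * (B / p)) + 64 * X' ^ 2 * (G / X' ^ 2) := by
              refine add_le_add (mul_le_mul_of_nonneg_left hX2 (by linarith)) ?_
              exact mul_le_mul_of_nonneg_right h6 (by positivity)
          _ = lam * (2 * (B / p)) + 64 * G := by
              field_simp
      calc C ^ 2 / 2 * (a ^ 2 * (X' + C * a / p) ^ (p - 2))
          ≤ C ^ 2 / 2 * (a ^ 2 * (E * X' ^ (p - 2))) := by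
            refine mul_le_mul_of_nonneg_left (mul_le_mul_of_nonneg_left h5 (by positivity))
              (by positivity)
        _ = C ^ 2 * E * (a ^ 2 * X' ^ (p - 2) / 2) := by ring
        _ ≤ C ^ 2 * E * (128 * (lam * (B / p)) + 128 * G) := by
            refine mul_le_mul_of_nonneg_left ?_ hCE.le
            linarith
    · -- case 4
      have h4 : X' + C * a / p ≤ X₀ * (1 + 8 * C / p) := by
        have : C * a / p ≤ X₀ * (8 * C / p) := by
          have h5 : X₀ * (8 * C / p) = C * (8 * X₀) / p := by ring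
          rw [h5]
          gcongr
        linarith
      have h5 : (X' + C * a / p) ^ (p - 2) ≤ E * X₀ ^ (p - 2) := by
        refine (Real.rpow_le_rpow (by positivity) h4 (by linarith)).trans
          ((pow_exp_le hX₀ (by positivity) (by linarith)).trans ?_)
        exact mul_le_mul_of_nonneg_right hE8 (by positivity)
      calc C ^ 2 / 2 * (a ^ 2 * (X' + C * a / p) ^ (p - 2))
          ≤ C ^ 2 / 2 * (a ^ 2 * (E * X₀ ^ (p - 2))) := by
            refine mul_le_mul_of_nonneg_left (mul_le_mul_of_nonneg_left h5 (by positivity))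
              (by positivity)
        _ = C ^ 2 * E * (X₀ ^ (p - 2) * a ^ 2 / 2) := by ring
        _ ≤ C ^ 2 * E * (128 * (lam * (B / p)) + 128 * G) := by
            refine mul_le_mul_of_nonneg_left ?_ hCE.le
            linarith

end Pool.Agent.W2helper3.BQ.PT2
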