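import Pool.Agent.W2helper3.BQ.All
import Pool.Agent.W2helper3.BQ.Lcx
import Pool.Agent.W2helper3.BQ.Mo2
import Pool.Agent.W2helper3.BQ.PT2
import Pool.Agent.W2helper92.BQ.JE2
import Pool.Agent.W2helper85.BQ.LC2
import Pool.Agent.W2helper33.BQ.IN2
import Pool.Agent.W2helper19.BQ.LAP
import Pool.Agent.W2helper19.BQ.CONV
import Pool.Agent.W2helper19.BQ.KER

set_option autoImplicit false

namespace Pool.Agent.W2helper3.BQ

theorem lcx : P_LCX :=
  p_LCX Pool.Agent.W2helper93.BQ.t_BR Pool.Agent.W2helper75.BQ.p_BRA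
    Pool.Agent.W2helper33.BQ.p_GR Pool.Agent.W2helper3.BQ.PT2.p_PT2
    Pool.Agent.W2helper92.BQ.p_JE2 p_LC2

/-- the inequality for at most `c log p` modes -/
theorem mo2 : P_MO2 :=
  p_MO2 Pool.Agent.W2helper93.BQ.t_BR lcx p_DV p_FO Pool.Agent.W2helper46.BQ.p_in
    Pool.Agent.W2helper97.BQ.p_PF p_LAP p_CONV p_MIX Pool.Agent.W2helper33.BQ.p_IN2 p_KER

end Pool.Agent.W2helper3.BQ
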