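import Pool.Agent.W2helper3.BQ.Mo3
import Pool.Agent.W4helper65.BQ.FINA2

set_option autoImplicit false

open MeasureTheory Set Filter Topology
open scoped SchwartzMap ENNReal ContDiff BigOperators

namespace Pool.Agent.W2helper3.BQ

open Pool.Agent.Y282.RB (Tn Cn)

theorem p_MO3 (hBR : P_BR) (hLCX : P_LCX3) (hDV : P_DV) (hFO : P_FO) (hIN : P_IN) (hPF : P_PF)
    (hLAP : P_LAP) (hCONV : P_CONV) (hMIX : P_MIX) (hIN2 : P_IN2) (hKER : P_KER) (hNIK : P_NIK)
    (hKX : P_KX) (hKAP : P_KAP) (hKC1 : P_KC1) (hKB : P_KB) (hMASS : P_MASS) (hKC : P_KC)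
    (hRR : P_RR) : P_MO3 := by
  intro n hn
  obtain ⟨D, hD, H⟩ := core_MO3 hBR hLCX hDV hFO hIN hPF hLAP hCONV hMIX hIN2 hKER hNIK
    hKX hKAP hKC1 hKB hMASS hKC hRR n hn
  have hn0 : (1 : ℝ) ≤ n := by exact_mod_cast hn
  refine ⟨1 / (D * (1 + 2 * n)), by positivity, fun p N S hp4 hS ζ hζ => ?_⟩
  have hN0 : (0 : ℝ) ≤ N := Nat.cast_nonneg N
  obtain ⟨N', hN'⟩ : ∃ N' : ℕ, N' = N + 2 * n := ⟨_, rfl⟩
  obtain ⟨S', hS'⟩ : ∃ S' : Finset ℤ, S' = S ∪ Finset.Icc (-(N' : ℤ)) N' := ⟨_, rfl⟩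
  obtain ⟨ζ', hζ'⟩ : ∃ ζ' : ℤ → 𝓢(ℝ, ℂ), ζ' = fun k => if k ∈ S then ζ k else 0 := ⟨_, rfl⟩
  have hsub : Finset.Icc (-(N' : ℤ)) N' ⊆ S' := by
    rw [hS']
    exact Finset.subset_union_right
  have hcard : ((S' \ Finset.Icc (-(N' : ℤ)) N').card : ℝ) ≤
      ((S \ Finset.Icc (-(N : ℤ)) N).card : ℝ) := by
    have h1 : S' \ Finset.Icc (-(N' : ℤ)) N' ⊆ S \ Finset.Icc (-(N : ℤ)) N := by
      intro k hk
      rw [Finset.mem_sdiff, hS', Finset.mem_union] at hk
      rw [Finset.mem_sdiff]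
      refine ⟨hk.1.resolve_right hk.2, fun h2 => hk.2 ?_⟩
      rw [Finset.mem_Icc] at h2 ⊢
      constructor <;> omega
    exact_mod_cast Finset.card_le_card h1
  have hlog : Real.log ((N' : ℝ) + 2) ≤ (1 + 2 * n) * Real.log (N + 2) := by
    have h1 : (N' : ℝ) + 2 ≤ (N + 2) * (n + 1) := by
      rw [hN']
      push_cast
      nlinarith
    have h2 : Real.log ((N' : ℝ) + 2) ≤ Real.log (N + 2) + Real.log (n + 1) := by
      rw [← Real.log_mul (by linarith) (by linarith)]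
      exact Real.log_le_log (by positivity) h1
    have h3 : Real.log ((n : ℝ) + 1) ≤ n := by
      have := Real.log_le_sub_one_of_pos (show (0 : ℝ) < n + 1 by linarith)
      linarith
    have h4 : (1 : ℝ) / 2 ≤ Real.log (N + 2) := by
      have h5 : Real.log 2 ≤ Real.log ((N : ℝ) + 2) := Real.log_le_log (by norm_num) (by linarith)
      have := Real.log_two_gt_d9
      linarith
    nlinarith
  have hcond : D * ((1 + ((S' \ Finset.Icc (-(N' : ℤ)) N').card : ℝ)) * Real.log (N' + 2)) ≤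
      Real.log p := by
    have h1 : (1 + ((S' \ Finset.Icc (-(N' : ℤ)) N').card : ℝ)) * Real.log (N' + 2) ≤
        (1 + ((S \ Finset.Icc (-(N : ℤ)) N).card : ℝ)) * ((1 + 2 * n) * Real.log (N + 2)) :=
      mul_le_mul (by linarith) hlog (Real.log_nonneg (by
        have : (0 : ℝ) ≤ N' := Nat.cast_nonneg _
        linarith)) (by positivity)
    have h2 := mul_le_mul_of_nonneg_left hS (show (0 : ℝ) ≤ D * (1 + 2 * n) by positivity)
    have h3 : D * (1 + 2 * n) * (1 / (D * (1 + 2 * n)) * Real.log p) = Real.log p := by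
      field_simp
    rw [h3] at h2
    have h4 := mul_le_mul_of_nonneg_left h1 hD.le
    linarith
  have hζc : ∀ k, HasCompactSupport (ζ' k) := by
    intro k
    rw [hζ']
    simp only
    split_ifs
    · exact hζ k
    · exact HasCompactSupport.zero
  have key := H p N' S' hp4 (by omega) hsub hcond ζ' hζc
  have hsum : ∀ (P : ℤ → Polynomial ℝ) (u t : ℝ), ∑ k ∈ S',
      Complex.exp (((k : ℝ) - 2 * n) * t * Complex.I) * pol (P k) (ζ' k) u =
      ∑ k ∈ S, Complex.exp (((k : ℝ) - 2 * n) * t * Complex.I) * pol (P k) (ζ k) u := by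
    intro P u t
    have hsub2 : S ⊆ S' := by
      rw [hS']
      exact Finset.subset_union_left
    rw [← Finset.sum_subset hsub2]
    · refine Finset.sum_congr rfl fun k hk => ?_
      rw [hζ']
      simp only
      rw [if_pos hk]
    · intro k _ hk
      rw [hζ']
      simp only
      rw [if_neg hk]
      have h0 : pol (P k) (0 : 𝓢(ℝ, ℂ)) = 0 := by
        unfold pol
        exact map_zero _
      rw [h0]
      simp
  simp only [hsum] at key
  exact key

theorem p_FIN3 (hMO : P_MO3) (hPOL : P_POL) (hGEO : P_GEO) (hEXI : P_EXI) (hSUR : P_SUR)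
    (hCUT : P_CUT) (hDEN : P_DEN) (hTR : P_TR) : P_FIN3 := by
  intro n hn
  obtain ⟨c, hc, H⟩ := hMO n hn
  refine ⟨min c (1 / 2), lt_min hc (by norm_num), fun p N S hp hS g hg => ?_⟩
  have hN0 : (0 : ℝ) ≤ N := Nat.cast_nonneg N
  have hlogp : 0 ≤ Real.log p := Real.log_nonneg (by linarith)
  have hS1 : (1 + ((S \ Finset.Icc (-(N : ℤ)) N).card : ℝ)) * Real.log (N + 2) ≤
      c * Real.log p :=
    hS.trans (mul_le_mul_of_nonneg_right (min_le_left _ _) hlogp)
  have hS2 : (1 + ((S \ Finset.Icc (-(N : ℤ)) N).card : ℝ)) * Real.log (N + 2) ≤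
      1 / 2 * Real.log p :=
    hS.trans (mul_le_mul_of_nonneg_right (min_le_right _ _) hlogp)
  have hL : Real.log 2 ≤ Real.log ((N : ℝ) + 2) := Real.log_le_log (by norm_num) (by linarith)
  have hL0 : 0 < Real.log 2 := Real.log_pos (by norm_num)
  have hm0 : (0 : ℝ) ≤ ((S \ Finset.Icc (-(N : ℤ)) N).card : ℝ) := Nat.cast_nonneg _
  have h3 : Real.log 4 ≤ Real.log p := by
    have e : Real.log 4 = 2 * Real.log 2 := by
      rw [show (4 : ℝ) = 2 ^ 2 by norm_num, Real.log_pow]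
      push_cast
      ring
    rw [e]
    nlinarith
  have hp4 : 4 ≤ p := (Real.log_le_log_iff (by norm_num) (by linarith)).1 h3
  set g' : ℤ → 𝓢(ℂ, ℂ) := fun k => if k ∈ S then g k else 0 with hg'
  have e : ∑ k ∈ S, g' k = ∑ k ∈ S, g k :=
    Finset.sum_congr rfl fun k hk => by simp only [hg', if_pos hk]
  have := Pool.Agent.W4helper65.BQ.FINA2.core hPOL (Pool.Agent.W4helper65.BQ.FINA2.geoS hGEO) hEXI
    (hDEN hSUR hCUT) hTR n hn p hp4 S
    (H p N S hp4 hS1) g' (fun k z a ha => by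
      by_cases hk : k ∈ S
      · simp only [hg', if_pos hk]
        exact hg k hk z a ha
      · simp only [hg', if_neg hk]
        simp)
  rw [e] at this
  exact this

end Pool.Agent.W2helper3.BQ
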