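import Pool.Agent.W2helper3.BQ.MoB
import Pool.Agent.W2helper85.BQ.LC2

set_option autoImplicit false

open MeasureTheory Set Filter Topology
open scoped SchwartzMap ENNReal ContDiff BigOperators Interval

namespace Pool.Agent.W2helper3.BQ

open LC2H85 in
/-- integration of a majorant -/
lemma int_major {E p K : ℝ} (hE : 1 ≤ E) (hp0 : 0 < p) (hK0 : 0 ≤ K) {μ : Measure ℝ}
    (hμ : IsProbabilityMeasure μ) (hMom : Mom μ ≤ ENNReal.ofReal E) {Φ Db : ℝ → ℝ}
    {P : ℝ → ℝ → ℝ} (hΦ : Continuous Φ) (hΦ0 : ∀ u, 0 ≤ Φ u) (hDb : Continuous Db)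
    (hDbc : HasCompactSupport Db) (hDb0 : ∀ u, 0 ≤ Db u)
    (hP : Continuous (Function.uncurry P)) (hP0 : ∀ u v, 0 ≤ P u v)
    (h1 : ∀ u, Φ u ≤ ∫ v, P u v ∂μ)
    (hpt : ∀ u v, P u v ≤
      K / p * (Real.exp (|v| / 8) * (Db (u + v) + 4 * |∫ t in (u + v)..u, Db t|))) :
    ∫ u, Φ u ≤ 4 * E * K / p * ∫ u, Db u := by
  have hJ : ∀ u, ENNReal.ofReal (Φ u) ≤ ∫⁻ v, ENNReal.ofReal (P u v) ∂μ := by
    intro u
    refine (ENNReal.ofReal_le_ofReal (h1 u)).trans ?_
    rw [integral_eq_lintegral_of_nonneg_ae (Eventually.of_forall fun v => hP0 _ _)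
      (hP.comp (Continuous.prodMk_right u)).aestronglyMeasurable]
    exact ENNReal.ofReal_toReal_le
  set D : ℝ≥0∞ := ENNReal.ofReal (∫ u, Db u) with hD
  have hmain : ∫⁻ u, ENNReal.ofReal (Φ u) ≤
      ENNReal.ofReal (K / p) * (4 * (ENNReal.ofReal E * D)) := by
    calc ∫⁻ u, ENNReal.ofReal (Φ u)
        ≤ ∫⁻ u, ∫⁻ v, ENNReal.ofReal (P u v) ∂μ := lintegral_mono hJ
      _ = ∫⁻ v, (∫⁻ u, ENNReal.ofReal (P u v)) ∂μ :=
          lintegral_lintegral_swap (f := fun u v => ENNReal.ofReal (P u v))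
            hP.measurable.ennreal_ofReal.aemeasurable
      _ ≤ ∫⁻ v, ENNReal.ofReal (K / p) * (ENNReal.ofReal (Real.exp (|v| / 8)) *
            (D + 4 * (ENNReal.ofReal |v| * D))) ∂μ := by
          refine lintegral_mono fun v => ?_
          have hb : ∀ u, ENNReal.ofReal (P u v) ≤ ENNReal.ofReal (K / p) *
              (ENNReal.ofReal (Real.exp (|v| / 8)) * (ENNReal.ofReal (Db (u + v)) +
                4 * ENNReal.ofReal |∫ t in (u + v)..u, Db t|)) := by
            intro u
            refine (ENNReal.ofReal_le_ofReal (hpt u v)).trans (le_of_eq ?_)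
            rw [ENNReal.ofReal_mul (by positivity), ENNReal.ofReal_mul (by positivity),
              ENNReal.ofReal_add (hDb0 _) (by positivity), ENNReal.ofReal_mul (by norm_num),
              ENNReal.ofReal_ofNat]
          refine (lintegral_mono hb).trans ?_
          have hmm : Measurable fun u => ENNReal.ofReal (Db (u + v)) :=
            (hDb.comp (continuous_add_const v)).measurable.ennreal_ofReal
          rw [lintegral_const_mul' _ _ ENNReal.ofReal_ne_top,
            lintegral_const_mul' _ _ ENNReal.ofReal_ne_top, lintegral_add_left hmm,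
            lintegral_const_mul' _ _ (by norm_num), lint_shift hDb hDbc hDb0]
          gcongr
          exact lint_abs hDb hDbc hDb0 v
      _ ≤ ∫⁻ v, ENNReal.ofReal (K / p) * (4 * (ENNReal.ofReal ((1 + |v|) *
            Real.exp (|v| / 8)) * D)) ∂μ := by
          refine lintegral_mono fun v => ?_
          gcongr ENNReal.ofReal (K / p) * ?_
          rw [ENNReal.ofReal_mul (by positivity), ENNReal.ofReal_add (by norm_num) (abs_nonneg v),
            ENNReal.ofReal_one]
          have e1 : 4 * ((1 + ENNReal.ofReal |v|) * ENNReal.ofReal (Real.exp (|v| / 8)) * D) =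
              ENNReal.ofReal (Real.exp (|v| / 8)) * (4 * D + 4 * (ENNReal.ofReal |v| * D)) := by
            ring
          rw [e1]
          gcongr
          calc D = 1 * D := (one_mul D).symm
            _ ≤ 4 * D := by gcongr; norm_num
      _ = ENNReal.ofReal (K / p) * (4 * (Mom μ * D)) := by
          rw [lintegral_const_mul' _ _ ENNReal.ofReal_ne_top,
            lintegral_const_mul' _ _ (by norm_num), lintegral_mul_const' _ _ ENNReal.ofReal_ne_top]
          rfl
      _ ≤ ENNReal.ofReal (K / p) * (4 * (ENNReal.ofReal E * D)) := by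
          gcongr
  have hDi : 0 ≤ ∫ u, Db u := integral_nonneg hDb0
  have hfin : ENNReal.ofReal (K / p) * (4 * (ENNReal.ofReal E * D)) =
      ENNReal.ofReal (K / p * (4 * (E * ∫ u, Db u))) := by
    rw [ENNReal.ofReal_mul (by positivity), ENNReal.ofReal_mul (by norm_num),
      ENNReal.ofReal_mul (by linarith), ENNReal.ofReal_ofNat]
  rw [hfin] at hmain
  have h6 : ∫ u, Φ u ≤ K / p * (4 * (E * ∫ u, Db u)) := by
    rw [integral_eq_lintegral_of_nonneg_ae (Eventually.of_forall hΦ0) hΦ.aestronglyMeasurable]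
    exact ENNReal.toReal_le_of_le_ofReal (by positivity) hmain
  refine h6.trans (le_of_eq ?_)
  ring

theorem p_LC3' : P_LC3 := by
  intro hBR hPT hBB C C₁ E p q hC hC₁ hE hq hpq μ hμ hMom F Y x R hF hY hx hsupp hgr hW₁ hW₂
  have hCq : 2 ≤ C * q := by nlinarith
  have hp64 : 64 ≤ p := by nlinarith
  have hp4 : 4 ≤ p := by linarith
  have hp2 : 2 ≤ p := by linarith
  have hp0 : 0 < p := by linarith
  have hqp : q ≤ p := by nlinarith
  have hq0 : 0 < q := by linarith
  have hq1 : 1 ≤ q := by linarith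
  obtain ⟨H, hH⟩ : ∃ H : ℝ → ℝ → ℂ, H = fun u s => F u s - x u := ⟨_, rfl⟩
  obtain ⟨Db, hDb⟩ : ∃ Db : ℝ → ℝ, Db = fun u => av fun s => br p (F u s) (x u) := ⟨_, rfl⟩
  rw [← hH] at hW₁ hW₂
  have hHc : Continuous (Function.uncurry H) := by
    rw [hH]
    exact hF.sub (hx.comp continuous_fst)
  have hHR : ∀ u, R ≤ |u| → ∀ s, H u s = 0 := by
    intro u hu s
    rw [hH]
    simp only [(hsupp u hu).1, ((hsupp u hu).2 _).1, sub_zero]
  have hFt : ∀ u, Continuous (F u) := fun u => hF.comp (Continuous.prodMk_right u)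
  have hYt : ∀ u, Continuous (Y u) := fun u => hY.comp (Continuous.prodMk_right u)
  have hHt : ∀ u, Continuous (H u) := fun u => hHc.comp (Continuous.prodMk_right u)
  have hbr0 : ∀ a b : ℂ, 0 ≤ br p a b := fun a b => le_trans (by positivity) (hBR p hp4 a b).1
  have hDbc : Continuous Db := by
    rw [hDb]
    exact av_cont (br_cont hp2 hF (hx.comp continuous_fst))
  have hDb0 : ∀ u, 0 ≤ Db u := fun u => by
    rw [hDb]; exact av_nonneg fun t => hbr0 _ _
  have hDbs : HasCompactSupport Db := by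
    refine HasCompactSupport.intro (isCompact_Icc (a := -R) (b := R)) fun u hu => ?_
    have hu2 : R ≤ |u| := by
      by_contra h
      rw [not_le, abs_lt] at h
      exact hu ⟨h.1.le, h.2.le⟩
    rw [hDb]
    simp only [(hsupp u hu2).1, ((hsupp u hu2).2 _).1, br_zero hp0]
    exact av_const 0
  obtain ⟨M, hM⟩ : ∃ M : ℝ, M = 32 * C₁ ^ 2 * Real.exp (20 * C * q) := ⟨_, rfl⟩
  have hM0 : 0 < M := by rw [hM]; positivity
  obtain ⟨P, hP⟩ : ∃ P : ℝ → ℝ → ℝ, P = fun u v => M * (‖x u‖ ^ (p - 2) * hr 2 H (u + v) +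
    ‖x u‖ ^ (p - q) * hr q H (u + v) + (1 / 8) ^ p * hr p H (u + v)) := ⟨_, rfl⟩
  have hr2 := hr_cont (q := 2) (by norm_num) hHc
  have hrq := hr_cont hq0 hHc
  have hrp := hr_cont hp0 hHc
  have hPc : Continuous (Function.uncurry P) := by
    rw [hP]
    have c1 : Continuous (fun z : ℝ × ℝ => z.1 + z.2) := continuous_fst.add continuous_snd
    have c2 : Continuous (fun z : ℝ × ℝ => ‖x z.1‖) := (hx.comp continuous_fst).norm
    refine continuous_const.mul (((Continuous.mul ?_ ?_).add (Continuous.mul ?_ ?_)).add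
      (continuous_const.mul ?_))
    · exact c2.rpow_const (fun _ => Or.inr (by linarith))
    · exact hr2.comp c1
    · exact c2.rpow_const (fun _ => Or.inr (by linarith))
    · exact hrq.comp c1
    · exact hrp.comp c1
  have hP0 : ∀ u v, 0 ≤ P u v := by
    intro u v
    rw [hP]
    have h1 := hr_nonneg 2 H (u + v)
    have h2 := hr_nonneg q H (u + v)
    have h3 := hr_nonneg p H (u + v)
    positivity
  -- the bound of the divergence of `Y`
  have hΦP : ∀ u, (av fun t => br p (Y u t) (x u)) ≤ ∫ v, P u v ∂μ := by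
    intro u
    have i2 := shift_int (μ := μ) hr2 (hr_supp (q := 2) (by norm_num) hHR) u
    have iq := shift_int (μ := μ) hrq (hr_supp hq0 hHR) u
    have ip := shift_int (μ := μ) hrp (hr_supp hp0 hHR) u
    have eP : ∫ v, P u v ∂μ = M * (‖x u‖ ^ (p - 2) * (∫ v, hr 2 H (u + v) ∂μ) +
        ‖x u‖ ^ (p - q) * (∫ v, hr q H (u + v) ∂μ) +
        (1 / 8) ^ p * ∫ v, hr p H (u + v) ∂μ) := by
      rw [hP]
      simp only
      have i2' : Integrable (fun v => ‖x u‖ ^ (p - 2) * hr 2 H (u + v)) μ := i2.const_mul _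
      have iq' : Integrable (fun v => ‖x u‖ ^ (p - q) * hr q H (u + v)) μ := iq.const_mul _
      have ip' : Integrable (fun v => (1 / 8) ^ p * hr p H (u + v)) μ := ip.const_mul _
      have i23 : Integrable (fun v => ‖x u‖ ^ (p - 2) * hr 2 H (u + v) +
        ‖x u‖ ^ (p - q) * hr q H (u + v)) μ := i2'.add iq'
      rw [integral_const_mul, integral_add i23 ip', integral_add i2' iq', integral_const_mul,
        integral_const_mul, integral_const_mul]
    obtain ⟨b, hb⟩ : ∃ b : ℝ, b = ∫ v, hr q H (u + v) ∂μ := ⟨_, rfl⟩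
    obtain ⟨b2, hb2⟩ : ∃ b2 : ℝ, b2 = ∫ v, hr 2 H (u + v) ∂μ := ⟨_, rfl⟩
    have hb0 : 0 ≤ b := by rw [hb]; exact integral_nonneg fun v => hr_nonneg _ _ _
    have hb20 : 0 ≤ b2 := by rw [hb2]; exact integral_nonneg fun v => hr_nonneg _ _ _
    have hjen : b ^ (p / q) ≤ ∫ v, hr p H (u + v) ∂μ := by
      have hpq1 : 1 ≤ p / q := by rw [le_div_iff₀ hq0]; linarith
      have h1 := mu_jensen hμ hpq1 hrq (hr_supp hq0 hHR) (hr_nonneg q H) u
      rw [← hb] at h1
      refine h1.trans (integral_mono ?_ ip fun v => ?_)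
      · exact shift_int (A := fun u => hr q H u ^ (p / q))
          (hrq.rpow_const (fun _ => Or.inr (by positivity)))
          ((hr_supp hq0 hHR).comp_left (g := fun y : ℝ => y ^ (p / q))
            (Real.zero_rpow (by positivity))) u
      · show (hr q H (u + v)) ^ (p / q) ≤ hr p H (u + v)
        unfold hr
        refine (Pool.Agent.W2helper75.BQ.jensen
          ((hHt (u + v)).norm.rpow_const (fun _ => Or.inr hq0.le))
          (fun t => Real.rpow_nonneg (norm_nonneg _) _) hpq1).trans (le_of_eq ?_)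
        congr 1
        funext t
        rw [← Real.rpow_mul (norm_nonneg _)]
        congr 1
        field_simp
    have hpt : ∀ t, br p (Y u t) (x u) ≤ ∫ v, P u v ∂μ := by
      intro t
      have h1 := (hBR p hp4 (Y u t) (x u)).2.1
      have h2 := hBB C C₁ p q hC hC₁ hq hpq ‖x u‖ ‖Y u t - x u‖ (b2 ^ (1 / 2 : ℝ)) b
        (norm_nonneg _) (norm_nonneg _) (Real.rpow_nonneg hb20 _) hb0
        (by rw [hb2]; exact hW₁ u t) (by rw [hb]; exact hW₂ u t)
      refine h1.trans (h2.trans ?_)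
      rw [eP, ← hM, ← hb, ← hb2]
      refine mul_le_mul_of_nonneg_left ?_ hM0.le
      have h3 : (b2 ^ (1 / 2 : ℝ)) ^ 2 = b2 := by
        rw [← Real.rpow_natCast, ← Real.rpow_mul hb20]
        norm_num
      rw [h3]
      have h4 := mul_le_mul_of_nonneg_left hjen (show (0 : ℝ) ≤ (1 / 8) ^ p by positivity)
      linarith
    have h5 : (av fun t => br p (Y u t) (x u)) ≤ av fun _ => ∫ v, P u v ∂μ :=
      av_mono (br_cont hp2 (hYt u) continuous_const) continuous_const hpt
    rwa [av_const] at h5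
  -- the pointwise bound of `P`
  have hPb : ∀ u v, P u v ≤ (M * (100 * 8 ^ q)) / p *
      (Real.exp (|v| / 8) * (Db (u + v) + 4 * |∫ t in (u + v)..u, Db t|)) := by
    intro u v
    obtain ⟨G, hG⟩ : ∃ G : ℝ, G = Real.exp (|v| / 8) * (4 / p * |∫ t in (u + v)..u, Db t|) :=
      ⟨_, rfl⟩
    have hgr2 : ‖x u‖ ^ p ≤ Real.exp (|v| / 8) * ‖x (u + v)‖ ^ p + G := by
      have h5 := hgr (u + v) (-v)
      rw [abs_neg, add_neg_cancel_right] at h5
      rw [hG, hDb]
      linarith
    have hpt : ∀ s, ‖x u‖ ^ (p - 2) * ‖H (u + v) s‖ ^ (2 : ℝ) + ‖x u‖ ^ (p - q) *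
        ‖H (u + v) s‖ ^ q + (1 / 8) ^ p * ‖H (u + v) s‖ ^ p ≤
        100 * 8 ^ q * (Real.exp (|v| / 8) / p * br p (F (u + v) s) (x (u + v)) + G) := by
      intro s
      have h6 := hPT p q hp4 hq hqp ‖H (u + v) s‖ ‖x (u + v)‖ ‖x u‖ G
        (br p (F (u + v) s) (x (u + v))) (Real.exp (|v| / 8)) (norm_nonneg _) (norm_nonneg _)
        (norm_nonneg _) (by rw [hG]; positivity) (hbr0 _ _) (Real.one_le_exp (by positivity))
        (by rw [hH]; exact (hBR p hp4 _ _).1) (by rw [hH]; exact (hBR p hp4 _ _).2.2) hgr2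
      rwa [Real.rpow_two]
    have c0 : Continuous (fun s => ‖H (u + v) s‖) := (hHt (u + v)).norm
    have c2 : Continuous (fun s => ‖H (u + v) s‖ ^ (2 : ℝ)) :=
      c0.rpow_const (fun _ => Or.inr (by norm_num))
    have cq : Continuous (fun s => ‖H (u + v) s‖ ^ q) := c0.rpow_const (fun _ => Or.inr hq0.le)
    have cp : Continuous (fun s => ‖H (u + v) s‖ ^ p) := c0.rpow_const (fun _ => Or.inr hp0.le)
    have cb : Continuous (fun s => br p (F (u + v) s) (x (u + v))) :=
      br_cont hp2 (hFt (u + v)) continuous_const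
    have C2 : Continuous (fun s => ‖x u‖ ^ (p - 2) * ‖H (u + v) s‖ ^ (2 : ℝ)) :=
      continuous_const.mul c2
    have Cq : Continuous (fun s => ‖x u‖ ^ (p - q) * ‖H (u + v) s‖ ^ q) := continuous_const.mul cq
    have Cp : Continuous (fun s => (1 / 8) ^ p * ‖H (u + v) s‖ ^ p) := continuous_const.mul cp
    have C23 : Continuous (fun s => ‖x u‖ ^ (p - 2) * ‖H (u + v) s‖ ^ (2 : ℝ) +
      ‖x u‖ ^ (p - q) * ‖H (u + v) s‖ ^ q) := C2.add Cq
    have Cb : Continuous (fun s => Real.exp (|v| / 8) / p * br p (F (u + v) s) (x (u + v))) :=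
      continuous_const.mul cb
    have Cb2 : Continuous (fun s => 100 * 8 ^ q *
      (Real.exp (|v| / 8) / p * br p (F (u + v) s) (x (u + v)) + G)) :=
      continuous_const.mul (Cb.add continuous_const)
    have h7 := av_mono (C23.add Cp) Cb2 hpt
    have h7' : (av fun s => ‖x u‖ ^ (p - 2) * ‖H (u + v) s‖ ^ (2 : ℝ) + ‖x u‖ ^ (p - q) *
        ‖H (u + v) s‖ ^ q + (1 / 8) ^ p * ‖H (u + v) s‖ ^ p) ≤ av fun s => 100 * 8 ^ q *
        (Real.exp (|v| / 8) / p * br p (F (u + v) s) (x (u + v)) + G) := h7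
    rw [av_add C23 Cp, av_add C2 Cq, av_mul_left, av_mul_left, av_mul_left, av_mul_left,
      av_add Cb continuous_const, av_mul_left, av_const] at h7'
    have h8 : P u v = M * (‖x u‖ ^ (p - 2) * (av fun s => ‖H (u + v) s‖ ^ (2 : ℝ)) +
        ‖x u‖ ^ (p - q) * (av fun s => ‖H (u + v) s‖ ^ q) +
        (1 / 8) ^ p * av fun s => ‖H (u + v) s‖ ^ p) := by
      rw [hP]
      rfl
    rw [h8]
    refine (mul_le_mul_of_nonneg_left h7' hM0.le).trans (le_of_eq ?_)
    have h9 : (av fun s => br p (F (u + v) s) (x (u + v))) = Db (u + v) := by rw [hDb]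
    rw [h9, hG]
    field_simp
  have hΦc : Continuous (fun u => av fun t => br p (Y u t) (x u)) :=
    av_cont (g := fun u t => br p (Y u t) (x u)) (br_cont hp2 hY (hx.comp continuous_fst))
  have hfin := int_major hE hp0 (K := M * (100 * 8 ^ q)) (by positivity) hμ hMom hΦc
    (fun u => av_nonneg fun t => hbr0 _ _) hDbc hDbs hDb0 hPc hP0 hΦP hPb
  rw [← hDb]
  refine hfin.trans ?_
  have hDi : 0 ≤ ∫ u, Db u := integral_nonneg hDb0
  refine mul_le_mul_of_nonneg_right ?_ hDi
  refine div_le_div_of_nonneg_right ?_ hp0.le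
  have h8 : (8 : ℝ) ^ q ≤ Real.exp (3 * C * q) := by
    have e8 : (8 : ℝ) ≤ Real.exp 3 := by
      have h := Real.add_one_le_exp (1 : ℝ)
      have e : Real.exp 3 = Real.exp 1 * Real.exp 1 * Real.exp 1 := by
        rw [← Real.exp_add, ← Real.exp_add]
        norm_num
      rw [e]
      nlinarith
    calc (8 : ℝ) ^ q ≤ (Real.exp 3) ^ q := Real.rpow_le_rpow (by norm_num) e8 hq0.le
      _ = Real.exp (3 * q) := by rw [← Real.exp_mul]
      _ ≤ Real.exp (3 * C * q) := Real.exp_le_exp.2 (by nlinarith)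
  have h9 : Real.exp (20 * C * q) * 8 ^ q ≤ Real.exp (23 * C * q) := by
    refine (mul_le_mul_of_nonneg_left h8 (Real.exp_pos _).le).trans (le_of_eq ?_)
    rw [← Real.exp_add]
    congr 1
    ring
  rw [hM]
  have h10 := mul_le_mul_of_nonneg_left h9 (show (0 : ℝ) ≤ 12800 * E * C₁ ^ 2 by positivity)
  linarith

end Pool.Agent.W2helper3.BQ
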