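import Pool.Agent.W2helper3.BQ.MoB

set_option autoImplicit false

open MeasureTheory Set Filter Topology
open scoped SchwartzMap ENNReal ContDiff BigOperators

namespace Pool.Agent.W2helper3.BQ

open Pool.Agent.Y282.RB (Tn Cn)

lemma exp_per (k M : ℤ) (s : ℝ) :
    Complex.exp (((k : ℂ) - M) * ((s + 2 * Real.pi : ℝ) : ℂ) * Complex.I) =
      Complex.exp (((k : ℂ) - M) * s * Complex.I) := by
  have e : ((k : ℂ) - M) * ((s + 2 * Real.pi : ℝ) : ℂ) * Complex.I =
      ((k : ℂ) - M) * s * Complex.I + ((k - M : ℤ) : ℂ) * (2 * Real.pi * Complex.I) := by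
    push_cast
    ring
  rw [e, Complex.exp_add, Complex.exp_int_mul_two_pi_mul_I, mul_one]

theorem core_MO3 (hBR : P_BR) (hLCX : P_LCX3) (hDV : P_DV) (hFO : P_FO) (hIN : P_IN) (hPF : P_PF)
    (hLAP : P_LAP) (hCONV : P_CONV) (hMIX : P_MIX) (hIN2 : P_IN2) (hKER : P_KER) (hNIK : P_NIK)
    (hKX : P_KX) (hKAP : P_KAP) (hKC1 : P_KC1) (hKB : P_KB) (hMASS : P_MASS) (hKC : P_KC)
    (hRR : P_RR) :
    ∀ n : ℕ, 1 ≤ n → ∃ D : ℝ, 0 < D ∧ ∀ (p : ℝ) (N : ℕ) (S : Finset ℤ), 4 ≤ p → 2 * n ≤ N →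
      Finset.Icc (-(N : ℤ)) N ⊆ S →
      D * ((1 + ((S \ Finset.Icc (-(N : ℤ)) N).card : ℝ)) * Real.log (N + 2)) ≤ Real.log p →
      ∀ ζ : ℤ → 𝓢(ℝ, ℂ), (∀ k, HasCompactSupport (ζ k)) →
  ∫ u, (av fun t => ‖∑ k ∈ S,
      Complex.exp (((k : ℝ) - 2 * n) * t * Complex.I) * pol (PB p n k) (ζ k) u‖ ^ p) ≤
    (Cn p n) ^ p * ∫ u, (av fun t => ‖∑ k ∈ S,
      Complex.exp (((k : ℝ) - 2 * n) * t * Complex.I) * pol (PA p n k) (ζ k) u‖ ^ p) := by
  intro n hn
  obtain ⟨c, hc1, -, hc3⟩ := hPF n hn (2 * n)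
  obtain ⟨CK, EK, hCK, hEK, hK⟩ := hKER hIN2 hLAP hCONV hPF n hn
  obtain ⟨μs, hμs, hMs, hμs2⟩ := meas_star hLAP hCONV
  obtain ⟨Cc, hCc⟩ : ∃ Cc : ℝ, Cc = 1 + ∑ i ∈ Finset.range n, |c i| := ⟨_, rfl⟩
  have hCc0 : 1 ≤ Cc := by
    rw [hCc]
    have : 0 ≤ ∑ i ∈ Finset.range n, |c i| := Finset.sum_nonneg fun i _ => abs_nonneg _
    linarith
  obtain ⟨M, hM⟩ : ∃ M : ℝ, M = max CK (9 * Cc) := ⟨_, rfl⟩
  have hM1 : CK ≤ M := by rw [hM]; exact le_max_left _ _
  have hM2 : 9 * Cc ≤ M := by rw [hM]; exact le_max_right _ _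
  have hM0 : 1 ≤ M := hCK.trans hM1
  obtain ⟨E, hE⟩ : ∃ E : ℝ, E = max EK 18 := ⟨_, rfl⟩
  have hE1 : EK ≤ E := by rw [hE]; exact le_max_left _ _
  have hE2 : 18 ≤ E := by rw [hE]; exact le_max_right _ _
  have hE0 : 1 ≤ E := hEK.trans hE1
  obtain ⟨CR, hCR, hRRn⟩ := hRR hKX hKAP hKC1 hKB hMASS hKC n hn
  obtain ⟨ν, hν, hMν, hν2⟩ := hLAP (1 / 4) le_rfl
  obtain ⟨D₀, hD₀⟩ : ∃ D₀ : ℝ, D₀ = 8 * (M * (2 * n + 2) + (2 * n + 1) + 100 + 8 * CR) := ⟨_, rfl⟩
  have hn0 : (1 : ℝ) ≤ n := by exact_mod_cast hn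
  have hD₀1 : 1 ≤ D₀ := by
    rw [hD₀]
    nlinarith [mul_nonneg (show (0 : ℝ) ≤ M by linarith) (show (0 : ℝ) ≤ n by linarith)]
  have hD₀M : 2 * M ≤ D₀ := by
    rw [hD₀]
    nlinarith [mul_nonneg (show (0 : ℝ) ≤ M by linarith) (show (0 : ℝ) ≤ n by linarith)]
  refine ⟨2 * (D₀ + 12800 * E * (64 * M ^ 2)) + 6 + 96 * D₀, by positivity,
    fun p N S hp4 hN2n hsub hp ζ hζ => ?_⟩
  obtain ⟨T, hT⟩ : ∃ T : Finset ℤ, T = S \ Finset.Icc (-(N : ℤ)) N := ⟨_, rfl⟩
  obtain ⟨m, hm⟩ : ∃ m : ℝ, m = (T.card : ℝ) := ⟨_, rfl⟩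
  have hm0 : 0 ≤ m := by rw [hm]; exact Nat.cast_nonneg _
  obtain ⟨L, hL⟩ : ∃ L : ℝ, L = Real.log (N + 2) := ⟨_, rfl⟩
  rw [← hT, ← hm, ← hL] at hp
  have hN0 : (0 : ℝ) ≤ N := Nat.cast_nonneg N
  obtain ⟨q, hq⟩ : ∃ q : ℝ, q = 3 * L := ⟨_, rfl⟩
  obtain ⟨C, hC⟩ : ∃ C : ℝ, C = D₀ * (1 + m) := ⟨_, rfl⟩
  obtain ⟨C₁, hC₁⟩ : ∃ C₁ : ℝ, C₁ = 4 * M * (2 * N + 1 + m) := ⟨_, rfl⟩
  have hL0 : Real.log 2 ≤ L := by
    rw [hL]
    exact Real.log_le_log (by norm_num) (by linarith)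
  have hL1 : Real.log (N + 1) ≤ L := by
    rw [hL]
    exact Real.log_le_log (by linarith) (by linarith)
  have hq2 : 2 ≤ q := by
    have := Real.log_two_gt_d9
    rw [hq]
    linarith
  have hqN : Real.log (N + 1) ≤ q := by
    have := Real.log_two_gt_d9
    rw [hq]
    linarith
  have hq0 : 0 < q := by linarith
  have hq1 : 1 ≤ q := by linarith
  have hpC : C + 12800 * E * C₁ ^ 2 * Real.exp (32 * C * q) ≤ p := by
    rw [hC, hC₁, hq]
    exact num_mo3 hD₀1 hM0 hE0 hm0 hN0 hL (by linarith) hp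
  have hC1 : 1 ≤ C := by
    rw [hC]
    nlinarith
  have hC₁1 : 1 ≤ C₁ := by
    rw [hC₁]
    nlinarith
  have hCpos : 0 < C := by linarith
  have h2nI : (2 * n : ℤ) ∈ Finset.Icc (-(N : ℤ)) N := by
    rw [Finset.mem_Icc]
    constructor
    · have : (0 : ℤ) ≤ n := Int.natCast_nonneg n
      have : (0 : ℤ) ≤ N := Int.natCast_nonneg N
      omega
    · exact_mod_cast hN2n
  have h2nS : (2 * n : ℤ) ∈ S := hsub h2nI
  have hp0 : 0 < p := by linarith
  have hp2 : 2 ≤ p := by linarith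
  have hinv : (0 : ℝ) < 1 / p := by positivity
  obtain ⟨K, hKd⟩ : ∃ K : ℝ, K = Cn p n := ⟨_, rfl⟩
  have hKge : p / 2 ≤ K := by rw [hKd]; exact Cn_ge hp4 hn
  have hK0 : 0 < K := by linarith
  have hKi : 1 / K ≤ 2 / p := by
    rw [div_le_div_iff₀ hK0 hp0]
    linarith
  -- the modes
  obtain ⟨φ, hφ⟩ : ∃ φ : ℤ → 𝓢(ℝ, ℂ), φ = fun k => pol (PA p n k) (ζ k) := ⟨_, rfl⟩
  obtain ⟨γ, hγ⟩ : ∃ γ : ℤ → 𝓢(ℝ, ℂ), γ = fun k => pol (PB p n k) (ζ k) := ⟨_, rfl⟩
  obtain ⟨ξ, hξ⟩ : ∃ ξ : ℤ → ℕ → 𝓢(ℝ, ℂ), ξ = fun k i => pol (PE p n k i) (ζ k) := ⟨_, rfl⟩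
  have hφs : ∀ k, HasCompactSupport (φ k) := fun k => by rw [hφ]; exact cs_pol _ (hζ k)
  have hγs : ∀ k, HasCompactSupport (γ k) := fun k => by rw [hγ]; exact cs_pol _ (hζ k)
  have hξs : ∀ k i, HasCompactSupport (ξ k i) := fun k i => by rw [hξ]; exact cs_pol _ (hζ k)
  have F1 : ∀ u, γ (2 * n) u = φ (2 * n) u + ∑ i ∈ Finset.range n, (c i : ℂ) * ξ (2 * n) i u := by
    intro u
    have e : γ (2 * n) = φ (2 * n) + ∑ i ∈ Finset.range n, c i • ξ (2 * n) i := by
      rw [hγ, hφ, hξ]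
      simp only
      rw [hc1 p hp0, pol_add, pol_sum]
      congr 1
      exact Finset.sum_congr rfl fun i _ => pol_C_mul _ _ _
    rw [e, add_apply, SchwartzMap.sum_apply]
    congr 1
  have F2 : ∀ k i, i < n → ∀ u, deriv (ξ k i) u - (al p n k i : ℂ) * ξ k i u = φ k u := by
    intro k i hi u
    have e : φ k = DD (ξ k i) - al p n k i • ξ k i := by
      rw [hφ, hξ]
      simp only
      rw [PA_eq p n k i hi, pol_fac]
    rw [e]
    rfl
  -- the leading function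
  obtain ⟨x, hx⟩ : ∃ x : ℝ → ℂ, x = fun u => ((-(1 / p) : ℝ) : ℂ) * ξ (2 * n) 0 u := ⟨_, rfl⟩
  have hx1 : ContDiff ℝ 1 x := by
    rw [hx]
    exact contDiff_const.mul (schw_c1 _)
  have hxs : HasCompactSupport x := by
    rw [hx]
    exact (hξs (2 * n) 0).mul_left
  have hdx : ∀ u, deriv x u = ((-(1 / p) : ℝ) : ℂ) * deriv (ξ (2 * n) 0) u := by
    intro u
    rw [hx]
    exact deriv_const_mul _ ((schw_c1 _).differentiable (by norm_num) u)
  have hpc : (p : ℂ) ≠ 0 := Complex.ofReal_ne_zero.2 hp0.ne'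
  have hx2 : ∀ u, φ (2 * n) u = x u - p * deriv x u := by
    intro u
    have h1 := F2 (2 * n) 0 (by omega) u
    have e : al p n (2 * n) 0 = 1 / p := by
      unfold al
      push_cast
      ring
    rw [e] at h1
    rw [hdx u, ← h1, hx]
    push_cast
    field_simp
    ring
  -- the functions
  obtain ⟨F, hF⟩ : ∃ F : ℝ → ℝ → ℂ, F = fun (u t : ℝ) => ∑ k ∈ S,
    Complex.exp (((k : ℂ) - (2 * n : ℤ)) * t * Complex.I) * φ k u := ⟨_, rfl⟩
  obtain ⟨G, hG⟩ : ∃ G : ℝ → ℝ → ℂ, G = fun (u t : ℝ) => ∑ k ∈ S,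
    Complex.exp (((k : ℂ) - (2 * n : ℤ)) * t * Complex.I) * γ k u := ⟨_, rfl⟩
  obtain ⟨Y, hY⟩ : ∃ Y : ℝ → ℝ → ℂ, Y = fun u t => (((-1) ^ n / K : ℝ) : ℂ) * G u t := ⟨_, rfl⟩
  have hFc : Continuous (Function.uncurry F) := by
    rw [hF]
    refine continuous_finsetSum _ fun k _ => ?_
    refine Continuous.mul ?_ ((φ k).continuous.comp continuous_fst)
    fun_prop
  have hGc : Continuous (Function.uncurry G) := by
    rw [hG]
    refine continuous_finsetSum _ fun k _ => ?_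
    refine Continuous.mul ?_ ((γ k).continuous.comp continuous_fst)
    fun_prop
  have hYc : Continuous (Function.uncurry Y) := by
    rw [hY]
    exact continuous_const.mul hGc
  have hFt : ∀ u, Continuous (F u) := fun u => hFc.comp (Continuous.prodMk_right u)
  have hGt : ∀ u, Continuous (G u) := fun u => hGc.comp (Continuous.prodMk_right u)
  -- supports
  have hsupp : ∃ R : ℝ, ∀ u, R ≤ |u| → x u = 0 ∧ ∀ t, F u t = 0 ∧ Y u t = 0 := by
    have hR : ∀ f : ℝ → ℂ, HasCompactSupport f → ∃ R : ℝ, ∀ u, R ≤ |u| → f u = 0 := by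
      intro f hf
      obtain ⟨R, hR⟩ := hf.isCompact.isBounded.subset_closedBall (0 : ℝ)
      refine ⟨R + 1, fun u hu => ?_⟩
      by_contra h0
      have h1 := hR (subset_tsupport f (Function.mem_support.2 h0))
      rw [Metric.mem_closedBall, dist_zero_right, Real.norm_eq_abs] at h1
      linarith
    choose R1 hR1 using fun k => hR (φ k) (hφs k)
    choose R2 hR2 using fun k => hR (γ k) (hγs k)
    obtain ⟨R3, hR3⟩ := hR x hxs
    refine ⟨max R3 (max (S.sup' ⟨_, h2nS⟩ R1) (S.sup' ⟨_, h2nS⟩ R2)), fun u hu => ?_⟩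
    have e1 : ∀ k ∈ S, φ k u = 0 := fun k hk => hR1 k u
      (((Finset.le_sup' R1 hk).trans ((le_max_left _ _).trans (le_max_right _ _))).trans hu)
    have e2 : ∀ k ∈ S, γ k u = 0 := fun k hk => hR2 k u
      (((Finset.le_sup' R2 hk).trans ((le_max_right _ _).trans (le_max_right _ _))).trans hu)
    refine ⟨hR3 u ((le_max_left _ _).trans hu), fun t => ⟨?_, ?_⟩⟩
    · rw [hF]
      exact Finset.sum_eq_zero fun k hk => by rw [e1 k hk, mul_zero]
    · rw [hY, hG]
      simp only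
      rw [Finset.sum_eq_zero fun k hk => by rw [e2 k hk, mul_zero], mul_zero]
  obtain ⟨R, hR⟩ := hsupp
  -- the average
  have mode : ∀ (ψ : ℤ → 𝓢(ℝ, ℂ)) (j : ℤ), j ∈ S → ∀ u : ℝ,
      avc (fun t => Complex.exp (-((j : ℂ) - (2 * n : ℤ)) * t * Complex.I) *
        ∑ k ∈ S, Complex.exp (((k : ℂ) - (2 * n : ℤ)) * t * Complex.I) * ψ k u) = ψ j u :=
    fun ψ j hj u => avc_mode S (2 * n) (fun k => ψ k u) j hj
  have mode0 : ∀ (ψ : ℤ → 𝓢(ℝ, ℂ)) (u : ℝ),
      avc (fun t => ∑ k ∈ S, Complex.exp (((k : ℂ) - (2 * n : ℤ)) * t * Complex.I) * ψ k u) =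
        ψ (2 * n) u := by
    intro ψ u
    rw [← mode ψ (2 * n) h2nS u]
    congr 1
    funext t
    simp
  have avF : ∀ u, avc (F u) = x u - p * deriv x u := by
    intro u
    rw [← hx2 u, hF]
    exact mode0 φ u
  -- A
  obtain ⟨A, hA⟩ : ∃ A : ℝ → ℝ, A = fun u => av fun t => ‖F u t - x u‖ := ⟨_, rfl⟩
  have hAc : Continuous A := by
    rw [hA]
    refine av_cont ?_
    exact (hFc.sub (hx1.continuous.comp continuous_fst)).norm
  have hA0 : ∀ u, 0 ≤ A u := fun u => by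
    rw [hA]; exact av_nonneg fun t => norm_nonneg _
  have hAs : HasCompactSupport A := by
    refine HasCompactSupport.intro (isCompact_Icc (a := -R) (b := R)) fun u hu => ?_
    have hu2 : R ≤ |u| := by
      by_contra h
      rw [not_le, abs_lt] at h
      exact hu ⟨h.1.le, h.2.le⟩
    rw [hA]
    simp only [(hR u hu2).1, ((hR u hu2).2 _).1, sub_zero, norm_zero]
    exact av_const 0
  -- modes are bounded by A
  have bφ : ∀ k ∈ S, ∀ u, ‖φ k u - (if k = 2 * n then x u else 0)‖ ≤ A u := by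
    intro k hk u
    have e : φ k u - (if k = 2 * n then x u else 0) =
        avc (fun t => Complex.exp (-((k : ℂ) - (2 * n : ℤ)) * t * Complex.I) * (F u t - x u)) := by
      have e1 : (fun t : ℝ => Complex.exp (-((k : ℂ) - (2 * n : ℤ)) * t * Complex.I) *
          (F u t - x u)) = fun t : ℝ =>
          Complex.exp (-((k : ℂ) - (2 * n : ℤ)) * t * Complex.I) * F u t -
          x u * Complex.exp (((2 * n - k : ℤ) : ℂ) * t * Complex.I) := by
        funext t
        rw [mul_sub]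
        congr 1
        rw [mul_comm]
        congr 2
        push_cast
        ring
      have c1 : Continuous (fun t : ℝ =>
          Complex.exp (-((k : ℂ) - (2 * n : ℤ)) * t * Complex.I) * F u t) :=
        (exp_cont _).mul (hFt u)
      have c2 : Continuous (fun t : ℝ =>
          x u * Complex.exp (((2 * n - k : ℤ) : ℂ) * t * Complex.I)) :=
        continuous_const.mul (exp_cont _)
      rw [e1, avc_sub c1 c2, avc_mul_left, avc_exp]
      have e2 : avc (fun t : ℝ => Complex.exp (-((k : ℂ) - (2 * n : ℤ)) * t * Complex.I) * F u t) =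
          φ k u := by
        rw [hF]
        exact mode φ k hk u
      rw [e2]
      congr 1
      by_cases h : k = 2 * n
      · rw [if_pos h, if_pos (by omega), mul_one]
      · rw [if_neg h, if_neg (by omega), mul_zero]
    rw [e]
    refine (norm_avc_le _).trans (le_of_eq ?_)
    rw [hA]
    simp only
    congr 1
    funext t
    rw [norm_mul]
    have e3 : (-((k : ℂ) - (2 * n : ℤ))) = ((-((k : ℝ) - (2 * n : ℤ)) : ℝ) : ℂ) := by
      push_cast
      ring
    rw [e3, norm_exp_I, one_mul]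
  -- the lower order terms
  obtain ⟨η, hη⟩ : ∃ η : ℕ → ℝ → ℂ, η = fun i u => ξ (2 * n) i u +
    ((1 / (1 / p + i) : ℝ) : ℂ) * x u := ⟨_, rfl⟩
  have al2 : ∀ i : ℕ, al p n (2 * n) i = 1 / p + i := by
    intro i
    unfold al
    push_cast
    ring
  have bη : ∀ i, 1 ≤ i → i < n → ∀ u, ‖η i u‖ ≤ II A u := by
    intro i hi1 hin u
    have hi : (1 : ℝ) ≤ i := by exact_mod_cast hi1
    have hα : (0 : ℝ) < 1 / p + i := by linarith
    obtain ⟨α, hαe⟩ : ∃ α : ℝ, α = 1 / p + i := ⟨_, rfl⟩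
    have hα1 : 1 ≤ α := by rw [hαe]; linarith
    have hα0 : (α : ℂ) ≠ 0 := Complex.ofReal_ne_zero.2 (by linarith)
    have hη1 : ContDiff ℝ 1 (η i) := by
      rw [hη]
      exact (schw_c1 _).add (contDiff_const.mul hx1)
    have hηs : HasCompactSupport (η i) := by
      rw [hη]
      exact (hξs (2 * n) i).add hxs.mul_left
    have hde : ∀ u, deriv (η i) u - α * η i u = ((i / α : ℝ) : ℂ) * (φ (2 * n) u - x u) := by
      intro u
      have h1 := F2 (2 * n) i hin u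
      rw [al2, ← hαe] at h1
      have h2 : deriv (η i) u = deriv (ξ (2 * n) i) u + ((1 / α : ℝ) : ℂ) * deriv x u := by
        rw [hη, hαe]
        have d1 : DifferentiableAt ℝ (ξ (2 * n) i : ℝ → ℂ) u :=
          (schw_c1 _).differentiable (by norm_num) u
        have d2 : DifferentiableAt ℝ (fun u => ((1 / (1 / p + i) : ℝ) : ℂ) * x u) u :=
          (contDiff_const.mul hx1).differentiable (by norm_num) u
        have d3 := deriv_add d1 d2
        have d4 := deriv_const_mul ((1 / (1 / p + i) : ℝ) : ℂ)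
          (hx1.differentiable (by norm_num) u)
        rw [d4] at d3
        exact d3
      have h3 : η i u = ξ (2 * n) i u + ((1 / α : ℝ) : ℂ) * x u := by rw [hη, hαe]
      have h4 := hx2 u
      have h5 : (i : ℂ) = α - 1 / p := by
        rw [hαe]
        push_cast
        ring
      rw [h2, h3]
      push_cast
      rw [h5]
      have h6 : deriv x u = (x u - φ (2 * n) u) / p := by
        rw [h4]
        field_simp
        ring
      rw [h6]
      have h7 : deriv (ξ (2 * n) i) u = φ (2 * n) u + α * ξ (2 * n) i u := by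
        rw [← h1]
        ring
      rw [h7]
      field_simp
      ring
    have hgc : Continuous (fun u => ((i / α : ℝ) : ℂ) * (φ (2 * n) u - x u)) :=
      continuous_const.mul ((φ (2 * n)).continuous.sub hx1.continuous)
    refine (hIN α (by rw [abs_of_nonneg (by linarith)]; linarith) (η i)
      (fun u => ((i / α : ℝ) : ℂ) * (φ (2 * n) u - x u)) hη1 hηs hgc hde u).trans ?_
    have hgs : HasCompactSupport (fun u => ‖((i / α : ℝ) : ℂ) * (φ (2 * n) u - x u)‖) :=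
      ((hφs (2 * n)).sub hxs).mul_left.norm
    refine II_mono hgc.norm hgs hAc hAs (fun u => ?_) u
    have h8 := bφ (2 * n) h2nS u
    rw [if_pos rfl] at h8
    rw [norm_mul, Complex.norm_real]
    have h9 : ‖(i / α : ℝ)‖ ≤ 1 := by
      rw [Real.norm_of_nonneg (by positivity), div_le_one (by linarith), hαe]
      linarith
    calc ‖(i / α : ℝ)‖ * ‖φ (2 * n) u - x u‖ ≤ 1 * A u :=
          mul_le_mul h9 h8 (norm_nonneg _) (by norm_num)
      _ = A u := one_mul _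
  -- the decomposition of the mode 2n
  have hcst := hc3 rfl p (by linarith)
  rw [← hKd] at hcst
  obtain ⟨n', rfl⟩ : ∃ n', n = n' + 1 := ⟨n - 1, by omega⟩
  have dec : ∀ u, γ (2 * (n' + 1 : ℕ)) u - (((-1) ^ (n' + 1) * K : ℝ) : ℂ) * x u =
      (φ (2 * (n' + 1 : ℕ)) u - x u) +
      ∑ i ∈ Finset.range n', (c (i + 1) : ℂ) * η (i + 1) u := by
    intro u
    rw [F1, hcst, Finset.sum_range_succ', Finset.sum_range_succ']
    have e0 : ξ (2 * (n' + 1 : ℕ)) 0 u = -(p : ℂ) * x u := by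
      rw [hx]
      push_cast
      field_simp
    rw [e0, al2 0]
    have e1 : ∀ i ∈ Finset.range n', (c (i + 1) : ℂ) * η (i + 1) u =
        (c (i + 1) : ℂ) * ξ (2 * (n' + 1 : ℕ)) (i + 1) u +
        ((c (i + 1) / al p (n' + 1) (2 * (n' + 1 : ℕ)) (i + 1) : ℝ) : ℂ) *
          x u := by
      intro i _
      rw [al2, hη]
      push_cast
      ring
    rw [Finset.sum_congr rfl e1, Finset.sum_add_distrib, ← Finset.sum_mul]
    push_cast
    have hp' : (p : ℂ) ≠ 0 := hpc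
    field_simp
    ring
  have hI0 : ∀ u, 0 ≤ II A u := II_nonneg hA0
  have hshift : ∀ (μ : Measure ℝ) [IsProbabilityMeasure μ] (f : ℝ → ℝ), Continuous f →
      HasCompactSupport f → (∀ u, f u ≤ A u) → ∀ u, ∫ v, f (u + v) ∂μ ≤ ∫ v, A (u + v) ∂μ := by
    intro μ _ f hf hfs hfA u
    exact integral_mono (shift_int hf hfs u) (shift_int hAc hAs u) fun v => hfA (u + v)
  have hIA0 : ∀ (μ : Measure ℝ) (u : ℝ), 0 ≤ ∫ v, A (u + v) ∂μ := fun μ u =>
    integral_nonneg fun v => hA0 _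
  have bγ : ∀ k ∈ S, ∃ μ : Measure ℝ, (IsProbabilityMeasure μ ∧ Mom μ ≤ ENNReal.ofReal E) ∧
      ∀ u, ‖γ k u - (if k = 2 * (n' + 1 : ℕ) then
      (((-1) ^ (n' + 1) * K : ℝ) : ℂ) * x u else 0)‖ ≤ M * ∫ v, A (u + v) ∂μ := by
    intro k hk
    by_cases h : k = 2 * (n' + 1 : ℕ)
    · refine ⟨μs, ⟨hμs, hMs.trans (ENNReal.ofReal_le_ofReal hE2)⟩, fun u => ?_⟩
      rw [if_pos h]
      subst h
      rw [dec u]
      have h8 := bφ _ hk u
      rw [if_pos rfl] at h8
      refine (norm_add_le _ _).trans ?_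
      have h9 : ‖∑ i ∈ Finset.range n', (c (i + 1) : ℂ) * η (i + 1) u‖ ≤
          (∑ i ∈ Finset.range n', |c (i + 1)|) * II A u := by
        refine (norm_sum_le _ _).trans ?_
        rw [Finset.sum_mul]
        refine Finset.sum_le_sum fun i hi => ?_
        rw [norm_mul, Complex.norm_real, Real.norm_eq_abs]
        exact mul_le_mul_of_nonneg_left
          (bη (i + 1) (by omega) (by have := Finset.mem_range.1 hi; omega) u) (abs_nonneg _)
      have h10 : (∑ i ∈ Finset.range n', |c (i + 1)|) ≤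
          ∑ i ∈ Finset.range (n' + 1), |c i| := by
        rw [Finset.sum_range_succ']
        linarith [abs_nonneg (c 0)]
      have h11 : 0 ≤ ∑ i ∈ Finset.range (n' + 1), |c i| :=
        Finset.sum_nonneg fun i _ => abs_nonneg _
      have h12 : A u + II A u = 9 * ∫ v, A (u + v) ∂μs := hμs2 A hAc hAs u
      have h13 : ‖φ (2 * (n' + 1 : ℕ)) u - x u‖ +
          ‖∑ i ∈ Finset.range n', (c (i + 1) : ℂ) * η (i + 1) u‖ ≤ Cc * (A u + II A u) := by
        rw [hCc]
        nlinarith [mul_le_mul_of_nonneg_right h10 (hI0 u), hA0 u, hI0 u,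
          mul_nonneg h11 (hA0 u)]
      refine h13.trans ?_
      rw [h12]
      have h14 := mul_le_mul_of_nonneg_right hM2 (hIA0 μs u)
      linarith
    · obtain ⟨μ, hμ, hMμ, hμ2⟩ := hK p hp4 k h
      refine ⟨μ, ⟨hμ, hMμ.trans (ENNReal.ofReal_le_ofReal hE1)⟩, fun u => ?_⟩
      rw [if_neg h, sub_zero]
      have h1 := hμ2 (ζ k) (hζ k) u
      have h2 : ‖γ k u‖ ≤ CK * ∫ v, ‖φ k (u + v)‖ ∂μ := by
        rw [hγ, hφ]
        exact h1
      refine h2.trans ?_
      have h3 := hshift μ (fun u => ‖φ k u‖) (φ k).continuous.norm (hφs k).norm (fun u => by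
        have h8 := bφ _ hk u
        rw [if_neg h, sub_zero] at h8
        exact h8) u
      exact mul_le_mul hM1 h3 (integral_nonneg fun v => norm_nonneg _) (by linarith)
  choose! μ hμ1 hμ2 using bγ
  obtain ⟨ρS, hρS, hMρS, hρS2⟩ := hMIX S μ E ⟨_, h2nS⟩ hE0 hμ1
  -- the special modes
  obtain ⟨I₀, hI₀⟩ : ∃ I₀ : Finset ℤ, I₀ = Finset.Icc 0 (2 * ((n' + 1 : ℕ) : ℤ)) := ⟨_, rfl⟩
  obtain ⟨J, hJ⟩ : ∃ J : Finset ℤ, J = T ∪ I₀ := ⟨_, rfl⟩
  have hI₀I : I₀ ⊆ Finset.Icc (-(N : ℤ)) N := by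
    intro k hk
    rw [hI₀, Finset.mem_Icc] at hk
    rw [Finset.mem_Icc] at h2nI ⊢
    constructor <;> omega
  have hTS : T ⊆ S := by
    rw [hT]
    exact Finset.sdiff_subset
  have hJS : J ⊆ S := by
    rw [hJ]
    exact Finset.union_subset hTS (hI₀I.trans hsub)
  have hI₀c : (I₀.card : ℝ) = 2 * ((n' + 1 : ℕ) : ℝ) + 1 := by
    have h1 : I₀.card = 2 * (n' + 1) + 1 := by
      rw [hI₀, Int.card_Icc]
      omega
    rw [h1]
    push_cast
    ring
  have hJc : (J.card : ℝ) ≤ m + (2 * ((n' + 1 : ℕ) : ℝ) + 1) := by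
    have h1 : J.card ≤ T.card + I₀.card := by
      rw [hJ]
      exact Finset.card_union_le _ _
    have h2 : (J.card : ℝ) ≤ (T.card : ℝ) + (I₀.card : ℝ) := by exact_mod_cast h1
    rw [hI₀c, ← hm] at h2
    exact h2
  have hJne : J.Nonempty := by
    refine ⟨0, ?_⟩
    rw [hJ, hI₀]
    refine Finset.mem_union_right _ (Finset.mem_Icc.2 ⟨le_rfl, by omega⟩)
  obtain ⟨ρJ, hρJ, hMρJ, hρJ2⟩ := hMIX J μ E hJne hE0 (fun j hj => hμ1 j (hJS hj))
  -- one measure for everything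
  obtain ⟨ρ, hρ, hMρ, hρ2⟩ := hMIX {0, 1, 2, 3} (fun j => if j = 0 then Measure.dirac 0 else
    if j = 1 then ρS else if j = 2 then ρJ else ν) E ⟨0, by simp⟩ hE0 (by
      intro j hj
      simp only [Finset.mem_insert, Finset.mem_singleton] at hj
      rcases hj with rfl | rfl | rfl | rfl
      · exact ⟨by simpa using (inferInstance : IsProbabilityMeasure (Measure.dirac (0 : ℝ))),
          by simpa using mom_dirac.trans (ENNReal.ofReal_le_ofReal hE0)⟩
      · exact ⟨by simpa using hρS, by simpa using hMρS⟩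
      · exact ⟨by simpa using hρJ, by simpa using hMρJ⟩
      · exact ⟨by simpa using hν, by simpa using hMν.trans (ENNReal.ofReal_le_ofReal hE2)⟩)
  have hρ4 : ∀ f : ℝ → ℝ, Continuous f → HasCompactSupport f → (∀ u, 0 ≤ f u) → ∀ u : ℝ,
      f u ≤ 4 * ∫ v, f (u + v) ∂ρ ∧ ∫ v, f (u + v) ∂ρS ≤ 4 * ∫ v, f (u + v) ∂ρ ∧
      ∫ v, f (u + v) ∂ρJ ≤ 4 * ∫ v, f (u + v) ∂ρ ∧ ∫ v, f (u + v) ∂ν ≤ 4 * ∫ v, f (u + v) ∂ρ := by
    intro f hf hs h0 u
    have h1 := hρ2 f hf hs u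
    rw [Finset.sum_insert (by decide), Finset.sum_insert (by decide),
      Finset.sum_insert (by decide), Finset.sum_singleton] at h1
    have hcard : (({0, 1, 2, 3} : Finset ℤ).card : ℝ) = 4 := by
      have : ({0, 1, 2, 3} : Finset ℤ).card = 4 := by decide
      rw [this]
      norm_num
    rw [hcard] at h1
    simp only [if_true, if_false, one_ne_zero, OfNat.ofNat_ne_zero, reduceIte] at h1
    have e1 : ((2 : ℤ) = 1) = False := by simp
    have e2 : ((3 : ℤ) = 1) = False := by simp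
    have e3 : ((3 : ℤ) = 2) = False := by simp
    simp only [e1, e2, e3, if_false] at h1
    rw [integral_dirac, add_zero] at h1
    have g0 : ∀ μ : Measure ℝ, 0 ≤ ∫ v, f (u + v) ∂μ := fun μ => integral_nonneg fun v => h0 _
    have g1 := g0 ρS
    have g2 := g0 ρJ
    have g3 := g0 ν
    have g4 := h0 u
    refine ⟨by linarith, by linarith, by linarith, by linarith⟩
  -- the function `H`
  obtain ⟨H, hH⟩ : ∃ H : ℝ → ℝ → ℂ, H = fun u s => F u s - x u := ⟨_, rfl⟩
  have hHc : Continuous (Function.uncurry H) := by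
    rw [hH]
    exact hFc.sub (hx1.continuous.comp continuous_fst)
  have hHR : ∀ u, R ≤ |u| → ∀ s, H u s = 0 := by
    intro u hu s
    rw [hH]
    simp only [(hR u hu).1, ((hR u hu).2 _).1, sub_zero]
  have hAH : ∀ u, A u = av fun t => ‖H u t‖ := by
    intro u
    rw [hA, hH]
  obtain ⟨h, hh⟩ : ∃ h : ℤ → ℝ → ℂ, h = fun k u => φ k u - (if k = 2 * ((n' + 1 : ℕ) : ℤ) then
    x u else 0) := ⟨_, rfl⟩
  have hhb : ∀ k ∈ S, ∀ u, ‖h k u‖ ≤ A u := by
    intro k hk u
    rw [hh]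
    exact bφ k hk u
  have hhc : ∀ k, Continuous (h k) := by
    intro k
    rw [hh]
    refine (φ k).continuous.sub ?_
    by_cases hk : k = 2 * ((n' + 1 : ℕ) : ℤ)
    · simp only [if_pos hk]
      exact hx1.continuous
    · simp only [if_neg hk]
      exact continuous_const
  have hHsum : ∀ u t, H u t = ∑ k ∈ S,
      Complex.exp (((k : ℂ) - (2 * (n' + 1 : ℕ) : ℤ)) * t * Complex.I) * h k u := by
    intro u t
    rw [hH, hh, hF]
    simp only [mul_sub]
    rw [Finset.sum_sub_distrib]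
    congr 1
    rw [Finset.sum_eq_single (2 * ((n' + 1 : ℕ) : ℤ))]
    · rw [if_pos rfl]
      simp
    · intro k _ hk
      rw [if_neg hk, mul_zero]
    · intro h
      exact absurd h2nS h
  obtain ⟨H₀, hH₀⟩ : ∃ H₀ : ℝ → ℝ → ℂ, H₀ = fun (u t : ℝ) => ∑ k ∈ Finset.Icc (-(N : ℤ)) N,
    Complex.exp (((k : ℂ) - (2 * (n' + 1 : ℕ) : ℤ)) * t * Complex.I) * h k u := ⟨_, rfl⟩
  have hH₀c : Continuous (Function.uncurry H₀) := by
    rw [hH₀]
    refine continuous_finsetSum _ fun k _ => ?_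
    refine Continuous.mul ?_ ((hhc k).comp continuous_fst)
    fun_prop
  have hH₀R : ∀ u, R ≤ |u| → ∀ s, H₀ u s = 0 := by
    intro u hu s
    rw [hH₀]
    refine Finset.sum_eq_zero fun k hk => ?_
    have h1 := hhb k (hsub hk) u
    have h2 : A u = 0 := by
      rw [hAH]
      simp only [hHR u hu, norm_zero]
      exact av_const 0
    rw [h2] at h1
    rw [norm_le_zero_iff.1 h1, mul_zero]
  have hH₀p : ∀ u s, H₀ u (s + 2 * Real.pi) = H₀ u s := by
    intro u s
    rw [hH₀]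
    refine Finset.sum_congr rfl fun k _ => ?_
    rw [exp_per]
  have hexpn : ∀ (k : ℤ) (t : ℝ),
      ‖Complex.exp (((k : ℂ) - (2 * (n' + 1 : ℕ) : ℤ)) * t * Complex.I)‖ = 1 := by
    intro k t
    have e3 : ((k : ℂ) - (2 * (n' + 1 : ℕ) : ℤ)) =
        ((((k : ℝ) - (2 * (n' + 1 : ℕ) : ℤ)) : ℝ) : ℂ) := by
      push_cast
      ring
    rw [e3, norm_exp_I]
  have hH₀H : ∀ u t, ‖H₀ u t‖ ≤ ‖H u t‖ + m * av fun t => ‖H u t‖ := by
    intro u t
    have e1 : H₀ u t = H u t - ∑ k ∈ T,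
        Complex.exp (((k : ℂ) - (2 * (n' + 1 : ℕ) : ℤ)) * t * Complex.I) * h k u := by
      rw [hHsum, hH₀, hT, ← Finset.sum_sdiff hsub]
      simp only
      ring
    rw [e1]
    refine (norm_sub_le _ _).trans ?_
    refine add_le_add le_rfl ?_
    refine (norm_sum_le _ _).trans ?_
    rw [hm, ← hAH]
    have h1 : ∀ k ∈ T, ‖Complex.exp (((k : ℂ) - (2 * (n' + 1 : ℕ) : ℤ)) * t * Complex.I) *
        h k u‖ ≤ A u := by
      intro k hk
      rw [norm_mul, hexpn, one_mul]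
      exact hhb k (hTS hk) u
    refine (Finset.sum_le_sum h1).trans ?_
    rw [Finset.sum_const, nsmul_eq_mul]
  have hpert : ∀ u, hr q H₀ u ≤ (1 + m) ^ q * hr q H u := fun u =>
    hr_pert hq1 hm0 hHc hH₀c (hH₀H u)
  have hrc := hr_cont hq0 hHc
  have hrs := hr_supp hq0 hHR
  have hr0 := hr_nonneg q H
  have h1m : 0 < 1 + m := by linarith
  have hroot : ∀ y : ℝ, 0 ≤ y → ((1 + m) ^ q * y) ^ (1 / q) = (1 + m) * y ^ (1 / q) := by
    intro y hy
    rw [Real.mul_rpow (by positivity) hy, ← Real.rpow_mul h1m.le, mul_one_div_cancel hq0.ne',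
      Real.rpow_one]
  have hroot4 : ∀ a y : ℝ, 1 ≤ a → 0 ≤ y → (a * y) ^ (1 / q) ≤ a * y ^ (1 / q) := by
    intro a y ha hy
    rw [Real.mul_rpow (by linarith) hy]
    refine mul_le_mul_of_nonneg_right ?_ (Real.rpow_nonneg hy _)
    calc a ^ (1 / q) ≤ a ^ (1 : ℝ) :=
          Real.rpow_le_rpow_of_exponent_le ha (by rw [div_le_one hq0]; exact hq1)
      _ = a := Real.rpow_one a
  -- `Z` is the final bound
  obtain ⟨Z, hZ⟩ : ∃ Z : ℝ → ℝ, Z = fun u => (∫ v, hr q H (u + v) ∂ρ) ^ (1 / q) := ⟨_, rfl⟩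
  have hZ0 : ∀ u, 0 ≤ Z u := fun u => by
    rw [hZ]
    exact Real.rpow_nonneg (integral_nonneg fun v => hr0 _) _
  have hZ1 : ∀ u, (hr q H u) ^ (1 / q) ≤ 4 * Z u := by
    intro u
    have h1 := (hρ4 _ hrc hrs hr0 u).1
    refine (Real.rpow_le_rpow (hr0 u) h1 (by positivity)).trans ?_
    rw [hZ]
    exact hroot4 4 _ (by norm_num) (integral_nonneg fun v => hr0 _)
  have hZJ : ∀ u, (∫ v, hr q H (u + v) ∂ρJ) ^ (1 / q) ≤ 4 * Z u := by
    intro u
    have h1 := (hρ4 _ hrc hrs hr0 u).2.2.1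
    refine (Real.rpow_le_rpow (integral_nonneg fun v => hr0 _) h1 (by positivity)).trans ?_
    rw [hZ]
    exact hroot4 4 _ (by norm_num) (integral_nonneg fun v => hr0 _)
  have hZν : ∀ u, (∫ v, hr q H (u + v) ∂ν) ^ (1 / q) ≤ 4 * Z u := by
    intro u
    have h1 := (hρ4 _ hrc hrs hr0 u).2.2.2
    refine (Real.rpow_le_rpow (integral_nonneg fun v => hr0 _) h1 (by positivity)).trans ?_
    rw [hZ]
    exact hroot4 4 _ (by norm_num) (integral_nonneg fun v => hr0 _)
  obtain ⟨g, hg⟩ : ∃ g : ℤ → ℝ → ℂ, g = fun k u => γ k u - (if k = 2 * ((n' + 1 : ℕ) : ℤ) then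
      (((-1) ^ (n' + 1) * K : ℝ) : ℂ) * x u else 0) := ⟨_, rfl⟩
  have hgb : ∀ k ∈ S, ∀ u, ‖g k u‖ ≤ M * ∫ v, A (u + v) ∂(μ k) := by
    intro k hk u
    rw [hg]
    exact hμ2 k hk u
  have hGsum : ∀ u t, G u t - (((-1) ^ (n' + 1) * K : ℝ) : ℂ) * x u = ∑ k ∈ S,
      Complex.exp (((k : ℂ) - (2 * (n' + 1 : ℕ) : ℤ)) * t * Complex.I) * g k u := by
    intro u t
    rw [hg, hG]
    simp only [mul_sub]
    rw [Finset.sum_sub_distrib]
    congr 1
    rw [Finset.sum_eq_single (2 * ((n' + 1 : ℕ) : ℤ))]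
    · rw [if_pos rfl]
      simp
    · intro k _ hk
      rw [if_neg hk, mul_zero]
    · intro h
      exact absurd h2nS h
  -- the bound for a set of modes
  have hset : ∀ (U : Finset ℤ) (ρ' : Measure ℝ), U ⊆ S → (∀ f : ℝ → ℝ, Continuous f →
      HasCompactSupport f → ∀ u : ℝ,
      ∑ j ∈ U, (∫ v, f (u + v) ∂(μ j)) = (U.card : ℝ) * ∫ v, f (u + v) ∂ρ') → ∀ u t : ℝ,
      ‖∑ k ∈ U, Complex.exp (((k : ℂ) - (2 * (n' + 1 : ℕ) : ℤ)) * t * Complex.I) * g k u‖ ≤
        M * ((U.card : ℝ) * ∫ v, A (u + v) ∂ρ') := by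
    intro U ρ' hU hρ' u t
    refine (norm_sum_le _ _).trans ?_
    rw [← hρ' A hAc hAs u, Finset.mul_sum]
    refine Finset.sum_le_sum fun k hk => ?_
    rw [norm_mul, hexpn, one_mul]
    exact hgb k (hU hk) u
  -- the decomposition
  obtain ⟨P₀, hP₀⟩ : ∃ P₀ : Finset ℤ, P₀ = (Finset.Icc (-(N : ℤ)) N).filter
    (fun k => 2 * ((n' + 1 : ℕ) : ℤ) < k ∨ k < 0) := ⟨_, rfl⟩
  have hP₀c : (Finset.Icc (-(N : ℤ)) N).filter
      (fun k => ¬ (2 * ((n' + 1 : ℕ) : ℤ) < k ∨ k < 0)) = I₀ := by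
    ext k
    rw [Finset.mem_filter, hI₀, Finset.mem_Icc, Finset.mem_Icc]
    rw [Finset.mem_Icc] at h2nI
    constructor
    · rintro ⟨h1, h2⟩
      constructor <;> omega
    · rintro ⟨h1, h2⟩
      refine ⟨⟨by omega, by omega⟩, by omega⟩
  have hsplitI : ∀ f : ℤ → ℂ, ∑ k ∈ Finset.Icc (-(N : ℤ)) N, f k =
      ∑ k ∈ P₀, f k + ∑ k ∈ I₀, f k := by
    intro f
    rw [hP₀, ← hP₀c]
    exact (Finset.sum_filter_add_sum_filter_not _ _ _).symm
  have hTI : Disjoint T I₀ := by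
    rw [Finset.disjoint_left]
    intro k hk hk2
    rw [hT, Finset.mem_sdiff] at hk
    exact hk.2 (hI₀I hk2)
  have hsplitS : ∀ f : ℤ → ℂ, ∑ k ∈ S, f k = ∑ k ∈ P₀, f k + ∑ k ∈ J, f k := by
    intro f
    rw [← Finset.sum_sdiff hsub, ← hT, hsplitI, hJ, Finset.sum_union hTI]
    ring
  have hqb : ∀ u t, ‖G u t - (((-1) ^ (n' + 1) * K : ℝ) : ℂ) * x u‖ ≤ C * q / 2 * Z u := by
    intro u t
    have e1 : G u t - (((-1) ^ (n' + 1) * K : ℝ) : ℂ) * x u =
        (∑ k ∈ P₀, Complex.exp (((k : ℂ) - (2 * (n' + 1 : ℕ) : ℤ)) * t * Complex.I) *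
          (γ k u - φ k u)) + H₀ u t -
        (∑ k ∈ I₀, Complex.exp (((k : ℂ) - (2 * (n' + 1 : ℕ) : ℤ)) * t * Complex.I) * h k u) +
        ∑ k ∈ J, Complex.exp (((k : ℂ) - (2 * (n' + 1 : ℕ) : ℤ)) * t * Complex.I) * g k u := by
      rw [hGsum, hsplitS, hH₀]
      simp only
      rw [hsplitI]
      have e2 : ∑ k ∈ P₀, Complex.exp (((k : ℂ) - (2 * (n' + 1 : ℕ) : ℤ)) * t * Complex.I) * g k u =
          ∑ k ∈ P₀, Complex.exp (((k : ℂ) - (2 * (n' + 1 : ℕ) : ℤ)) * t * Complex.I) *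
            (γ k u - φ k u) +
          ∑ k ∈ P₀, Complex.exp (((k : ℂ) - (2 * (n' + 1 : ℕ) : ℤ)) * t * Complex.I) * h k u := by
        rw [← Finset.sum_add_distrib]
        refine Finset.sum_congr rfl fun k hk => ?_
        rw [hP₀, Finset.mem_filter] at hk
        have hk2 : k ≠ 2 * ((n' + 1 : ℕ) : ℤ) := by
          rcases hk.2 with h1 | h1 <;> omega
        rw [hg, hh]
        simp only [if_neg hk2]
        ring
      rw [e2]
      ring
    rw [e1]
    -- the four terms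
    have b1 : ‖∑ k ∈ P₀, Complex.exp (((k : ℂ) - (2 * (n' + 1 : ℕ) : ℤ)) * t * Complex.I) *
        (γ k u - φ k u)‖ ≤ CR * q * ((1 + m) * (8 * (4 * Z u))) := by
      have h1 := hRRn p q N hp4 hq2 hqN ζ hζ H₀ R hH₀c hH₀R hH₀p
        (by
          intro j u hj
          rw [hH₀]
          simp only
          have h2 := avc_coef (Finset.Icc (-(N : ℤ)) N) (2 * (n' + 1 : ℕ) : ℤ) (fun k => h k u) j
          rw [h2]
          refine Finset.sum_eq_zero fun k hk => ?_
          rw [if_neg]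
          intro h3
          rw [Finset.mem_Icc] at hk
          have h4 : |j + 2 * ((n' + 1 : ℕ) : ℤ)| ≤ N := by
            rw [abs_le]
            constructor <;> omega
          omega)
        (by
          intro k u hk hk2
          rw [hH₀]
          simp only
          have h2 := avc_coef (Finset.Icc (-(N : ℤ)) N) (2 * (n' + 1 : ℕ) : ℤ) (fun k => h k u)
            (k - 2 * ((n' + 1 : ℕ) : ℤ))
          rw [h2, Finset.sum_eq_single k]
          · rw [if_pos rfl, hh, hφ]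
            have hk3 : k ≠ 2 * ((n' + 1 : ℕ) : ℤ) := by
              rcases hk2 with h1 | h1 <;> omega
            simp only [if_neg hk3, sub_zero]
          · intro k' _ hk'
            rw [if_neg]
            intro h3
            exact hk' (by omega)
          · intro h3
            exfalso
            apply h3
            rw [Finset.mem_Icc]
            exact abs_le.1 hk)
        u t
      have h5 : ‖∑ k ∈ P₀, Complex.exp (((k : ℂ) - (2 * (n' + 1 : ℕ) : ℤ)) * t * Complex.I) *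
          (γ k u - φ k u)‖ ≤ CR * q *
            (∫ v, Real.exp (-(|v| / 4)) * hr q H₀ (u + v)) ^ (1 / q) := by
        refine le_trans (le_of_eq ?_) h1
        rw [hP₀, hγ, hφ]
        congr 1
        refine Finset.sum_congr rfl fun k _ => ?_
        congr 3
        push_cast
        ring
      refine h5.trans ?_
      refine mul_le_mul_of_nonneg_left ?_ (by positivity)
      have hH₀hc := hr_cont hq0 hH₀c
      have hH₀hs := hr_supp hq0 hH₀R
      have h6 : ∫ v, Real.exp (-(|v| / 4)) * hr q H₀ (u + v) ≤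
          (1 + m) ^ q * (8 * ∫ v, hr q H (u + v) ∂ν) := by
        have h7 : 8 * ∫ v, hr q H (u + v) ∂ν = ∫ v, Real.exp (-|v| / 4) * hr q H (u + v) := by
          rw [show (8 : ℝ) = 2 / (1 / 4) by norm_num, ← hν2 _ hrc hrs u]
          congr 1
          funext v
          congr 2
          ring
        rw [h7, ← integral_const_mul]
        refine integral_mono ?_ ((II_int hrc hrs u).const_mul _) fun v => ?_
        · have h8 := II_int hH₀hc hH₀hs u
          refine h8.congr (Eventually.of_forall fun v => ?_)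
          simp only
          congr 2
          ring
        · show Real.exp (-(|v| / 4)) * hr q H₀ (u + v) ≤
            (1 + m) ^ q * (Real.exp (-|v| / 4) * hr q H (u + v))
          have h9 : -|v| / 4 = -(|v| / 4) := by ring
          rw [h9]
          have h10 := mul_le_mul_of_nonneg_left (hpert (u + v)) (Real.exp_pos (-(|v| / 4))).le
          linarith
      refine (Real.rpow_le_rpow (integral_nonneg fun v => mul_nonneg (Real.exp_pos _).le
        (hr_nonneg _ _ _)) h6 (by positivity)).trans ?_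
      rw [hroot _ (mul_nonneg (by norm_num) (integral_nonneg fun v => hr0 _))]
      refine mul_le_mul_of_nonneg_left ?_ h1m.le
      refine (hroot4 8 _ (by norm_num) (integral_nonneg fun v => hr0 _)).trans ?_
      exact mul_le_mul_of_nonneg_left (hZν u) (by norm_num)
    have b2 : ‖H₀ u t‖ ≤ 100 * ((1 + m) * (4 * Z u)) := by
      have h1 := hNIK N q hq2 hqN (2 * (n' + 1 : ℕ) : ℤ) (fun k => h k u) t
      have h2 : ‖H₀ u t‖ ≤ 100 * (hr q H₀ u) ^ (1 / q) := by
        unfold hr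
        rw [hH₀]
        exact h1
      refine h2.trans (mul_le_mul_of_nonneg_left ?_ (by norm_num))
      refine (Real.rpow_le_rpow (hr_nonneg _ _ _) (hpert u) (by positivity)).trans ?_
      rw [hroot _ (hr0 u)]
      exact mul_le_mul_of_nonneg_left (hZ1 u) h1m.le
    have b3 : ‖∑ k ∈ I₀, Complex.exp (((k : ℂ) - (2 * (n' + 1 : ℕ) : ℤ)) * t * Complex.I) *
        h k u‖ ≤ (2 * ((n' + 1 : ℕ) : ℝ) + 1) * (4 * Z u) := by
      have h1 : ∀ k ∈ I₀, ‖Complex.exp (((k : ℂ) - (2 * (n' + 1 : ℕ) : ℤ)) * t * Complex.I) *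
          h k u‖ ≤ 4 * Z u := by
        intro k hk
        rw [norm_mul, hexpn, one_mul]
        refine (hhb k (hsub (hI₀I hk)) u).trans ?_
        rw [hAH]
        exact (av_le_hr hq1 hHc u).trans (hZ1 u)
      refine (norm_sum_le _ _).trans ((Finset.sum_le_sum h1).trans ?_)
      rw [Finset.sum_const, nsmul_eq_mul, hI₀c]
    have b4 : ‖∑ k ∈ J, Complex.exp (((k : ℂ) - (2 * (n' + 1 : ℕ) : ℤ)) * t * Complex.I) *
        g k u‖ ≤ M * ((m + (2 * ((n' + 1 : ℕ) : ℝ) + 1)) * (4 * Z u)) := by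
      refine (hset J ρJ hJS hρJ2 u t).trans ?_
      refine mul_le_mul_of_nonneg_left ?_ (by linarith)
      refine mul_le_mul hJc ?_ (hIA0 _ _) (by positivity)
      have h1 := A_le_hr hρJ hq1 hHc hHR u
      simp only [← hAH] at h1
      exact h1.trans (hZJ u)
    refine (norm_add_le _ _).trans ?_
    refine (add_le_add ((norm_sub_le _ _).trans (add_le_add (norm_add_le _ _) le_rfl)) le_rfl).trans ?_
    refine (add_le_add (add_le_add (add_le_add b1 b2) b3) b4).trans ?_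
    have hz := hZ0 u
    obtain ⟨n₁, hn₁⟩ : ∃ n₁ : ℝ, n₁ = ((n' + 1 : ℕ) : ℝ) := ⟨_, rfl⟩
    rw [← hn₁] at hD₀ hn0 ⊢
    have e5 : C * q / 2 * Z u = (1 + m) * q * Z u *
        (4 * (M * (2 * n₁ + 2) + (2 * n₁ + 1) + 100 + 8 * CR)) := by
      rw [hC, hD₀]
      ring
    rw [e5]
    have hz2 : (1 + m) * Z u ≤ (1 + m) * q * Z u := by
      have : (1 + m) * Z u * 1 ≤ (1 + m) * Z u * q :=
        mul_le_mul_of_nonneg_left hq1 (by positivity)
      linarith
    have hz1 : Z u ≤ (1 + m) * Z u := by nlinarith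
    have hmz : (m + (2 * n₁ + 1)) * Z u ≤ (2 * n₁ + 2) * ((1 + m) * Z u) := by
      have : m + (2 * n₁ + 1) ≤ (2 * n₁ + 2) * (1 + m) := by nlinarith
      have := mul_le_mul_of_nonneg_right this hz
      linarith
    obtain ⟨Q, hQ⟩ : ∃ Q : ℝ, Q = (1 + m) * q * Z u := ⟨_, rfl⟩
    rw [← hQ] at hz2 ⊢
    have t1 : CR * q * ((1 + m) * (8 * (4 * Z u))) = 32 * CR * Q := by rw [hQ]; ring
    have t2 : 100 * ((1 + m) * (4 * Z u)) ≤ 400 * Q := by linarith
    have t3 : (2 * n₁ + 1) * (4 * Z u) ≤ 4 * (2 * n₁ + 1) * Q := by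
      have : Z u ≤ Q := hz1.trans hz2
      have := mul_le_mul_of_nonneg_left this (show (0 : ℝ) ≤ 4 * (2 * n₁ + 1) by linarith)
      linarith
    have t4 : M * ((m + (2 * n₁ + 1)) * (4 * Z u)) ≤ 4 * (M * (2 * n₁ + 2)) * Q := by
      have h1 : (m + (2 * n₁ + 1)) * Z u ≤ (2 * n₁ + 2) * Q :=
        hmz.trans (mul_le_mul_of_nonneg_left hz2 (by linarith))
      have := mul_le_mul_of_nonneg_left h1 (show (0 : ℝ) ≤ 4 * M by linarith)
      linarith
    rw [t1]
    linarith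
  have hScard : (S.card : ℝ) = m + (2 * N + 1) := by
    have h1 : (S \ Finset.Icc (-(N : ℤ)) N).card + (Finset.Icc (-(N : ℤ)) N).card = S.card :=
      Finset.card_sdiff_add_card_eq_card hsub
    have h2 : (Finset.Icc (-(N : ℤ)) N).card = 2 * N + 1 := by
      rw [Int.card_Icc]
      omega
    rw [← hT, h2] at h1
    rw [← h1, hm]
    push_cast
    ring
  have hsgn : ((((-1) ^ (n' + 1) / K : ℝ) : ℂ)) * (((-1) ^ (n' + 1) * K : ℝ) : ℂ) = 1 := by
    rw [← Complex.ofReal_mul]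
    have : (-1 : ℝ) ^ (n' + 1) / K * ((-1) ^ (n' + 1) * K) = 1 := by
      have h1 : (-1 : ℝ) ^ (n' + 1) * (-1) ^ (n' + 1) = 1 := by
        rw [← mul_pow]
        norm_num
      calc (-1 : ℝ) ^ (n' + 1) / K * ((-1) ^ (n' + 1) * K)
          = ((-1 : ℝ) ^ (n' + 1) * (-1) ^ (n' + 1)) * (K / K) := by ring
        _ = 1 := by rw [h1, div_self hK0.ne', one_mul]
    rw [this, Complex.ofReal_one]
  have hnsgn : ‖(((-1) ^ (n' + 1) / K : ℝ) : ℂ)‖ = 1 / K := by
    rw [Complex.norm_real, norm_div, norm_pow, norm_neg, norm_one, one_pow,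
      Real.norm_of_nonneg hK0.le]
  have hYx : ∀ u t, p * ‖Y u t - x u‖ ≤
      2 * ‖G u t - (((-1) ^ (n' + 1) * K : ℝ) : ℂ) * x u‖ := by
    intro u t
    have e1 : Y u t - x u = (((-1) ^ (n' + 1) / K : ℝ) : ℂ) *
        (G u t - (((-1) ^ (n' + 1) * K : ℝ) : ℂ) * x u) := by
      rw [mul_sub, ← mul_assoc, hsgn, one_mul, hY]
    rw [e1, norm_mul, hnsgn, ← mul_assoc]
    refine mul_le_mul_of_nonneg_right ?_ (norm_nonneg _)
    have := mul_le_mul_of_nonneg_left hKi hp0.le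
    have e2 : p * (2 / p) = 2 := by field_simp
    linarith
  have hW₂ : ∀ u t, p * ‖Y u t - x u‖ ≤
      C * q * (∫ v, hr q (fun u s => F u s - x u) (u + v) ∂ρ) ^ (1 / q) := by
    intro u t
    refine (hYx u t).trans ?_
    have h1 := hqb u t
    rw [hZ, hH] at h1
    simp only at h1
    linarith
  have hW₁ : ∀ u t, p * ‖Y u t - x u‖ ≤
      C₁ * (∫ v, hr 2 (fun u s => F u s - x u) (u + v) ∂ρ) ^ (1 / 2 : ℝ) := by
    intro u t
    refine (hYx u t).trans ?_
    rw [hGsum]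
    have h1 := hset S ρS (Finset.Subset.refl _) hρS2 u t
    have h2 := A_le_hr hρS (q := 2) (by norm_num) hHc hHR u
    simp only [← hAH] at h2
    have h3 := (hρ4 _ (hr_cont (q := 2) (by norm_num) hHc) (hr_supp (q := 2) (by norm_num) hHR)
      (hr_nonneg 2 H) u).2.1
    have h4 : (∫ v, hr 2 H (u + v) ∂ρS) ^ (1 / 2 : ℝ) ≤
        2 * (∫ v, hr 2 H (u + v) ∂ρ) ^ (1 / 2 : ℝ) := by
      refine (Real.rpow_le_rpow (integral_nonneg fun v => hr_nonneg _ _ _) h3
        (by norm_num)).trans (le_of_eq ?_)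
      rw [Real.mul_rpow (by norm_num) (integral_nonneg fun v => hr_nonneg _ _ _)]
      congr 1
      rw [show (4 : ℝ) = 2 ^ (2 : ℝ) by norm_num, ← Real.rpow_mul (by norm_num)]
      norm_num
    have h5 : ∫ v, A (u + v) ∂ρS ≤ 2 * (∫ v, hr 2 H (u + v) ∂ρ) ^ (1 / 2 : ℝ) := h2.trans h4
    have h6 : (S.card : ℝ) * ∫ v, A (u + v) ∂ρS ≤
        (S.card : ℝ) * (2 * (∫ v, hr 2 H (u + v) ∂ρ) ^ (1 / 2 : ℝ)) :=
      mul_le_mul_of_nonneg_left h5 (Nat.cast_nonneg _)
    have h7 := mul_le_mul_of_nonneg_left h6 (show (0 : ℝ) ≤ M by linarith)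
    rw [hC₁, ← hH]
    rw [hScard] at h1 h7
    have e1 : 4 * M * (2 * N + 1 + m) * (∫ v, hr 2 H (u + v) ∂ρ) ^ (1 / 2 : ℝ) =
      2 * (M * ((m + (2 * N + 1)) * (2 * (∫ v, hr 2 H (u + v) ∂ρ) ^ (1 / 2 : ℝ)))) := by ring
    rw [e1]
    linarith
  -- the first-order term
  obtain ⟨Δ, hΔ⟩ : ∃ Δ : ℝ, Δ = (∫ u, av fun t => ‖F u t‖ ^ p) - ∫ u, ‖x u‖ ^ p := ⟨_, rfl⟩
  have hD : ∫ u, ‖x u - p * deriv x u‖ ^ p ≤ (∫ u, ‖x u‖ ^ p) + Δ := by
    have e : (∫ u, ‖x u‖ ^ p) + Δ = ∫ u, av fun t => ‖F u t‖ ^ p := by rw [hΔ]; ring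
    rw [e]
    have cs0 : ∀ f : ℝ → ℝ, (∀ u, R ≤ |u| → f u = 0) → HasCompactSupport f := by
      intro f hf
      refine HasCompactSupport.intro (isCompact_Icc (a := -R) (b := R)) fun u hu => ?_
      refine hf u ?_
      by_contra h
      rw [not_le, abs_lt] at h
      exact hu ⟨h.1.le, h.2.le⟩
    refine integral_mono ?_ ?_ fun u => ?_
    · refine Continuous.integrable_of_hasCompactSupport ?_ (cs0 _ fun u hu => ?_)
      · exact (hx1.continuous.sub (continuous_const.mul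
          (hx1.continuous_deriv (by norm_num)))).norm.rpow_const (fun _ => Or.inr hp0.le)
      · rw [← avF u]
        have : F u = fun _ => 0 := funext fun t => ((hR u hu).2 t).1
        rw [this, avc_const, norm_zero, Real.zero_rpow hp0.ne']
    · refine Continuous.integrable_of_hasCompactSupport (av_cont ?_) (cs0 _ fun u hu => ?_)
      · exact hFc.norm.rpow_const (fun _ => Or.inr hp0.le)
      · simp only [((hR u hu).2 _).1, norm_zero, Real.zero_rpow hp0.ne']
        exact av_const 0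
    · show ‖x u - p * deriv x u‖ ^ p ≤ av fun t => ‖F u t‖ ^ p
      rw [← avF u]
      have h1 : 0 ≤ av (fun t => br p (F u t) (avc (F u))) :=
        av_nonneg fun t => le_trans (by positivity) (hBR p hp4 _ _).1
      rw [av_br hp2 (hFt u), sub_self, mul_zero, Complex.zero_re, mul_zero, mul_zero,
        sub_zero] at h1
      linarith
  have hΔ0 : 0 ≤ Δ := by
    have h1 := hDV p hp4 x Δ hx1 hxs hD 1 zero_le_one
    have h2 : 0 ≤ (Real.exp (1 / p) - 1) * Δ := h1.1.trans h1.2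
    have h3 : 0 < Real.exp (1 / p) - 1 := by
      have := Real.add_one_le_exp (1 / p)
      linarith
    exact nonneg_of_mul_nonneg_right h2 h3
  have hT : ∀ i, 1 ≤ i → i < n' + 1 →
      |p * ∫ u, ‖x u‖ ^ (p - 2) * ((starRingEnd ℂ) (x u) * η i u).re| ≤ Δ := by
    intro i hi1 hin
    have hi : (1 : ℝ) ≤ i := by exact_mod_cast hi1
    have h1 := hFO hDV p hp4 x (ξ (2 * (n' + 1 : ℕ)) i) Δ i (by linarith) hx1 hxs (schw_c1 _)
      (hξs _ i) (fun u => ?_) hD
    · rw [hη]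
      refine h1.trans ?_
      exact div_le_self hΔ0 (by linarith)
    · have h2 := F2 (2 * (n' + 1 : ℕ)) i hin u
      rw [al2] at h2
      rw [h2, hx2 u]
  have hxr : Continuous (fun u => ‖x u‖ ^ (p - 2)) :=
    hx1.continuous.norm.rpow_const (fun _ => Or.inr (by linarith))
  have intT : ∀ f : ℝ → ℂ, Continuous f →
      Integrable (fun u => ‖x u‖ ^ (p - 2) * ((starRingEnd ℂ) (x u) * f u).re) := by
    intro f hf
    refine Continuous.integrable_of_hasCompactSupport (hxr.mul (Complex.continuous_re.comp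
      ((Complex.continuous_conj.comp hx1.continuous).mul hf))) ?_
    refine hxs.mono' ?_
    intro u hu
    apply subset_tsupport
    rw [Function.mem_support] at hu ⊢
    intro h0
    apply hu
    rw [h0]
    simp
  have hηc : ∀ i, Continuous (η i) := fun i => by
    rw [hη]
    exact (ξ _ i).continuous.add (continuous_const.mul hx1.continuous)
  have hfo : p * ∫ u, ‖x u‖ ^ (p - 2) * ((starRingEnd ℂ) (x u) * (avc (Y u) - x u)).re ≤
      C / p * Δ := by
    have e1 : ∀ u, ‖x u‖ ^ (p - 2) * ((starRingEnd ℂ) (x u) * (avc (Y u) - x u)).re =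
        ((-1) ^ (n' + 1) / K) * ((-p) * (‖x u‖ ^ (p - 2) *
          ((starRingEnd ℂ) (x u) * deriv x u).re) + ∑ i ∈ Finset.range n',
          c (i + 1) * (‖x u‖ ^ (p - 2) *
            ((starRingEnd ℂ) (x u) * η (i + 1) u).re)) := by
      intro u
      have e2 : avc (Y u) - x u = (((-1) ^ (n' + 1) / K : ℝ) : ℂ) *
          (((-p : ℝ) : ℂ) * deriv x u +
            ∑ i ∈ Finset.range n', (c (i + 1) : ℂ) * η (i + 1) u) := by
        have e3 : avc (Y u) = (((-1) ^ (n' + 1) / K : ℝ) : ℂ) * γ (2 * (n' + 1 : ℕ)) u := by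
          rw [hY]
          simp only
          rw [avc_mul_left, hG]
          congr 1
          exact mode0 γ u
        have e4 : ((-p : ℝ) : ℂ) * deriv x u = φ (2 * (n' + 1 : ℕ)) u - x u := by
          rw [hx2 u]
          push_cast
          ring
        rw [e3, e4, ← dec u, mul_sub, ← mul_assoc, hsgn, one_mul]
      rw [e2]
      have e5 : (starRingEnd ℂ) (x u) * ((((-1) ^ (n' + 1) / K : ℝ) : ℂ) *
          (((-p : ℝ) : ℂ) * deriv x u +
            ∑ i ∈ Finset.range n', (c (i + 1) : ℂ) * η (i + 1) u)) =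
          (((-1) ^ (n' + 1) / K : ℝ) : ℂ) * (((-p : ℝ) : ℂ) * ((starRingEnd ℂ) (x u) * deriv x u) +
            ∑ i ∈ Finset.range n', (c (i + 1) : ℂ) *
              ((starRingEnd ℂ) (x u) * η (i + 1) u)) := by
        rw [mul_add, mul_add, mul_add, Finset.mul_sum, Finset.mul_sum, Finset.mul_sum]
        congr 1
        · ring
        · refine Finset.sum_congr rfl fun i _ => ?_
          ring
      rw [e5, Complex.re_ofReal_mul, Complex.add_re, Complex.re_ofReal_mul, Complex.re_sum]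
      simp only [Complex.re_ofReal_mul]
      rw [mul_left_comm]
      congr 1
      rw [mul_add, Finset.mul_sum]
      congr 1
      · ring
      · refine Finset.sum_congr rfl fun i _ => ?_
        ring
    have hdc : Continuous (deriv x) := hx1.continuous_deriv (by norm_num)
    simp only [e1]
    rw [integral_const_mul, integral_add ((intT _ hdc).const_mul _)
      (integrable_finsetSum _ fun i _ => (intT _ (hηc (i + 1))).const_mul _),
      integral_const_mul, int_deriv_zero hp2 hx1 hxs, mul_zero, zero_add,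
      integral_finsetSum _ fun i _ => (intT _ (hηc (i + 1))).const_mul _]
    simp only [integral_const_mul]
    have e6 : p * ((-1) ^ (n' + 1) / K * ∑ i ∈ Finset.range n',
        c (i + 1) * ∫ u, ‖x u‖ ^ (p - 2) *
            ((starRingEnd ℂ) (x u) * η (i + 1) u).re) =
        ((-1) ^ (n' + 1) / K) * ∑ i ∈ Finset.range n',
        c (i + 1) * (p * ∫ u, ‖x u‖ ^ (p - 2) *
            ((starRingEnd ℂ) (x u) * η (i + 1) u).re) := by
      rw [mul_left_comm, Finset.mul_sum]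
      congr 1
      refine Finset.sum_congr rfl fun i _ => ?_
      ring
    rw [e6]
    have h1 : |∑ i ∈ Finset.range n', c (i + 1) * (p * ∫ u, ‖x u‖ ^ (p - 2) *
            ((starRingEnd ℂ) (x u) * η (i + 1) u).re)| ≤ Cc * Δ := by
      refine (Finset.abs_sum_le_sum_abs _ _).trans ?_
      have h2 : ∑ i ∈ Finset.range n', |c (i + 1) *
          (p * ∫ u, ‖x u‖ ^ (p - 2) * ((starRingEnd ℂ) (x u) * η (i + 1) u).re)| ≤
          (∑ i ∈ Finset.range n', |c (i + 1)|) * Δ := by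
        rw [Finset.sum_mul]
        refine Finset.sum_le_sum fun i hi => ?_
        rw [abs_mul]
        exact mul_le_mul_of_nonneg_left
          (hT (i + 1) (by omega) (by have := Finset.mem_range.1 hi; omega)) (abs_nonneg _)
      refine h2.trans (mul_le_mul_of_nonneg_right ?_ hΔ0)
      rw [hCc]
      rw [Finset.sum_range_succ']
      linarith [abs_nonneg (c 0)]
    have h3 : |(-1 : ℝ) ^ (n' + 1) / K| = 1 / K := by
      rw [abs_div, abs_pow, abs_neg, abs_one, one_pow, abs_of_pos hK0]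
    refine (le_abs_self _).trans ?_
    rw [abs_mul, h3]
    have h5 : Cc * Δ ≤ C / 2 * Δ := by
      refine mul_le_mul_of_nonneg_right ?_ hΔ0
      rw [hC]
      nlinarith
    calc 1 / K * |∑ i ∈ Finset.range n', c (i + 1) *
          (p * ∫ u, ‖x u‖ ^ (p - 2) * ((starRingEnd ℂ) (x u) * η (i + 1) u).re)|
        ≤ (2 / p) * (C / 2 * Δ) :=
          mul_le_mul hKi (h1.trans h5) (abs_nonneg _) (by positivity)
      _ = C / p * Δ := by ring
  rw [hΔ] at hfo
  have fin := hLCX C C₁ E p q hC1 hC₁1 hE0 hq2 hpC ρ hρ hMρ F Y x R hFc hYc hx1 hR avF hW₁ hW₂ hfo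
  -- conclusion
  have eG : ∀ u t, ‖G u t‖ ^ p = K ^ p * ‖Y u t‖ ^ p := by
    intro u t
    have e1 : ‖G u t‖ = K * ‖Y u t‖ := by
      rw [hY]
      simp only
      rw [norm_mul, hnsgn]
      field_simp
    rw [e1, Real.mul_rpow hK0.le (norm_nonneg _)]
  have e1 : ∀ u : ℝ, (av fun t => ‖∑ k ∈ S,
      Complex.exp (((k : ℝ) - 2 * ((n' + 1 : ℕ) : ℂ)) * t * Complex.I) *
        pol (PB p (n' + 1) k) (ζ k) u‖ ^ p) = K ^ p * av fun t => ‖Y u t‖ ^ p := by
    intro u
    rw [← av_mul_left]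
    congr 1
    funext t
    rw [← eG, hG, hγ]
    simp only
    congr 2
    refine Finset.sum_congr rfl fun k _ => ?_
    congr 3
    push_cast
    ring
  have e2 : ∀ u : ℝ, (av fun t => ‖∑ k ∈ S,
      Complex.exp (((k : ℝ) - 2 * ((n' + 1 : ℕ) : ℂ)) * t * Complex.I) *
        pol (PA p (n' + 1) k) (ζ k) u‖ ^ p) = av fun t => ‖F u t‖ ^ p := by
    intro u
    congr 1
    funext t
    rw [hF, hφ]
    simp only
    congr 2
    refine Finset.sum_congr rfl fun k _ => ?_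
    congr 3
    push_cast
    ring
  simp only [e1, e2]
  rw [integral_const_mul, ← hKd]
  exact mul_le_mul_of_nonneg_left fin (by positivity)


end Pool.Agent.W2helper3.BQ
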