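import Pool.Agent.W2helper3.BQ.All2
import Pool.Agent.W2helper3.BQ.Lcx3
import Pool.Agent.W2helper3.BQ.Mo3
import Pool.Agent.W2helper3.BQ.Fin3
import Pool.Agent.W2helper17.BQ.PT3
import Pool.Agent.W2helper98.BQ3.Bb
import Pool.Agent.W2helper3.BQ.Lc3
import Pool.Agent.W2helper84.BQ.Nik
import Pool.Agent.W2helper82.BQ3.KB
import Pool.Agent.W2helper35.BQ.MASS
import Pool.Agent.W2helper29.BQ.KC1
import Pool.Agent.W2helper35.BQ.KC
import Pool.Agent.W2helper47.BQ.KX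
import Pool.Agent.W2helper19.BQ.RR
import Pool.Agent.W2helper19.BQ.POL
import Pool.Agent.W2helper19.BQ.TR
import Pool.Agent.W2helper74.BQ.GEO
import Pool.Agent.W2helper75.BQ.EXI
import Pool.Agent.W2helper82.BQ.CUT
import Pool.Agent.W2helper82.BQ.DEN
import Pool.Agent.W2helper97.BQ.SUR

set_option autoImplicit false

namespace Pool.Agent.W2helper3.BQ

theorem lcx3 : P_LCX3 :=
  p_LCX3 Pool.Agent.W2helper93.BQ.t_BR Pool.Agent.W2helper75.BQ.p_BRA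
    Pool.Agent.W2helper33.BQ.p_GR Pool.Agent.W2helper17.BQ.p_PT3 Pool.Agent.W2helper98.BQ3.p_bb3
    p_LC3'

/-- the inequality for polynomially many modes -/
theorem mo3 : P_MO3 :=
  p_MO3 Pool.Agent.W2helper93.BQ.t_BR lcx3 p_DV p_FO Pool.Agent.W2helper46.BQ.p_in
    Pool.Agent.W2helper97.BQ.p_PF p_LAP p_CONV p_MIX Pool.Agent.W2helper33.BQ.p_IN2 p_KER
    Pool.Agent.W2helper84.BQ.p_nik Pool.Agent.W2helper47.BQ.p_KX Pool.Agent.W2helper82.BQ3.p_KAP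
    Pool.Agent.W2helper29.BQ.p_KC1 Pool.Agent.W2helper82.BQ3.p_KB Pool.Agent.W2helper35.BQ.p_MASS
    Pool.Agent.W2helper35.BQ.p_KC Pool.Agent.W2helper19.BQ.p_RR

theorem fin3 : P_FIN3 :=
  p_FIN3 mo3 p_POL Pool.Agent.W2helper74.BQ.p_GEO Pool.Agent.W2helper75.BQ.p_EXI
    Pool.Agent.W2helper97.BQ.p_SUR Pool.Agent.W2helper82.BQ.p_CUT Pool.Agent.W2helper82.BQ.p_DEN
    p_TR

end Pool.Agent.W2helper3.BQ
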