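import Pool.Agent.W2helper3.BQ.MoA

set_option autoImplicit false

open MeasureTheory Set Filter Topology
open scoped SchwartzMap ENNReal ContDiff BigOperators

namespace Pool.Agent.W2helper3.BQ

open Pool.Agent.Y282.RB (Tn Cn)

/-- the exponential average -/
noncomputable def II (A : ℝ → ℝ) (u : ℝ) : ℝ := ∫ v, Real.exp (-|v| / 4) * A (u + v)

lemma II_int {A : ℝ → ℝ} (hA : Continuous A) (hs : HasCompactSupport A) (u : ℝ) :
    Integrable (fun v => Real.exp (-|v| / 4) * A (u + v)) := by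
  have hc : Continuous (fun v => Real.exp (-|v| / 4) * A (u + v)) := by fun_prop
  refine hc.integrable_of_hasCompactSupport ?_
  have h1 : HasCompactSupport (fun v => A (u + v)) := hs.comp_homeomorph (Homeomorph.addLeft u)
  exact h1.mul_left

lemma II_mono {A B : ℝ → ℝ} (hA : Continuous A) (hs : HasCompactSupport A) (hB : Continuous B)
    (hsB : HasCompactSupport B) (h : ∀ u, A u ≤ B u) (u : ℝ) : II A u ≤ II B u :=
  integral_mono (II_int hA hs u) (II_int hB hsB u)
    fun v => mul_le_mul_of_nonneg_left (h (u + v)) (Real.exp_pos _).le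

lemma II_nonneg {A : ℝ → ℝ} (h : ∀ u, 0 ≤ A u) (u : ℝ) : 0 ≤ II A u :=
  integral_nonneg fun v => mul_nonneg (Real.exp_pos _).le (h _)

lemma schw_c1 (f : 𝓢(ℝ, ℂ)) : ContDiff ℝ 1 f := f.smooth 1

/-- half-integers -/
lemma al_big {p : ℝ} (hp : 4 ≤ p) (n : ℕ) (k : ℤ) (i : ℕ) (h : (k : ℝ) / 2 - n + i ≠ 0) :
    1 / 4 ≤ |al p n k i| := by
  have h1 : (1 : ℝ) / p ≤ 1 / 4 := one_div_le_one_div_of_le (by norm_num) hp
  have h0 : (0 : ℝ) < 1 / p := by positivity
  have e : (k : ℝ) / 2 - n + i = ((k - 2 * n + 2 * i : ℤ) : ℝ) / 2 := by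
    push_cast
    ring
  have hz : (k - 2 * n + 2 * i : ℤ) ≠ 0 := by
    intro h2
    apply h
    rw [e, h2]
    simp
  have ea : al p n k i = 1 / p + ((k - 2 * n + 2 * i : ℤ) : ℝ) / 2 := by
    rw [← e]
    unfold al
    ring
  rcases lt_or_gt_of_ne hz with hlt | hgt
  · have h3 : (k - 2 * n + 2 * i : ℤ) ≤ -1 := by omega
    have h4 : ((k - 2 * n + 2 * i : ℤ) : ℝ) ≤ -1 := by exact_mod_cast h3
    rw [ea, abs_of_nonpos (by linarith)]
    linarith
  · have h3 : (1 : ℤ) ≤ (k - 2 * n + 2 * i : ℤ) := by omega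
    have h4 : (1 : ℝ) ≤ ((k - 2 * n + 2 * i : ℤ) : ℝ) := by exact_mod_cast h3
    rw [ea, abs_of_nonneg (by linarith)]
    linarith

theorem p_MO (hBR : P_BR) (hLC : P_LC) (hDV : P_DV) (hFO : P_FO) (hIN : P_IN) (hPF : P_PF) : P_MO := by
  intro n N hn hN
  choose c hc1 hc2 hc3 using fun k : ℤ => hPF n hn k
  obtain ⟨S, hS⟩ : ∃ S : Finset ℤ, S = Finset.Icc (-(N : ℤ)) N := ⟨_, rfl⟩
  have h2nS : (2 * n : ℤ) ∈ S := by
    rw [hS, Finset.mem_Icc]
    constructor
    · have : (0 : ℤ) ≤ n := Int.natCast_nonneg n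
      have : (0 : ℤ) ≤ N := Int.natCast_nonneg N
      omega
    · exact_mod_cast hN
  obtain ⟨Cc, hCc⟩ : ∃ Cc : ℤ → ℝ, Cc = fun k => 1 + ∑ i ∈ Finset.range n, |c k i| := ⟨_, rfl⟩
  have hCc0 : ∀ k, 1 ≤ Cc k := fun k => by
    rw [hCc]
    have : 0 ≤ ∑ i ∈ Finset.range n, |c k i| := Finset.sum_nonneg fun i _ => abs_nonneg _
    simp only
    linarith
  obtain ⟨C, hC⟩ : ∃ C : ℝ, C = 2 * ∑ k ∈ S, Cc k := ⟨_, rfl⟩
  have hCs : Cc (2 * n) ≤ ∑ k ∈ S, Cc k :=
    Finset.single_le_sum (f := Cc) (fun k _ => by linarith [hCc0 k]) h2nS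
  have hCpos : 0 < C := by
    rw [hC]
    linarith [hCc0 (2 * n)]
  obtain ⟨p₀, hp₀, H⟩ := hLC C hCpos
  refine ⟨p₀, hp₀, fun p hp ζ hζ => ?_⟩
  have hp4 : 4 ≤ p := hp₀.trans hp
  have hp0 : 0 < p := by linarith
  have hp2 : 2 ≤ p := by linarith
  have hinv : (0 : ℝ) < 1 / p := by positivity
  obtain ⟨K, hK⟩ : ∃ K : ℝ, K = Cn p n := ⟨_, rfl⟩
  have hKge : p / 2 ≤ K := by rw [hK]; exact Cn_ge hp4 hn
  have hK0 : 0 < K := by linarith
  have hKi : 1 / K ≤ 2 / p := by
    rw [div_le_div_iff₀ hK0 hp0]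
    linarith
  -- the modes
  obtain ⟨φ, hφ⟩ : ∃ φ : ℤ → 𝓢(ℝ, ℂ), φ = fun k => pol (PA p n k) (ζ k) := ⟨_, rfl⟩
  obtain ⟨γ, hγ⟩ : ∃ γ : ℤ → 𝓢(ℝ, ℂ), γ = fun k => pol (PB p n k) (ζ k) := ⟨_, rfl⟩
  obtain ⟨ξ, hξ⟩ : ∃ ξ : ℤ → ℕ → 𝓢(ℝ, ℂ), ξ = fun k i => pol (PE p n k i) (ζ k) := ⟨_, rfl⟩
  have hφs : ∀ k, HasCompactSupport (φ k) := fun k => by rw [hφ]; exact cs_pol _ (hζ k)
  have hγs : ∀ k, HasCompactSupport (γ k) := fun k => by rw [hγ]; exact cs_pol _ (hζ k)
  have hξs : ∀ k i, HasCompactSupport (ξ k i) := fun k i => by rw [hξ]; exact cs_pol _ (hζ k)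
  have F1 : ∀ k u, γ k u = φ k u + ∑ i ∈ Finset.range n, (c k i : ℂ) * ξ k i u := by
    intro k u
    have e : γ k = φ k + ∑ i ∈ Finset.range n, c k i • ξ k i := by
      rw [hγ, hφ, hξ]
      simp only
      rw [hc1 k p hp0, pol_add, pol_sum]
      congr 1
      exact Finset.sum_congr rfl fun i _ => pol_C_mul _ _ _
    rw [e, add_apply, SchwartzMap.sum_apply]
    congr 1
  have F2 : ∀ k i, i < n → ∀ u, deriv (ξ k i) u - (al p n k i : ℂ) * ξ k i u = φ k u := by
    intro k i hi u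
    have e : φ k = DD (ξ k i) - al p n k i • ξ k i := by
      rw [hφ, hξ]
      simp only
      rw [PA_eq p n k i hi, pol_fac]
    rw [e]
    rfl
  -- the leading function
  obtain ⟨x, hx⟩ : ∃ x : ℝ → ℂ, x = fun u => ((-(1 / p) : ℝ) : ℂ) * ξ (2 * n) 0 u := ⟨_, rfl⟩
  have hx1 : ContDiff ℝ 1 x := by
    rw [hx]
    exact contDiff_const.mul (schw_c1 _)
  have hxs : HasCompactSupport x := by
    rw [hx]
    exact (hξs (2 * n) 0).mul_left
  have hdx : ∀ u, deriv x u = ((-(1 / p) : ℝ) : ℂ) * deriv (ξ (2 * n) 0) u := by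
    intro u
    rw [hx]
    exact deriv_const_mul _ ((schw_c1 _).differentiable (by norm_num) u)
  have hpc : (p : ℂ) ≠ 0 := Complex.ofReal_ne_zero.2 hp0.ne'
  have hx2 : ∀ u, φ (2 * n) u = x u - p * deriv x u := by
    intro u
    have h1 := F2 (2 * n) 0 (by omega) u
    have e : al p n (2 * n) 0 = 1 / p := by
      unfold al
      push_cast
      ring
    rw [e] at h1
    rw [hdx u, ← h1, hx]
    push_cast
    field_simp
    ring
  -- the functions
  obtain ⟨F, hF⟩ : ∃ F : ℝ → ℝ → ℂ, F = fun (u t : ℝ) => ∑ k ∈ S,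
    Complex.exp (((k : ℂ) - (2 * n : ℤ)) * t * Complex.I) * φ k u := ⟨_, rfl⟩
  obtain ⟨G, hG⟩ : ∃ G : ℝ → ℝ → ℂ, G = fun (u t : ℝ) => ∑ k ∈ S,
    Complex.exp (((k : ℂ) - (2 * n : ℤ)) * t * Complex.I) * γ k u := ⟨_, rfl⟩
  obtain ⟨Y, hY⟩ : ∃ Y : ℝ → ℝ → ℂ, Y = fun u t => (((-1) ^ n / K : ℝ) : ℂ) * G u t := ⟨_, rfl⟩
  have hFc : Continuous (Function.uncurry F) := by
    rw [hF]
    refine continuous_finsetSum _ fun k _ => ?_
    refine Continuous.mul ?_ ((φ k).continuous.comp continuous_fst)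
    fun_prop
  have hGc : Continuous (Function.uncurry G) := by
    rw [hG]
    refine continuous_finsetSum _ fun k _ => ?_
    refine Continuous.mul ?_ ((γ k).continuous.comp continuous_fst)
    fun_prop
  have hYc : Continuous (Function.uncurry Y) := by
    rw [hY]
    exact continuous_const.mul hGc
  have hFt : ∀ u, Continuous (F u) := fun u => hFc.comp (Continuous.prodMk_right u)
  have hGt : ∀ u, Continuous (G u) := fun u => hGc.comp (Continuous.prodMk_right u)
  -- supports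
  have hsupp : ∃ R : ℝ, ∀ u, R ≤ |u| → x u = 0 ∧ ∀ t, F u t = 0 ∧ Y u t = 0 := by
    have hR : ∀ f : ℝ → ℂ, HasCompactSupport f → ∃ R : ℝ, ∀ u, R ≤ |u| → f u = 0 := by
      intro f hf
      obtain ⟨R, hR⟩ := hf.isCompact.isBounded.subset_closedBall (0 : ℝ)
      refine ⟨R + 1, fun u hu => ?_⟩
      by_contra h0
      have h1 := hR (subset_tsupport f (Function.mem_support.2 h0))
      rw [Metric.mem_closedBall, dist_zero_right, Real.norm_eq_abs] at h1
      linarith
    choose R1 hR1 using fun k => hR (φ k) (hφs k)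
    choose R2 hR2 using fun k => hR (γ k) (hγs k)
    obtain ⟨R3, hR3⟩ := hR x hxs
    refine ⟨max R3 (max (S.sup' ⟨_, h2nS⟩ R1) (S.sup' ⟨_, h2nS⟩ R2)), fun u hu => ?_⟩
    have e1 : ∀ k ∈ S, φ k u = 0 := fun k hk => hR1 k u
      (((Finset.le_sup' R1 hk).trans ((le_max_left _ _).trans (le_max_right _ _))).trans hu)
    have e2 : ∀ k ∈ S, γ k u = 0 := fun k hk => hR2 k u
      (((Finset.le_sup' R2 hk).trans ((le_max_right _ _).trans (le_max_right _ _))).trans hu)
    refine ⟨hR3 u ((le_max_left _ _).trans hu), fun t => ⟨?_, ?_⟩⟩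
    · rw [hF]
      exact Finset.sum_eq_zero fun k hk => by rw [e1 k hk, mul_zero]
    · rw [hY, hG]
      simp only
      rw [Finset.sum_eq_zero fun k hk => by rw [e2 k hk, mul_zero], mul_zero]
  obtain ⟨R, hR⟩ := hsupp
  -- the average
  have mode : ∀ (ψ : ℤ → 𝓢(ℝ, ℂ)) (j : ℤ), j ∈ S → ∀ u : ℝ,
      avc (fun t => Complex.exp (-((j : ℂ) - (2 * n : ℤ)) * t * Complex.I) *
        ∑ k ∈ S, Complex.exp (((k : ℂ) - (2 * n : ℤ)) * t * Complex.I) * ψ k u) = ψ j u :=
    fun ψ j hj u => avc_mode S (2 * n) (fun k => ψ k u) j hj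
  have mode0 : ∀ (ψ : ℤ → 𝓢(ℝ, ℂ)) (u : ℝ),
      avc (fun t => ∑ k ∈ S, Complex.exp (((k : ℂ) - (2 * n : ℤ)) * t * Complex.I) * ψ k u) =
        ψ (2 * n) u := by
    intro ψ u
    rw [← mode ψ (2 * n) h2nS u]
    congr 1
    funext t
    simp
  have avF : ∀ u, avc (F u) = x u - p * deriv x u := by
    intro u
    rw [← hx2 u, hF]
    exact mode0 φ u
  -- A
  obtain ⟨A, hA⟩ : ∃ A : ℝ → ℝ, A = fun u => av fun t => ‖F u t - x u‖ := ⟨_, rfl⟩
  have hAc : Continuous A := by
    rw [hA]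
    refine av_cont ?_
    exact (hFc.sub (hx1.continuous.comp continuous_fst)).norm
  have hA0 : ∀ u, 0 ≤ A u := fun u => by
    rw [hA]; exact av_nonneg fun t => norm_nonneg _
  have hAs : HasCompactSupport A := by
    refine HasCompactSupport.intro (isCompact_Icc (a := -R) (b := R)) fun u hu => ?_
    have hu2 : R ≤ |u| := by
      by_contra h
      rw [not_le, abs_lt] at h
      exact hu ⟨h.1.le, h.2.le⟩
    rw [hA]
    simp only [(hR u hu2).1, ((hR u hu2).2 _).1, sub_zero, norm_zero]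
    exact av_const 0
  -- modes are bounded by A
  have bφ : ∀ k ∈ S, ∀ u, ‖φ k u - (if k = 2 * n then x u else 0)‖ ≤ A u := by
    intro k hk u
    have e : φ k u - (if k = 2 * n then x u else 0) =
        avc (fun t => Complex.exp (-((k : ℂ) - (2 * n : ℤ)) * t * Complex.I) * (F u t - x u)) := by
      have e1 : (fun t : ℝ => Complex.exp (-((k : ℂ) - (2 * n : ℤ)) * t * Complex.I) *
          (F u t - x u)) = fun t : ℝ =>
          Complex.exp (-((k : ℂ) - (2 * n : ℤ)) * t * Complex.I) * F u t -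
          x u * Complex.exp (((2 * n - k : ℤ) : ℂ) * t * Complex.I) := by
        funext t
        rw [mul_sub]
        congr 1
        rw [mul_comm]
        congr 2
        push_cast
        ring
      have c1 : Continuous (fun t : ℝ =>
          Complex.exp (-((k : ℂ) - (2 * n : ℤ)) * t * Complex.I) * F u t) :=
        (exp_cont _).mul (hFt u)
      have c2 : Continuous (fun t : ℝ =>
          x u * Complex.exp (((2 * n - k : ℤ) : ℂ) * t * Complex.I)) :=
        continuous_const.mul (exp_cont _)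
      rw [e1, avc_sub c1 c2, avc_mul_left, avc_exp]
      have e2 : avc (fun t : ℝ => Complex.exp (-((k : ℂ) - (2 * n : ℤ)) * t * Complex.I) * F u t) =
          φ k u := by
        rw [hF]
        exact mode φ k hk u
      rw [e2]
      congr 1
      by_cases h : k = 2 * n
      · rw [if_pos h, if_pos (by omega), mul_one]
      · rw [if_neg h, if_neg (by omega), mul_zero]
    rw [e]
    refine (norm_avc_le _).trans (le_of_eq ?_)
    rw [hA]
    simp only
    congr 1
    funext t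
    rw [norm_mul]
    have e3 : (-((k : ℂ) - (2 * n : ℤ))) = ((-((k : ℝ) - (2 * n : ℤ)) : ℝ) : ℂ) := by
      push_cast
      ring
    rw [e3, norm_exp_I, one_mul]
  -- the lower order terms
  obtain ⟨η, hη⟩ : ∃ η : ℕ → ℝ → ℂ, η = fun i u => ξ (2 * n) i u +
    ((1 / (1 / p + i) : ℝ) : ℂ) * x u := ⟨_, rfl⟩
  have al2 : ∀ i : ℕ, al p n (2 * n) i = 1 / p + i := by
    intro i
    unfold al
    push_cast
    ring
  have bη : ∀ i, 1 ≤ i → i < n → ∀ u, ‖η i u‖ ≤ II A u := by
    intro i hi1 hin u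
    have hi : (1 : ℝ) ≤ i := by exact_mod_cast hi1
    have hα : (0 : ℝ) < 1 / p + i := by linarith
    obtain ⟨α, hαe⟩ : ∃ α : ℝ, α = 1 / p + i := ⟨_, rfl⟩
    have hα1 : 1 ≤ α := by rw [hαe]; linarith
    have hα0 : (α : ℂ) ≠ 0 := Complex.ofReal_ne_zero.2 (by linarith)
    have hη1 : ContDiff ℝ 1 (η i) := by
      rw [hη]
      exact (schw_c1 _).add (contDiff_const.mul hx1)
    have hηs : HasCompactSupport (η i) := by
      rw [hη]
      exact (hξs (2 * n) i).add hxs.mul_left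
    have hde : ∀ u, deriv (η i) u - α * η i u = ((i / α : ℝ) : ℂ) * (φ (2 * n) u - x u) := by
      intro u
      have h1 := F2 (2 * n) i hin u
      rw [al2, ← hαe] at h1
      have h2 : deriv (η i) u = deriv (ξ (2 * n) i) u + ((1 / α : ℝ) : ℂ) * deriv x u := by
        rw [hη, hαe]
        have d1 : DifferentiableAt ℝ (ξ (2 * n) i : ℝ → ℂ) u :=
          (schw_c1 _).differentiable (by norm_num) u
        have d2 : DifferentiableAt ℝ (fun u => ((1 / (1 / p + i) : ℝ) : ℂ) * x u) u :=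
          (contDiff_const.mul hx1).differentiable (by norm_num) u
        have d3 := deriv_add d1 d2
        have d4 := deriv_const_mul ((1 / (1 / p + i) : ℝ) : ℂ)
          (hx1.differentiable (by norm_num) u)
        rw [d4] at d3
        exact d3
      have h3 : η i u = ξ (2 * n) i u + ((1 / α : ℝ) : ℂ) * x u := by rw [hη, hαe]
      have h4 := hx2 u
      have h5 : (i : ℂ) = α - 1 / p := by
        rw [hαe]
        push_cast
        ring
      rw [h2, h3]
      push_cast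
      rw [h5]
      have h6 : deriv x u = (x u - φ (2 * n) u) / p := by
        rw [h4]
        field_simp
        ring
      rw [h6]
      have h7 : deriv (ξ (2 * n) i) u = φ (2 * n) u + α * ξ (2 * n) i u := by
        rw [← h1]
        ring
      rw [h7]
      field_simp
      ring
    have hgc : Continuous (fun u => ((i / α : ℝ) : ℂ) * (φ (2 * n) u - x u)) :=
      continuous_const.mul ((φ (2 * n)).continuous.sub hx1.continuous)
    refine (hIN α (by rw [abs_of_nonneg (by linarith)]; linarith) (η i)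
      (fun u => ((i / α : ℝ) : ℂ) * (φ (2 * n) u - x u)) hη1 hηs hgc hde u).trans ?_
    have hgs : HasCompactSupport (fun u => ‖((i / α : ℝ) : ℂ) * (φ (2 * n) u - x u)‖) :=
      ((hφs (2 * n)).sub hxs).mul_left.norm
    refine II_mono hgc.norm hgs hAc hAs (fun u => ?_) u
    have h8 := bφ (2 * n) h2nS u
    rw [if_pos rfl] at h8
    rw [norm_mul, Complex.norm_real]
    have h9 : ‖(i / α : ℝ)‖ ≤ 1 := by
      rw [Real.norm_of_nonneg (by positivity), div_le_one (by linarith), hαe]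
      linarith
    calc ‖(i / α : ℝ)‖ * ‖φ (2 * n) u - x u‖ ≤ 1 * A u :=
          mul_le_mul h9 h8 (norm_nonneg _) (by norm_num)
      _ = A u := one_mul _
  have bξ : ∀ k ∈ S, k ≠ 2 * n → ∀ i, i < n → ∀ u, |c k i| * ‖ξ k i u‖ ≤ |c k i| * II A u := by
    intro k hk hk2 i hi u
    by_cases h0 : (k : ℝ) / 2 - n + i = 0
    · rw [hc2 k i hi h0 hk2]
      simp
    · refine mul_le_mul_of_nonneg_left ?_ (abs_nonneg _)
      refine (hIN (al p n k i) (al_big hp4 n k i h0) (ξ k i) (φ k) (schw_c1 _) (hξs k i)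
        (φ k).continuous (F2 k i hi) u).trans ?_
      refine II_mono (φ k).continuous.norm (hφs k).norm hAc hAs (fun u => ?_) u
      have h8 := bφ k hk u
      rw [if_neg hk2, sub_zero] at h8
      exact h8
  -- the decomposition of the mode 2n
  have hcst := hc3 (2 * n) rfl p (by linarith)
  rw [← hK] at hcst
  obtain ⟨n', rfl⟩ : ∃ n', n = n' + 1 := ⟨n - 1, by omega⟩
  have dec : ∀ u, γ (2 * (n' + 1 : ℕ)) u - (((-1) ^ (n' + 1) * K : ℝ) : ℂ) * x u =
      (φ (2 * (n' + 1 : ℕ)) u - x u) +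
      ∑ i ∈ Finset.range n', (c (2 * (n' + 1 : ℕ)) (i + 1) : ℂ) * η (i + 1) u := by
    intro u
    rw [F1, hcst, Finset.sum_range_succ', Finset.sum_range_succ']
    have e0 : ξ (2 * (n' + 1 : ℕ)) 0 u = -(p : ℂ) * x u := by
      rw [hx]
      push_cast
      field_simp
    rw [e0, al2 0]
    have e1 : ∀ i ∈ Finset.range n', (c (2 * (n' + 1 : ℕ)) (i + 1) : ℂ) * η (i + 1) u =
        (c (2 * (n' + 1 : ℕ)) (i + 1) : ℂ) * ξ (2 * (n' + 1 : ℕ)) (i + 1) u +
        ((c (2 * (n' + 1 : ℕ)) (i + 1) / al p (n' + 1) (2 * (n' + 1 : ℕ)) (i + 1) : ℝ) : ℂ) *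
          x u := by
      intro i _
      rw [al2, hη]
      push_cast
      ring
    rw [Finset.sum_congr rfl e1, Finset.sum_add_distrib, ← Finset.sum_mul]
    push_cast
    have hp' : (p : ℂ) ≠ 0 := hpc
    field_simp
    ring
  have hI0 : ∀ u, 0 ≤ II A u := II_nonneg hA0
  have bγ : ∀ k ∈ S, ∀ u, ‖γ k u - (if k = 2 * (n' + 1 : ℕ) then
      (((-1) ^ (n' + 1) * K : ℝ) : ℂ) * x u else 0)‖ ≤ Cc k * (A u + II A u) := by
    intro k hk u
    by_cases h : k = 2 * (n' + 1 : ℕ)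
    · rw [if_pos h]
      subst h
      rw [dec u]
      have h8 := bφ _ hk u
      rw [if_pos rfl] at h8
      refine (norm_add_le _ _).trans ?_
      have h9 : ‖∑ i ∈ Finset.range n', (c (2 * (n' + 1 : ℕ)) (i + 1) : ℂ) * η (i + 1) u‖ ≤
          (∑ i ∈ Finset.range n', |c (2 * (n' + 1 : ℕ)) (i + 1)|) * II A u := by
        refine (norm_sum_le _ _).trans ?_
        rw [Finset.sum_mul]
        refine Finset.sum_le_sum fun i hi => ?_
        rw [norm_mul, Complex.norm_real, Real.norm_eq_abs]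
        exact mul_le_mul_of_nonneg_left
          (bη (i + 1) (by omega) (by have := Finset.mem_range.1 hi; omega) u) (abs_nonneg _)
      have h10 : (∑ i ∈ Finset.range n', |c (2 * (n' + 1 : ℕ)) (i + 1)|) ≤
          ∑ i ∈ Finset.range (n' + 1), |c (2 * (n' + 1 : ℕ)) i| := by
        rw [Finset.sum_range_succ']
        linarith [abs_nonneg (c (2 * (n' + 1 : ℕ)) 0)]
      have h11 : 0 ≤ ∑ i ∈ Finset.range (n' + 1), |c (2 * (n' + 1 : ℕ)) i| :=
        Finset.sum_nonneg fun i _ => abs_nonneg _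
      rw [hCc]
      simp only
      nlinarith [mul_le_mul_of_nonneg_right h10 (hI0 u), hA0 u, hI0 u,
        mul_nonneg h11 (hA0 u)]
    · rw [if_neg h, sub_zero, F1]
      have h8 := bφ _ hk u
      rw [if_neg h, sub_zero] at h8
      refine (norm_add_le _ _).trans ?_
      have h9 : ‖∑ i ∈ Finset.range (n' + 1), (c k i : ℂ) * ξ k i u‖ ≤
          (∑ i ∈ Finset.range (n' + 1), |c k i|) * II A u := by
        refine (norm_sum_le _ _).trans ?_
        rw [Finset.sum_mul]
        refine Finset.sum_le_sum fun i hi => ?_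
        rw [norm_mul, Complex.norm_real, Real.norm_eq_abs]
        exact bξ k hk h i (Finset.mem_range.1 hi) u
      have h11 : 0 ≤ ∑ i ∈ Finset.range (n' + 1), |c k i| :=
        Finset.sum_nonneg fun i _ => abs_nonneg _
      rw [hCc]
      simp only
      nlinarith [hA0 u, hI0 u, mul_nonneg h11 (hA0 u)]
  have hsgn : ((((-1) ^ (n' + 1) / K : ℝ) : ℂ)) * (((-1) ^ (n' + 1) * K : ℝ) : ℂ) = 1 := by
    rw [← Complex.ofReal_mul]
    have : (-1 : ℝ) ^ (n' + 1) / K * ((-1) ^ (n' + 1) * K) = 1 := by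
      have h1 : (-1 : ℝ) ^ (n' + 1) * (-1) ^ (n' + 1) = 1 := by
        rw [← mul_pow]
        norm_num
      calc (-1 : ℝ) ^ (n' + 1) / K * ((-1) ^ (n' + 1) * K)
          = ((-1 : ℝ) ^ (n' + 1) * (-1) ^ (n' + 1)) * (K / K) := by ring
        _ = 1 := by rw [h1, div_self hK0.ne', one_mul]
    rw [this, Complex.ofReal_one]
  have hnsgn : ‖(((-1) ^ (n' + 1) / K : ℝ) : ℂ)‖ = 1 / K := by
    rw [Complex.norm_real, norm_div, norm_pow, norm_neg, norm_one, one_pow,
      Real.norm_of_nonneg hK0.le]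
  have hWW : ∀ u t, ‖Y u t - x u‖ ≤ WW C p A u := by
    intro u t
    have e1 : Y u t - x u = (((-1) ^ (n' + 1) / K : ℝ) : ℂ) *
        ∑ k ∈ S, Complex.exp (((k : ℂ) - (2 * (n' + 1 : ℕ) : ℤ)) * t * Complex.I) *
          (γ k u - (if k = 2 * (n' + 1 : ℕ) then
            (((-1) ^ (n' + 1) * K : ℝ) : ℂ) * x u else 0)) := by
      have e2 : ∑ k ∈ S, Complex.exp (((k : ℂ) - (2 * (n' + 1 : ℕ) : ℤ)) * t * Complex.I) *
          (γ k u - (if k = 2 * (n' + 1 : ℕ) then
            (((-1) ^ (n' + 1) * K : ℝ) : ℂ) * x u else 0)) =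
          G u t - (((-1) ^ (n' + 1) * K : ℝ) : ℂ) * x u := by
        simp only [mul_sub]
        rw [Finset.sum_sub_distrib]
        congr 1
        · rw [hG]
        · rw [Finset.sum_eq_single (2 * (n' + 1 : ℕ) : ℤ)]
          · rw [if_pos rfl]
            simp
          · intro k _ hk
            rw [if_neg hk, mul_zero]
          · intro h
            exact absurd h2nS h
      rw [e2, mul_sub, ← mul_assoc, hsgn, one_mul, hY]
    rw [e1, norm_mul, hnsgn]
    have h1 : ‖∑ k ∈ S, Complex.exp (((k : ℂ) - (2 * (n' + 1 : ℕ) : ℤ)) * t * Complex.I) *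
          (γ k u - (if k = 2 * (n' + 1 : ℕ) then
            (((-1) ^ (n' + 1) * K : ℝ) : ℂ) * x u else 0))‖ ≤
        (∑ k ∈ S, Cc k) * (A u + II A u) := by
      refine (norm_sum_le _ _).trans ?_
      rw [Finset.sum_mul]
      refine Finset.sum_le_sum fun k hk => ?_
      rw [norm_mul]
      have e3 : ((k : ℂ) - (2 * (n' + 1 : ℕ) : ℤ)) = ((((k : ℝ) - (2 * (n' + 1 : ℕ) : ℤ)) : ℝ) : ℂ) := by
        push_cast
        ring
      rw [e3, norm_exp_I, one_mul]
      exact bγ k hk u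
    have h2 : 0 ≤ A u + II A u := add_nonneg (hA0 u) (hI0 u)
    have h3 : 0 ≤ (∑ k ∈ S, Cc k) * (A u + II A u) :=
      mul_nonneg (Finset.sum_nonneg fun k _ => by linarith [hCc0 k]) h2
    calc 1 / K * ‖∑ k ∈ S, Complex.exp (((k : ℂ) - (2 * (n' + 1 : ℕ) : ℤ)) * t * Complex.I) *
          (γ k u - (if k = 2 * (n' + 1 : ℕ) then
            (((-1) ^ (n' + 1) * K : ℝ) : ℂ) * x u else 0))‖
        ≤ (2 / p) * ((∑ k ∈ S, Cc k) * (A u + II A u)) :=
          mul_le_mul hKi h1 (norm_nonneg _) (by positivity)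
      _ = WW C p A u := by
          rw [hC]
          unfold WW
          change _ = (2 * ∑ k ∈ S, Cc k) / p * (A u + II A u)
          ring
  -- the first-order term
  obtain ⟨Δ, hΔ⟩ : ∃ Δ : ℝ, Δ = (∫ u, av fun t => ‖F u t‖ ^ p) - ∫ u, ‖x u‖ ^ p := ⟨_, rfl⟩
  have hD : ∫ u, ‖x u - p * deriv x u‖ ^ p ≤ (∫ u, ‖x u‖ ^ p) + Δ := by
    have e : (∫ u, ‖x u‖ ^ p) + Δ = ∫ u, av fun t => ‖F u t‖ ^ p := by rw [hΔ]; ring
    rw [e]
    have cs0 : ∀ f : ℝ → ℝ, (∀ u, R ≤ |u| → f u = 0) → HasCompactSupport f := by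
      intro f hf
      refine HasCompactSupport.intro (isCompact_Icc (a := -R) (b := R)) fun u hu => ?_
      refine hf u ?_
      by_contra h
      rw [not_le, abs_lt] at h
      exact hu ⟨h.1.le, h.2.le⟩
    refine integral_mono ?_ ?_ fun u => ?_
    · refine Continuous.integrable_of_hasCompactSupport ?_ (cs0 _ fun u hu => ?_)
      · exact (hx1.continuous.sub (continuous_const.mul
          (hx1.continuous_deriv (by norm_num)))).norm.rpow_const (fun _ => Or.inr hp0.le)
      · rw [← avF u]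
        have : F u = fun _ => 0 := funext fun t => ((hR u hu).2 t).1
        rw [this, avc_const, norm_zero, Real.zero_rpow hp0.ne']
    · refine Continuous.integrable_of_hasCompactSupport (av_cont ?_) (cs0 _ fun u hu => ?_)
      · exact hFc.norm.rpow_const (fun _ => Or.inr hp0.le)
      · simp only [((hR u hu).2 _).1, norm_zero, Real.zero_rpow hp0.ne']
        exact av_const 0
    · show ‖x u - p * deriv x u‖ ^ p ≤ av fun t => ‖F u t‖ ^ p
      rw [← avF u]
      have h1 : 0 ≤ av (fun t => br p (F u t) (avc (F u))) :=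
        av_nonneg fun t => le_trans (by positivity) (hBR p hp4 _ _).1
      rw [av_br hp2 (hFt u), sub_self, mul_zero, Complex.zero_re, mul_zero, mul_zero,
        sub_zero] at h1
      linarith
  have hΔ0 : 0 ≤ Δ := by
    have h1 := hDV p hp4 x Δ hx1 hxs hD 1 zero_le_one
    have h2 : 0 ≤ (Real.exp (1 / p) - 1) * Δ := h1.1.trans h1.2
    have h3 : 0 < Real.exp (1 / p) - 1 := by
      have := Real.add_one_le_exp (1 / p)
      linarith
    exact nonneg_of_mul_nonneg_right h2 h3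
  have hT : ∀ i, 1 ≤ i → i < n' + 1 →
      |p * ∫ u, ‖x u‖ ^ (p - 2) * ((starRingEnd ℂ) (x u) * η i u).re| ≤ Δ := by
    intro i hi1 hin
    have hi : (1 : ℝ) ≤ i := by exact_mod_cast hi1
    have h1 := hFO hDV p hp4 x (ξ (2 * (n' + 1 : ℕ)) i) Δ i (by linarith) hx1 hxs (schw_c1 _)
      (hξs _ i) (fun u => ?_) hD
    · rw [hη]
      refine h1.trans ?_
      exact div_le_self hΔ0 (by linarith)
    · have h2 := F2 (2 * (n' + 1 : ℕ)) i hin u
      rw [al2] at h2
      rw [h2, hx2 u]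
  have hxr : Continuous (fun u => ‖x u‖ ^ (p - 2)) :=
    hx1.continuous.norm.rpow_const (fun _ => Or.inr (by linarith))
  have intT : ∀ f : ℝ → ℂ, Continuous f →
      Integrable (fun u => ‖x u‖ ^ (p - 2) * ((starRingEnd ℂ) (x u) * f u).re) := by
    intro f hf
    refine Continuous.integrable_of_hasCompactSupport (hxr.mul (Complex.continuous_re.comp
      ((Complex.continuous_conj.comp hx1.continuous).mul hf))) ?_
    refine hxs.mono' ?_
    intro u hu
    apply subset_tsupport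
    rw [Function.mem_support] at hu ⊢
    intro h0
    apply hu
    rw [h0]
    simp
  have hηc : ∀ i, Continuous (η i) := fun i => by
    rw [hη]
    exact (ξ _ i).continuous.add (continuous_const.mul hx1.continuous)
  have hfo : p * ∫ u, ‖x u‖ ^ (p - 2) * ((starRingEnd ℂ) (x u) * (avc (Y u) - x u)).re ≤
      C / p * Δ := by
    have e1 : ∀ u, ‖x u‖ ^ (p - 2) * ((starRingEnd ℂ) (x u) * (avc (Y u) - x u)).re =
        ((-1) ^ (n' + 1) / K) * ((-p) * (‖x u‖ ^ (p - 2) *
          ((starRingEnd ℂ) (x u) * deriv x u).re) + ∑ i ∈ Finset.range n',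
          c (2 * (n' + 1 : ℕ)) (i + 1) * (‖x u‖ ^ (p - 2) *
            ((starRingEnd ℂ) (x u) * η (i + 1) u).re)) := by
      intro u
      have e2 : avc (Y u) - x u = (((-1) ^ (n' + 1) / K : ℝ) : ℂ) *
          (((-p : ℝ) : ℂ) * deriv x u +
            ∑ i ∈ Finset.range n', (c (2 * (n' + 1 : ℕ)) (i + 1) : ℂ) * η (i + 1) u) := by
        have e3 : avc (Y u) = (((-1) ^ (n' + 1) / K : ℝ) : ℂ) * γ (2 * (n' + 1 : ℕ)) u := by
          rw [hY]
          simp only
          rw [avc_mul_left, hG]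
          congr 1
          exact mode0 γ u
        have e4 : ((-p : ℝ) : ℂ) * deriv x u = φ (2 * (n' + 1 : ℕ)) u - x u := by
          rw [hx2 u]
          push_cast
          ring
        rw [e3, e4, ← dec u, mul_sub, ← mul_assoc, hsgn, one_mul]
      rw [e2]
      have e5 : (starRingEnd ℂ) (x u) * ((((-1) ^ (n' + 1) / K : ℝ) : ℂ) *
          (((-p : ℝ) : ℂ) * deriv x u +
            ∑ i ∈ Finset.range n', (c (2 * (n' + 1 : ℕ)) (i + 1) : ℂ) * η (i + 1) u)) =
          (((-1) ^ (n' + 1) / K : ℝ) : ℂ) * (((-p : ℝ) : ℂ) * ((starRingEnd ℂ) (x u) * deriv x u) +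
            ∑ i ∈ Finset.range n', (c (2 * (n' + 1 : ℕ)) (i + 1) : ℂ) *
              ((starRingEnd ℂ) (x u) * η (i + 1) u)) := by
        rw [mul_add, mul_add, mul_add, Finset.mul_sum, Finset.mul_sum, Finset.mul_sum]
        congr 1
        · ring
        · refine Finset.sum_congr rfl fun i _ => ?_
          ring
      rw [e5, Complex.re_ofReal_mul, Complex.add_re, Complex.re_ofReal_mul, Complex.re_sum]
      simp only [Complex.re_ofReal_mul]
      rw [mul_left_comm]
      congr 1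
      rw [mul_add, Finset.mul_sum]
      congr 1
      · ring
      · refine Finset.sum_congr rfl fun i _ => ?_
        ring
    have hdc : Continuous (deriv x) := hx1.continuous_deriv (by norm_num)
    simp only [e1]
    rw [integral_const_mul, integral_add ((intT _ hdc).const_mul _)
      (integrable_finsetSum _ fun i _ => (intT _ (hηc (i + 1))).const_mul _),
      integral_const_mul, int_deriv_zero hp2 hx1 hxs, mul_zero, zero_add,
      integral_finsetSum _ fun i _ => (intT _ (hηc (i + 1))).const_mul _]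
    simp only [integral_const_mul]
    have e6 : p * ((-1) ^ (n' + 1) / K * ∑ i ∈ Finset.range n',
        c (2 * (n' + 1 : ℕ)) (i + 1) * ∫ u, ‖x u‖ ^ (p - 2) *
            ((starRingEnd ℂ) (x u) * η (i + 1) u).re) =
        ((-1) ^ (n' + 1) / K) * ∑ i ∈ Finset.range n',
        c (2 * (n' + 1 : ℕ)) (i + 1) * (p * ∫ u, ‖x u‖ ^ (p - 2) *
            ((starRingEnd ℂ) (x u) * η (i + 1) u).re) := by
      rw [mul_left_comm, Finset.mul_sum]
      congr 1
      refine Finset.sum_congr rfl fun i _ => ?_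
      ring
    rw [e6]
    have h1 : |∑ i ∈ Finset.range n', c (2 * (n' + 1 : ℕ)) (i + 1) * (p * ∫ u, ‖x u‖ ^ (p - 2) *
            ((starRingEnd ℂ) (x u) * η (i + 1) u).re)| ≤ (∑ k ∈ S, Cc k) * Δ := by
      refine (Finset.abs_sum_le_sum_abs _ _).trans ?_
      have h2 : ∑ i ∈ Finset.range n', |c (2 * (n' + 1 : ℕ)) (i + 1) *
          (p * ∫ u, ‖x u‖ ^ (p - 2) * ((starRingEnd ℂ) (x u) * η (i + 1) u).re)| ≤
          (∑ i ∈ Finset.range n', |c (2 * (n' + 1 : ℕ)) (i + 1)|) * Δ := by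
        rw [Finset.sum_mul]
        refine Finset.sum_le_sum fun i hi => ?_
        rw [abs_mul]
        exact mul_le_mul_of_nonneg_left
          (hT (i + 1) (by omega) (by have := Finset.mem_range.1 hi; omega)) (abs_nonneg _)
      refine h2.trans (mul_le_mul_of_nonneg_right ?_ hΔ0)
      refine le_trans ?_ hCs
      rw [hCc]
      simp only
      rw [Finset.sum_range_succ']
      linarith [abs_nonneg (c (2 * (n' + 1 : ℕ)) 0)]
    have h3 : |(-1 : ℝ) ^ (n' + 1) / K| = 1 / K := by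
      rw [abs_div, abs_pow, abs_neg, abs_one, one_pow, abs_of_pos hK0]
    refine (le_abs_self _).trans ?_
    rw [abs_mul, h3]
    have h4 : 0 ≤ (∑ k ∈ S, Cc k) * Δ :=
      mul_nonneg (Finset.sum_nonneg fun k _ => by linarith [hCc0 k]) hΔ0
    calc 1 / K * |∑ i ∈ Finset.range n', c (2 * (n' + 1 : ℕ)) (i + 1) *
          (p * ∫ u, ‖x u‖ ^ (p - 2) * ((starRingEnd ℂ) (x u) * η (i + 1) u).re)|
        ≤ (2 / p) * ((∑ k ∈ S, Cc k) * Δ) := mul_le_mul hKi h1 (abs_nonneg _) (by positivity)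
      _ = C / p * Δ := by rw [hC]; ring
  rw [hA] at hWW
  rw [hΔ] at hfo
  have fin := H p hp F Y x R hFc hYc hx1 hR avF hWW hfo
  -- conclusion
  have eG : ∀ u t, ‖G u t‖ ^ p = K ^ p * ‖Y u t‖ ^ p := by
    intro u t
    have e1 : ‖G u t‖ = K * ‖Y u t‖ := by
      rw [hY]
      simp only
      rw [norm_mul, hnsgn]
      field_simp
    rw [e1, Real.mul_rpow hK0.le (norm_nonneg _)]
  have e1 : ∀ u : ℝ, (av fun t => ‖∑ k ∈ Finset.Icc (-(N : ℤ)) N,
      Complex.exp (((k : ℝ) - 2 * ((n' + 1 : ℕ) : ℂ)) * t * Complex.I) *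
        pol (PB p (n' + 1) k) (ζ k) u‖ ^ p) = K ^ p * av fun t => ‖Y u t‖ ^ p := by
    intro u
    rw [← av_mul_left]
    congr 1
    funext t
    rw [← eG, hG, hγ, hS]
    simp only
    congr 2
    refine Finset.sum_congr rfl fun k _ => ?_
    congr 3
    push_cast
    ring
  have e2 : ∀ u : ℝ, (av fun t => ‖∑ k ∈ Finset.Icc (-(N : ℤ)) N,
      Complex.exp (((k : ℝ) - 2 * ((n' + 1 : ℕ) : ℂ)) * t * Complex.I) *
        pol (PA p (n' + 1) k) (ζ k) u‖ ^ p) = av fun t => ‖F u t‖ ^ p := by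
    intro u
    congr 1
    funext t
    rw [hF, hφ, hS]
    simp only
    congr 2
    refine Finset.sum_congr rfl fun k _ => ?_
    congr 3
    push_cast
    ring
  simp only [e1, e2]
  rw [integral_const_mul, ← hK]
  exact mul_le_mul_of_nonneg_left fin (by positivity)

end Pool.Agent.W2helper3.BQ
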