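import Pool.Agent.W2helper3.BQ.Mo2
import Pool.Agent.W2helper3.BQ.Stm3
import Pool.Agent.W2helper75.BQ.BRA

set_option autoImplicit false

open MeasureTheory Set Filter Topology
open scoped SchwartzMap ENNReal ContDiff BigOperators

namespace Pool.Agent.W2helper3.BQ

lemma hr_cont {q : ℝ} (hq : 0 < q) {H : ℝ → ℝ → ℂ} (hH : Continuous (Function.uncurry H)) :
    Continuous (hr q H) := by
  unfold hr
  exact av_cont (hH.norm.rpow_const (fun _ => Or.inr hq.le))

lemma hr_nonneg (q : ℝ) (H : ℝ → ℝ → ℂ) (u : ℝ) : 0 ≤ hr q H u :=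
  av_nonneg fun t => Real.rpow_nonneg (norm_nonneg _) _

lemma hr_supp {q : ℝ} (hq : 0 < q) {H : ℝ → ℝ → ℂ} {R : ℝ}
    (hR : ∀ u, R ≤ |u| → ∀ s, H u s = 0) : HasCompactSupport (hr q H) := by
  refine HasCompactSupport.intro (isCompact_Icc (a := -R) (b := R)) fun u hu => ?_
  have hu2 : R ≤ |u| := by
    by_contra h
    rw [not_le, abs_lt] at h
    exact hu ⟨h.1.le, h.2.le⟩
  unfold hr
  simp only [hR u hu2, norm_zero, Real.zero_rpow hq.ne']
  exact av_const 0

lemma le_root {q x y : ℝ} (hq : 0 < q) (hx : 0 ≤ x) (h : x ^ q ≤ y) : x ≤ y ^ (1 / q) := by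
  have h1 : x = (x ^ q) ^ (1 / q) := by
    rw [← Real.rpow_mul hx, mul_one_div_cancel hq.ne', Real.rpow_one]
  rw [h1]
  exact Real.rpow_le_rpow (Real.rpow_nonneg hx _) h (by positivity)

/-- Jensen for a probability measure -/
lemma mu_jensen {μ : Measure ℝ} (hμ : IsProbabilityMeasure μ) {q : ℝ} (hq : 1 ≤ q) {f : ℝ → ℝ}
    (hf : Continuous f) (hs : HasCompactSupport f) (h0 : ∀ u, 0 ≤ f u) (u : ℝ) :
    (∫ v, f (u + v) ∂μ) ^ q ≤ ∫ v, f (u + v) ^ q ∂μ := by
  have hi := shift_int (μ := μ) hf hs u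
  have hfq : Continuous (fun u => f u ^ q) := hf.rpow_const (fun _ => Or.inr (by linarith))
  have hsq : HasCompactSupport (fun u => f u ^ q) :=
    hs.comp_left (g := fun y : ℝ => y ^ q) (Real.zero_rpow (by linarith))
  have hi2 := shift_int (μ := μ) hfq hsq u
  exact (convexOn_rpow hq).map_integral_le
    (continuousOn_id.rpow_const (fun _ _ => Or.inr (by linarith))) isClosed_Ici
    (Eventually.of_forall fun v => h0 _) hi hi2

/-- `∫ A dμ ≤ (∫ hr q H dμ) ^ (1/q)` -/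
lemma A_le_hr {μ : Measure ℝ} (hμ : IsProbabilityMeasure μ) {q : ℝ} (hq : 1 ≤ q)
    {H : ℝ → ℝ → ℂ} (hH : Continuous (Function.uncurry H)) {R : ℝ}
    (hR : ∀ u, R ≤ |u| → ∀ s, H u s = 0) (u : ℝ) :
    ∫ v, (av fun t => ‖H (u + v) t‖) ∂μ ≤ (∫ v, hr q H (u + v) ∂μ) ^ (1 / q) := by
  have hq0 : 0 < q := by linarith
  have hA : Continuous (fun u => av fun t => ‖H u t‖) := av_cont hH.norm
  have hAs : HasCompactSupport (fun u => av fun t => ‖H u t‖) := by
    refine HasCompactSupport.intro (isCompact_Icc (a := -R) (b := R)) fun u hu => ?_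
    have hu2 : R ≤ |u| := by
      by_contra h
      rw [not_le, abs_lt] at h
      exact hu ⟨h.1.le, h.2.le⟩
    simp only [hR u hu2, norm_zero]
    exact av_const 0
  have hA0 : ∀ u, 0 ≤ av fun t => ‖H u t‖ := fun u => av_nonneg fun t => norm_nonneg _
  have h1 := mu_jensen hμ hq hA hAs hA0 u
  have h2 : ∫ v, (av fun t => ‖H (u + v) t‖) ^ q ∂μ ≤ ∫ v, hr q H (u + v) ∂μ := by
    refine integral_mono ?_ (shift_int (hr_cont hq0 hH) (hr_supp hq0 hR) u) fun v => ?_
    · exact shift_int (A := fun u => (av fun t => ‖H u t‖) ^ q)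
        (hA.rpow_const (fun _ => Or.inr hq0.le))
        (hAs.comp_left (g := fun y : ℝ => y ^ q) (Real.zero_rpow hq0.ne')) u
    · exact Pool.Agent.W2helper75.BQ.jensen
        (hH.comp (Continuous.prodMk_right (u + v))).norm (fun t => norm_nonneg _) hq
  have h3 : 0 ≤ ∫ v, (av fun t => ‖H (u + v) t‖) ∂μ := integral_nonneg fun v => hA0 _
  exact le_root hq0 h3 (h1.trans h2)

/-- the average of the norm is at most the `q`-mean -/
lemma av_le_hr {q : ℝ} (hq : 1 ≤ q) {H : ℝ → ℝ → ℂ} (hH : Continuous (Function.uncurry H)) (u : ℝ) :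
    (av fun t => ‖H u t‖) ≤ (hr q H u) ^ (1 / q) :=
  le_root (by linarith) (av_nonneg fun t => norm_nonneg _)
    (Pool.Agent.W2helper75.BQ.jensen (hH.comp (Continuous.prodMk_right u)).norm
      (fun t => norm_nonneg _) hq)

/-- `((a + m b) / (1 + m)) ^ q ≤ (a ^ q + m b ^ q) / (1 + m)` -/
lemma conv_two {q m a b : ℝ} (hq : 1 ≤ q) (hm : 0 ≤ m) (ha : 0 ≤ a) (hb : 0 ≤ b) :
    (a + m * b) ^ q ≤ (1 + m) ^ (q - 1) * (a ^ q + m * b ^ q) := by
  have h1 : 0 < 1 + m := by linarith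
  have hc := (convexOn_rpow hq).2 (show a ∈ Ici (0 : ℝ) from ha) (show b ∈ Ici (0 : ℝ) from hb)
    (show (0 : ℝ) ≤ 1 / (1 + m) by positivity) (show (0 : ℝ) ≤ m / (1 + m) by positivity)
    (by field_simp)
  simp only [smul_eq_mul] at hc
  have e1 : 1 / (1 + m) * a + m / (1 + m) * b = (a + m * b) / (1 + m) := by
    field_simp
  rw [e1, Real.div_rpow (by positivity) h1.le, div_le_iff₀ (by positivity)] at hc
  refine hc.trans (le_of_eq ?_)
  have e2 : (1 + m) ^ q = (1 + m) ^ (q - 1) * (1 + m) := by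
    rw [← Real.rpow_add_one h1.ne']
    congr 1
    ring
  rw [e2]
  field_simp

/-- the `q`-mean of a perturbation -/
lemma hr_pert {q m : ℝ} (hq : 1 ≤ q) (hm : 0 ≤ m) {H H₀ : ℝ → ℝ → ℂ}
    (hH : Continuous (Function.uncurry H)) (hH₀ : Continuous (Function.uncurry H₀)) {u : ℝ}
    (h : ∀ t, ‖H₀ u t‖ ≤ ‖H u t‖ + m * av fun t => ‖H u t‖) :
    hr q H₀ u ≤ (1 + m) ^ q * hr q H u := by
  have hq0 : 0 < q := by linarith
  have h1 : 0 < 1 + m := by linarith
  have hHu : Continuous (H u) := hH.comp (Continuous.prodMk_right u)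
  have hHu₀ : Continuous (H₀ u) := hH₀.comp (Continuous.prodMk_right u)
  obtain ⟨A, hA⟩ : ∃ A : ℝ, A = av fun t => ‖H u t‖ := ⟨_, rfl⟩
  have hA0 : 0 ≤ A := by rw [hA]; exact av_nonneg fun t => norm_nonneg _
  rw [← hA] at h
  have hAq : A ^ q ≤ hr q H u := by
    rw [hA]
    exact Pool.Agent.W2helper75.BQ.jensen hHu.norm (fun t => norm_nonneg _) hq
  have h2 : hr q H₀ u ≤ av fun t => (1 + m) ^ (q - 1) * (‖H u t‖ ^ q + m * A ^ q) := by
    unfold hr
    refine av_mono (hHu₀.norm.rpow_const (fun _ => Or.inr hq0.le))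
      (continuous_const.mul ((hHu.norm.rpow_const (fun _ => Or.inr hq0.le)).add
        continuous_const)) fun t => ?_
    exact (Real.rpow_le_rpow (norm_nonneg _) (h t) hq0.le).trans
      (conv_two hq hm (norm_nonneg _) hA0)
  refine h2.trans ?_
  rw [av_mul_left, av_add (hHu.norm.rpow_const (fun _ => Or.inr hq0.le)) continuous_const,
    av_const]
  have e2 : (1 + m) ^ q = (1 + m) ^ (q - 1) * (1 + m) := by
    rw [← Real.rpow_add_one h1.ne']
    congr 1
    ring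
  rw [e2, mul_assoc]
  refine mul_le_mul_of_nonneg_left ?_ (by positivity)
  have : m * A ^ q ≤ m * hr q H u := mul_le_mul_of_nonneg_left hAq hm
  change hr q H u + m * A ^ q ≤ _
  linarith

/-- Fourier coefficients of a trigonometric polynomial -/
lemma avc_coef (S : Finset ℤ) (M : ℤ) (φ : ℤ → ℂ) (m : ℤ) :
    avc (fun t => Complex.exp (-((m : ℂ) * t * Complex.I)) *
      ∑ k ∈ S, Complex.exp (((k : ℂ) - M) * t * Complex.I) * φ k) =
    ∑ k ∈ S, if k - M = m then φ k else 0 := by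
  have e : ∀ t : ℝ, Complex.exp (-((m : ℂ) * t * Complex.I)) *
      ∑ k ∈ S, Complex.exp (((k : ℂ) - M) * t * Complex.I) * φ k =
      ∑ k ∈ S, φ k * Complex.exp ((((k - M - m : ℤ)) : ℂ) * t * Complex.I) := by
    intro t
    rw [Finset.mul_sum]
    refine Finset.sum_congr rfl fun k _ => ?_
    rw [← mul_assoc, ← Complex.exp_add, mul_comm]
    congr 2
    push_cast
    ring
  simp only [e]
  have hc : ∀ k ∈ S, Continuous
      (fun t : ℝ => φ k * Complex.exp ((((k - M - m : ℤ)) : ℂ) * t * Complex.I)) :=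
    fun k _ => continuous_const.mul (exp_cont _)
  rw [avc_sum _ (fun k (t : ℝ) => φ k * Complex.exp ((((k - M - m : ℤ)) : ℂ) * t * Complex.I)) hc]
  simp only [avc_mul_left, avc_exp]
  refine Finset.sum_congr rfl fun k _ => ?_
  by_cases h : k - M = m
  · rw [if_pos h, if_pos (by omega), mul_one]
  · rw [if_neg h, if_neg (by omega), mul_zero]

/-- the numerical condition -/
lemma num_mo3 {D₀ M E L m N p : ℝ} (hD₀ : 1 ≤ D₀) (hM : 1 ≤ M) (hE : 1 ≤ E)
    (hm : 0 ≤ m) (hN : 0 ≤ N) (hL : L = Real.log (N + 2)) (hp0 : 0 < p)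
    (hp : (2 * (D₀ + 12800 * E * (64 * M ^ 2)) + 6 + 96 * D₀) * ((1 + m) * L) ≤ Real.log p) :
    D₀ * (1 + m) + 12800 * E * (4 * M * (2 * N + 1 + m)) ^ 2 *
      Real.exp (32 * (D₀ * (1 + m)) * (3 * L)) ≤ p := by
  have hL0 : Real.log 2 ≤ L := by
    rw [hL]
    exact Real.log_le_log (by norm_num) (by linarith)
  have hL1 : (1 : ℝ) / 2 ≤ L := by
    have := Real.log_two_gt_d9
    linarith
  have hN2 : N + 2 = Real.exp L := by
    rw [hL, Real.exp_log (by linarith)]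
  obtain ⟨P, hP⟩ : ∃ P : ℝ, P = (1 + m) * L := ⟨_, rfl⟩
  have hP1 : (1 : ℝ) / 2 ≤ P := by
    rw [hP]
    nlinarith
  have hPL : L ≤ P := by
    rw [hP]
    nlinarith
  have hm1 : 1 + m ≤ Real.exp (2 * P) := by
    have h1 : 2 * P + 1 ≤ Real.exp (2 * P) := Real.add_one_le_exp _
    have h2 : 1 + m ≤ 2 * P := by
      rw [hP]
      nlinarith
    linarith
  obtain ⟨A₀, hA₀⟩ : ∃ A₀ : ℝ, A₀ = D₀ + 12800 * E * (64 * M ^ 2) := ⟨_, rfl⟩
  have hA0 : 0 ≤ A₀ := by rw [hA₀]; positivity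
  have h1 : D₀ * (1 + m) ≤ D₀ * Real.exp ((6 + 96 * D₀) * P) := by
    refine mul_le_mul_of_nonneg_left (hm1.trans (Real.exp_le_exp.2 ?_)) (by linarith)
    nlinarith
  have h2 : (4 * M * (2 * N + 1 + m)) ^ 2 ≤ 64 * M ^ 2 * Real.exp (6 * P) := by
    have e1 : 2 * N + 1 + m ≤ 2 * (Real.exp L * Real.exp (2 * P)) := by
      have h3 : 2 * N + 1 + m ≤ 2 * ((N + 2) * (1 + m)) := by nlinarith
      rw [hN2] at h3
      refine h3.trans ?_
      have := mul_le_mul_of_nonneg_left hm1 (Real.exp_pos L).le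
      linarith
    have e2 : Real.exp L * Real.exp (2 * P) ≤ Real.exp (3 * P) := by
      rw [← Real.exp_add]
      exact Real.exp_le_exp.2 (by linarith)
    have e3 : 0 ≤ 2 * N + 1 + m := by linarith
    have e4 : (2 * N + 1 + m) ^ 2 ≤ (2 * Real.exp (3 * P)) ^ 2 :=
      pow_le_pow_left₀ e3 (by linarith) 2
    have e5 : (Real.exp (3 * P)) ^ 2 = Real.exp (6 * P) := by
      rw [← Real.exp_nat_mul]
      congr 1
      push_cast
      ring
    calc (4 * M * (2 * N + 1 + m)) ^ 2 = 16 * M ^ 2 * (2 * N + 1 + m) ^ 2 := by ring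
      _ ≤ 16 * M ^ 2 * (2 * Real.exp (3 * P)) ^ 2 :=
          mul_le_mul_of_nonneg_left e4 (by positivity)
      _ = 64 * M ^ 2 * Real.exp (6 * P) := by rw [mul_pow, e5]; ring
  have h3 : Real.exp (32 * (D₀ * (1 + m)) * (3 * L)) = Real.exp (96 * D₀ * P) := by
    congr 1
    rw [hP]
    ring
  have h4 : 12800 * E * (4 * M * (2 * N + 1 + m)) ^ 2 *
      Real.exp (32 * (D₀ * (1 + m)) * (3 * L)) ≤
      12800 * E * (64 * M ^ 2) * Real.exp ((6 + 96 * D₀) * P) := by
    rw [h3]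
    have e6 : Real.exp ((6 + 96 * D₀) * P) = Real.exp (6 * P) * Real.exp (96 * D₀ * P) := by
      rw [← Real.exp_add]
      congr 1
      ring
    rw [e6]
    have e7 : 12800 * E * (4 * M * (2 * N + 1 + m)) ^ 2 ≤
        12800 * E * (64 * M ^ 2 * Real.exp (6 * P)) :=
      mul_le_mul_of_nonneg_left h2 (by positivity)
    have := mul_le_mul_of_nonneg_right e7 (Real.exp_pos (96 * D₀ * P)).le
    linarith
  have h5 : D₀ * (1 + m) + 12800 * E * (4 * M * (2 * N + 1 + m)) ^ 2 *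
      Real.exp (32 * (D₀ * (1 + m)) * (3 * L)) ≤ A₀ * Real.exp ((6 + 96 * D₀) * P) := by
    rw [hA₀]
    linarith
  refine h5.trans ?_
  have h6 : A₀ ≤ Real.exp (2 * A₀ * P) := by
    have := Real.add_one_le_exp (2 * A₀ * P)
    nlinarith
  rw [← hP, ← hA₀] at hp
  calc A₀ * Real.exp ((6 + 96 * D₀) * P)
      ≤ Real.exp (2 * A₀ * P) * Real.exp ((6 + 96 * D₀) * P) :=
        mul_le_mul_of_nonneg_right h6 (Real.exp_pos _).le
    _ = Real.exp ((2 * A₀ + 6 + 96 * D₀) * P) := by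
        rw [← Real.exp_add]
        congr 1
        ring
    _ ≤ Real.exp (Real.log p) := Real.exp_le_exp.2 hp
    _ = p := Real.exp_log hp0

end Pool.Agent.W2helper3.BQ
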